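import Pool.Agent.Lib.MP_5a17c4_lc.CoreObj

/-!
Putting the gadgets of the agents together.
-/

set_option autoImplicit false

namespace Pool.Agent.Lib.MP_5a17c4_lc

open Finset

variable {n m Λ : ℕ}

/-- The instances `x` and `y` are at sup-distance at most `F`. -/
def Near (x y : Inst n m) (F : ℕ) : Prop := ∀ i o, |(x i o : ℤ) - y i o| ≤ F

theorem Near.real {x y : Inst n m} {F : ℕ} (h : Near x y F) (i : Fin n) (o : Fin m) :
    |(x i o : ℝ) - y i o| ≤ F := by exact_mod_cast h i o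

theorem Near.sum {x y : Inst n m} {F : ℕ} (h : Near x y F) (i : Fin n) {w : Fin m → ℝ}
    (hw : ∀ o, |w o| ≤ 1) : |∑ o, (x i o : ℝ) * w o - ∑ o, (y i o : ℝ) * w o| ≤ m * F := by
  rw [← sum_sub_distrib]
  refine (abs_sum_le_sum_abs _ _).trans ?_
  have : ∀ o ∈ (univ : Finset (Fin m)), |(x i o : ℝ) * w o - y i o * w o| ≤ F := by
    intro o _
    rw [← sub_mul, abs_mul]
    exact (mul_le_mul (h.real i o) (hw o) (abs_nonneg _) (Nat.cast_nonneg _)).trans (by simp)
  simpa using sum_le_card_nsmul _ _ _ this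

theorem Consensus.simplex {v : Inst n m} {z : Fin n → Fin m → ℝ} (h : Consensus v z) (o : Fin m) :
    Simplex (fun j => z j o) := ⟨fun j => h.1 j o, h.2.1 o⟩

/-- Agent `i` values the objects `e (i, p)` at `K * g i p`, agent `i0` values in addition the
object `o0` at `γ`, and all other values vanish. -/
def IsCentre (e : Fin n × Fin Λ ↪ Fin m) (K γ : ℕ) (g : Fin n → ℕ → ℕ) (i0 : Fin n) (o0 : Fin m)
    (x : Inst n m) : Prop :=
  ∀ i (w : Fin m → ℝ), ∑ o, (x i o : ℝ) * w o =
    K * ∑ p : Fin Λ, (g i p : ℝ) * w (e (i, p)) + (if i = i0 then (γ : ℝ) else 0) * w o0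

/-- restriction of an allocation to the objects of agent `i` -/
def res (e : Fin n × Fin Λ ↪ Fin m) (z : Fin n → Fin m → ℝ) (i : Fin n) (p : ℕ) (j : Fin n) : ℝ :=
  if h : p < Λ then z j (e (i, ⟨p, h⟩)) else 0

theorem res_val (e : Fin n × Fin Λ ↪ Fin m) (z : Fin n → Fin m → ℝ) (i : Fin n) (p : Fin Λ) :
    res e z i p = fun j => z j (e (i, p)) := by
  funext j; simp [res, p.2]

variable {e : Fin n × Fin Λ ↪ Fin m} {K γ F : ℕ} {g : Fin n → ℕ → ℕ} {i0 : Fin n} {o0 : Fin m}
  {x y : Inst n m}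

theorem approx_res (hx : IsCentre e K γ g i0 o0 x) (hy : Near x y F)
    (hK : 2 * n * (2 * m * F + γ) < K) {z : Fin n → Fin m → ℝ} (hz : Consensus y z) (i : Fin n) :
    Approx Λ (g i) (res e z i) := by
  refine ⟨fun p hp => ?_, fun j => ?_⟩
  · rw [res_val e z i ⟨p, hp⟩]; exact hz.simplex _
  rw [sum_range, sum_range]
  simp only [res_val]
  have h1 := hx i (z j)
  have h2 := hx i (fun _ => 1)
  have h3 := (abs_le.1 (hy.sum i (w := z j) fun o => by
    rw [abs_of_nonneg (hz.1 j o)]; exact (hz.simplex o).le_one j)).2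
  have h4 := (abs_le.1 (hy.sum i (w := fun _ => 1) fun o => by simp)).1
  have h5 := hz.2.2 i j
  simp only [mul_one] at h2 h4
  have hn : (1 : ℝ) ≤ n := by exact_mod_cast i.pos
  have hK' : 2 * (n : ℝ) * (2 * m * F + γ) < K := by exact_mod_cast hK
  have hγ : 0 ≤ (if i = i0 then (γ : ℝ) else 0) ∧ (if i = i0 then (γ : ℝ) else 0) ≤ γ := by
    split_ifs <;> simp
  have h6 := mul_nonneg hγ.1 (hz.1 j o0)
  have hmF : (0 : ℝ) ≤ m * F := by positivity
  have hK0 : (0 : ℝ) < K := lt_of_le_of_lt (by positivity) hK'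
  set A := ∑ p : Fin Λ, (g i p : ℝ) * z j (e (i, p))
  set B := ∑ p : Fin Λ, (g i p : ℝ)
  set V := ∑ o, (y i o : ℝ)
  have h7 : K * A ≤ V / n + m * F := by linarith
  have h8 : V ≤ K * B + γ + m * F := by linarith [hγ.2]
  have h9 : K * A * n ≤ V + m * F * n := by
    have := mul_le_mul_of_nonneg_right h7 (by linarith : (0 : ℝ) ≤ n)
    rwa [add_mul, div_mul_cancel₀ _ (by linarith)] at this
  rw [div_add_div _ _ (by linarith) (by linarith), le_div_iff₀ (by positivity)]
  refine le_of_mul_le_mul_left ?_ hK0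
  have hγ0 : (0 : ℝ) ≤ γ := Nat.cast_nonneg _
  have h10 : K * A * n ≤ K * B + (2 * m * F + γ) * n := by nlinarith
  have h11 := mul_le_mul_of_nonneg_right h10 (by linarith : (0 : ℝ) ≤ 2 * n)
  have h12 : (2 * m * F + γ) * n * (2 * n) ≤ K * n := by nlinarith
  nlinarith

theorem cost_groups (μ : Bool) (z : Fin n → Fin m → ℝ) :
    ∑ i, ∑ p ∈ range Λ, cost μ (res e z i p) =
      ∑ o ∈ univ.map e, cost μ (fun j => z j o) := by
  rw [sum_map, Fintype.sum_prod_type]
  refine sum_congr rfl fun i _ => ?_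
  rw [sum_range]
  simp only [res_val]

theorem no_of_cons {μ : Bool} {q : Fin n → ℕ} {Q : Prop} (hx : IsCentre e K γ g i0 o0 x)
    (hy : Near x y F) (hK : 2 * n * (2 * m * F + γ) < K)
    (hf : ∀ i ≠ i0, Force μ n Λ (g i) (q i)) (hc : Core μ n Λ (g i0) (q i0) Q)
    (h : Cons μ n (∑ i, q i) m y) : Q := by
  obtain ⟨z, hz, hs⟩ := h
  refine hc _ (approx_res hx hy hK hz i0) ?_
  have h1 := (cost_groups (e := e) μ z).le.trans
    ((sum_le_sum_of_subset (subset_univ _)).trans hs)
  rw [← add_sum_erase _ _ (mem_univ i0), ← add_sum_erase _ _ (mem_univ i0)] at h1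
  have h2 : ∑ i ∈ univ.erase i0, q i ≤
      ∑ i ∈ univ.erase i0, ∑ p ∈ range Λ, cost μ (res e z i p) :=
    sum_le_sum fun i hi => hf i (mem_erase.1 hi).1 _ (approx_res hx hy hK hz i)
  omega

theorem exists_base {μ : Bool} {q : Fin n → ℕ} (hx : IsCentre e K γ g i0 o0 x)
    {W : Fin n → ℕ → Fin n → ℝ} (hW : ∀ i, Base μ Λ (g i) (q i) (W i))
    (h0 : γ = 0 ∨ ∃ i p, o0 = e (i, p) ∧ ∀ j, W i p j = 1 / n) :
    ∃ z : Fin n → Fin m → ℝ, Consensus x z ∧ ∑ o, cost μ (fun j => z j o) ≤ ∑ i, q i ∧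
      (∀ i p, (fun j => z j (e (i, p))) = W i p) ∧
      ∀ o, o ∉ univ.map e → (fun j => z j o) = Pi.single i0 1 := by
  let c : Fin m → Fin n → ℝ := Function.extend e (fun a => W a.1 a.2) (fun _ => Pi.single i0 1)
  have h1 : ∀ i p, c (e (i, p)) = W i p := fun i p => e.injective.extend_apply _ _ _
  have h2 : ∀ o, o ∉ univ.map e → c o = Pi.single i0 1 := fun o ho =>
    Function.extend_apply' _ _ _ (by simpa using ho)
  have h3 : ∀ o, Simplex (c o) := by
    intro o
    by_cases ho : o ∈ univ.map e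
    · obtain ⟨⟨i, p⟩, -, rfl⟩ := mem_map.1 ho
      rw [h1]; exact (hW i).simp p
    · rw [h2 o ho]; exact simplex_single _
  refine ⟨fun j o => c o j, ⟨fun j o => (h3 o).1 j, fun o => (h3 o).2, fun i j => ?_⟩, ?_, h1, h2⟩
  · have e1 := hx i (fun o => c o j)
    have e2 := hx i (fun _ => 1)
    have e3 := (hW i).fair j
    rw [sum_range, sum_range] at e3
    simp only [mul_one, h1] at e1 e2
    rw [e1, e2, e3, add_div, mul_div_assoc]
    congr 1
    rcases h0 with rfl | ⟨i', p, rfl, h⟩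
    · simp
    · rw [h1, h]; ring
  · rw [← sum_subset (subset_univ (univ.map e)) (fun o _ ho => by
      change cost μ (c o) = 0
      rw [h2 o ho, cost_single]), sum_map, Fintype.sum_prod_type]
    refine sum_le_sum fun i _ => le_trans (le_of_eq ?_) (hW i).cst
    rw [sum_range]
    exact sum_congr rfl fun p _ => congrArg _ (h1 i p)

theorem dom_bound (Y : Fin n → Fin n → ℝ) {μ η : ℝ} (hμ : 0 < μ)
    (hY : ∀ i, ∑ k ∈ univ.erase i, |Y i k| + μ ≤ |Y i i|) {d : Fin n → ℝ}
    (hd : ∀ i, |∑ k, Y i k * d k| ≤ η) (k : Fin n) : μ * |d k| ≤ η := by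
  obtain ⟨i, -, hi⟩ := exists_max_image univ (fun k => |d k|) ⟨k, mem_univ _⟩
  have h1 := hd i
  rw [← add_sum_erase _ _ (mem_univ i)] at h1
  have h2 : |∑ k ∈ univ.erase i, Y i k * d k| ≤ (∑ k ∈ univ.erase i, |Y i k|) * |d i| := by
    rw [sum_mul]
    refine (abs_sum_le_sum_abs _ _).trans (sum_le_sum fun k _ => ?_)
    rw [abs_mul]
    exact mul_le_mul_of_nonneg_left (hi k (mem_univ _)) (abs_nonneg _)
  have h3 : |Y i i * d i| ≤ η + |∑ k ∈ univ.erase i, Y i k * d k| := by
    have := abs_sub (Y i i * d i + ∑ k ∈ univ.erase i, Y i k * d k)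
      (∑ k ∈ univ.erase i, Y i k * d k)
    rw [add_sub_cancel_right] at this
    linarith
  rw [abs_mul] at h3
  have h4 := mul_le_mul_of_nonneg_right (hY i) (abs_nonneg (d i))
  have h5 := mul_le_mul_of_nonneg_left (hi k (mem_univ _)) hμ.le
  nlinarith

theorem robust (hn : 2 ≤ n) {z0 : Fin n → Fin m → ℝ} (h0 : Consensus x z0) (hy : Near x y F)
    (fl : Fin n ↪ Fin m) (hfl : ∀ j k, z0 j (fl k) = 1 / n)
    (hd : ∀ i, ∑ k ∈ univ.erase i, x i (fl k) + n * F + n * m * F < x i (fl i)) :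
    ∃ z, Consensus y z ∧ ∑ o, cost true (fun j => z j o) ≤ ∑ o, cost true (fun j => z0 j o) := by
  let Y : Matrix (Fin n) (Fin n) ℝ := fun i k => y i (fl k)
  have hn' : (2 : ℝ) ≤ n := by exact_mod_cast hn
  have hμ : (0 : ℝ) < n * m * F + 1 := by positivity
  have hY : ∀ i, ∑ k ∈ univ.erase i, |Y i k| + (n * m * F + 1) ≤ |Y i i| := by
    intro i
    have h1 : (∑ k ∈ univ.erase i, (x i (fl k) : ℝ)) + n * F + n * m * F + 1 ≤ x i (fl i) := by
      exact_mod_cast hd i
    have h2 : ∑ k ∈ univ.erase i, |Y i k| ≤ ∑ k ∈ univ.erase i, ((x i (fl k) : ℝ) + F) :=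
      sum_le_sum fun k _ => by
        have := (abs_le.1 (hy.real i (fl k))).1
        simp only [Y, Nat.abs_cast]
        linarith
    rw [sum_add_distrib, sum_const, card_erase_of_mem (mem_univ _), card_univ, Fintype.card_fin,
      nsmul_eq_mul, Nat.cast_sub (by omega)] at h2
    have := (abs_le.1 (hy.real i (fl i))).2
    simp only [Y, Nat.abs_cast] at h2 ⊢
    push_cast at h2
    linarith
  have hinj : ∀ d : Fin n → ℝ, (∀ i, ∑ k, Y i k * d k = 0) → d = 0 := by
    intro d h
    funext k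
    have := dom_bound Y hμ hY (η := 0) (d := d) (fun i => by rw [h i]; simp) k
    have h2 : |d k| ≤ 0 := by
      by_contra hc
      nlinarith [not_le.1 hc]
    simpa using h2
  have hsur : Function.Surjective (Matrix.mulVecLin Y) :=
    LinearMap.injective_iff_surjective.1 ((injective_iff_map_eq_zero _).2 fun d h =>
      hinj d fun i => congrFun h i)
  let err : Fin n → Fin n → ℝ := fun j i => (∑ o, (y i o : ℝ)) / n - ∑ o, (y i o : ℝ) * z0 j o
  choose δ hδ using fun j => hsur (err j)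
  have hδ' : ∀ j i, ∑ k, Y i k * δ j k = err j i := fun j i => congrFun (hδ j) i
  have herr : ∀ j i, |err j i| ≤ m * F := by
    intro j i
    have h1 := hy.sum i (w := fun o => z0 j o - 1 / n) fun o => by
      have := h0.1 j o
      have := (h0.simplex o).le_one j
      have : (0 : ℝ) < 1 / n := by positivity
      have : (1 : ℝ) / n ≤ 1 := by rw [div_le_one (by linarith)]; linarith
      rw [abs_le]; constructor <;> linarith
    simp only [mul_sub, sum_sub_distrib, ← sum_mul, h0.2.2 i j] at h1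
    refine le_trans (le_of_eq ?_) h1
    congr 1
    simp only [err]; ring
  have hsm : ∀ j k, |δ j k| ≤ 1 / n := by
    intro j k
    have := dom_bound Y hμ hY (η := m * F) (d := δ j) (fun i => by rw [hδ']; exact herr j i) k
    rw [le_div_iff₀ (by linarith)]
    refine le_of_mul_le_mul_left ?_ hμ
    nlinarith
  have hsum : ∀ k, ∑ j, δ j k = 0 := by
    have := hinj (fun k => ∑ j, δ j k) fun i => by
      simp only [mul_sum]
      rw [sum_comm]
      simp only [hδ', err, sum_sub_distrib]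
      rw [sum_comm]
      simp only [← mul_sum, h0.2.1, mul_one, sum_const, card_univ, Fintype.card_fin, nsmul_eq_mul]
      field_simp
      ring
    exact congrFun this
  have hc : ∀ j k, (∑ k', if fl k' = fl k then δ j k' else 0) = δ j k := by
    intro j k
    simp
  have hc' : ∀ j o, o ∉ univ.map fl → (∑ k', if fl k' = o then δ j k' else 0) = 0 := by
    intro j o ho
    exact sum_eq_zero fun k _ => if_neg fun h => ho (mem_map.2 ⟨k, mem_univ _, h⟩)
  refine ⟨fun j o => z0 j o + ∑ k, if fl k = o then δ j k else 0,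
    ⟨fun j o => ?_, fun o => ?_, fun i j => ?_⟩, sum_le_sum fun o _ => ?_⟩
  · by_cases ho : o ∈ univ.map fl
    · obtain ⟨k, -, rfl⟩ := mem_map.1 ho
      beta_reduce
      rw [hc, hfl]
      linarith [(abs_le.1 (hsm j k)).1]
    · beta_reduce
      rw [hc' j o ho, add_zero]; exact h0.1 j o
  · rw [sum_add_distrib, h0.2.1, sum_comm]
    simp only [sum_ite_irrel, hsum]
    simp
  · simp only [mul_add, sum_add_distrib, mul_sum]
    rw [sum_comm]
    simp only [mul_ite, mul_zero, sum_ite_eq, mem_univ, if_true]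
    have := hδ' j i
    simp only [Y, err] at this
    linarith
  · by_cases ho : o ∈ univ.map fl
    · obtain ⟨k, -, rfl⟩ := mem_map.1 ho
      refine (cost_true_le _).trans (le_of_eq ?_)
      unfold cost
      rw [if_pos rfl, if_pos]
      refine ⟨k, ?_, ?_⟩
      · simp only [hfl]; positivity
      · simp only [hfl]; rw [div_lt_one (by linarith)]; linarith
    · simp only [hc' _ o ho, add_zero, le_refl]

end Pool.Agent.Lib.MP_5a17c4_lc
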