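import Pool.Agent.Lib.MP_5a17c4_lc.Reduce

/-!
Conditions (a) and (c) in the robust range give `P = NP`.
-/

set_option autoImplicit false

namespace Pool.Agent.Lib.MP_5a17c4_lc

open Finset Turing Pool.Agent.Shared.PolyTime

variable {n : ℕ}

theorem P_subset_NP : N68a2faeb.P ⊆ N68a2faeb.NP := by
  intro L hL
  have h : PT L := PT.ofIsPolyTime hL
  refine ⟨0, fun p => L p.1, PT.isPolyTime (h.comp' (PT.fst PT.id')), fun x => ⟨fun hx => ⟨[], by simp, hx⟩, ?_⟩⟩
  rintro ⟨_, -, h⟩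
  exact h

theorem mem_ball {c : ℝ} {m r : ℕ} {x y : Inst n m} :
    y ∈ ball c x r ↔ y ∈ box c n m ∧ Near x y r := mem_filter

theorem Near.mono {m r r' : ℕ} {x y : Inst n m} (h : Near x y r) (hr : r ≤ r') : Near x y r' :=
  fun i o => (h i o).trans (by exact_mod_cast hr)

theorem pt_enc {α : Type} [N487b59b3 α] {m : α → ℕ} (hm : PT m) (hm' : PB m)
    {E : α → ℕ → ℕ → ℕ} (hE : PT (fun a : α × ℕ × ℕ => E a.1 a.2.1 a.2.2)) :
    PT (fun a => enc (fun (i : Fin n) (o : Fin (m a)) => E a i o)) := by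
  simp only [enc_val]
  refine PT.bitEncode (PT.flatMap (PT.range hm hm') (PT.map (by fun_prop) ?_))
  exact hE.comp' (f := fun p : (α × ℕ) × ℕ => (p.1.1, p.2, p.1.2)) (by fun_prop)

theorem run_eq {c : ℝ} {Q : ∀ m, Inst n m → Prop} {A : TM2ComputableAux Bool Bool}
    (hA : Decides c Q A) {run : List Bool × List Bool → Option (List Bool)}
    (hrun : ∀ a u b T, Outputs A a b T →
      (T ≤ u.length → run (a, u) = some b) ∧ ∀ b', run (a, u) = some b' → b' = b)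
    {m : ℕ} {y : Inst n m} (hy : y ∈ box c n m) (u : List Bool) :
    ∃ b : Bool, (b = true ↔ Q m y) ∧ (∀ b', run (enc y, u) = some b' → b' = [b]) ∧
      ∀ b' T, Outputs A (enc y) b' T → T ≤ u.length → run (enc y, u) = some [b] := by
  obtain ⟨b, T, h1, h2⟩ := hA m y hy
  refine ⟨b, h2, (hrun _ u _ _ h1).2, fun b' T' h3 h4 => ?_⟩
  have h5 := (hrun _ u _ _ h3).1 h4
  rw [h5, (hrun _ u _ _ h1).2 _ h5]

theorem det_main {s : ℕ} (hs1 : n ≤ s) (hs2 : s + 2 ≤ n * (n - 1)) {c : ℝ} (hc : 0 < c)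
    {A : TM2ComputableAux Bool Bool} {f : ℕ → ℕ} {G : ∀ m, Inst n m → Finset (Inst n m)}
    (hA : Decides c (ConsObj n s) A) (hG : InBall c f G) (ha : CondA c A G) (hc' : CondC c G) :
    N68a2faeb.P = N68a2faeb.NP := by
  refine Set.Subset.antisymm P_subset_NP fun L hL => ?_
  obtain ⟨⟨fq, hf⟩, hG⟩ := hG
  obtain ⟨pA, ha⟩ := ha
  obtain ⟨B, pB, hB⟩ := hc'
  obtain ⟨mp, E, hE, h⟩ := robust_reduction hL hs1 hs2 hc fq
  obtain ⟨runA, hA1, hA2⟩ := exists_clocked A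
  obtain ⟨runB, hB1, hB2⟩ := exists_clocked B
  have h1 := pt_enc (n := n) (m := fun x : List Bool => mp.eval x.length) (by fun_prop)
    (by fun_prop) hE
  have h2 : PT (fun x : List Bool => runA ((runB
      (enc (fun (i : Fin n) (o : Fin (mp.eval x.length)) => E x i o),
        List.replicate (pB.eval (mp.eval x.length * n)) true)).getD [],
      List.replicate (pA.eval (mp.eval x.length * n)) true) == some [true]) := by
    refine PT.beq (hA1.comp' (PT.pair (PT.getD (hB1.comp' (h1.pair ?_)) ?_) ?_)) ?_ <;> fun_prop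
  refine PT.isPolyTime (h2.of_eq fun x => ?_)
  obtain ⟨h3, h4⟩ := h x _ rfl
  obtain ⟨y, hy, h5⟩ := hB _ _ h3
  obtain ⟨h6, h7⟩ := mem_ball.1 (hG _ _ h3 hy)
  obtain ⟨b', h8⟩ := ha _ _ h3 y hy
  obtain ⟨b, h9, -, h10⟩ := run_eq hA hA2 h6 (List.replicate (pA.eval (mp.eval x.length * n)) true)
  rw [(hB2 _ _ _ _ h5).1 (by simp), Option.getD_some, h10 _ _ h8 (by simp)]
  rw [h4 y (h7.mono (hf _))] at h9
  cases b <;> cases hx : L x <;> simp_all

end Pool.Agent.Lib.MP_5a17c4_lc
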