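import Pool.Agent.Lib.MP_5a17c4_lc.Sample
import Pool.Agent.Lib.MP_5a17c4_lc.Det

/-!
Faithfulness can be checked in polynomial time, by dynamic programming.
-/

set_option autoImplicit false

namespace Pool.Agent.Lib.MP_5a17c4_lc

open Finset Pool.Agent.Shared.PolyTime Pool.Agent.Shared.PartitionNP

variable {n m : ℕ}

theorem expand (Q t N : ℕ) : ∑ j ∈ range N, (t / Q ^ j % Q) * Q ^ j = t % Q ^ N := by
  induction N with
  | zero => simp [Nat.mod_one]
  | succ N ih => rw [sum_range_succ, ih, Nat.mod_pow_succ]; ring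

theorem digits_lt (Q N : ℕ) (d : ℕ → ℕ) (h : ∀ j < N, d j < Q) :
    ∑ j ∈ range N, d j * Q ^ j < Q ^ N := by
  induction N with
  | zero => simp
  | succ N ih =>
    have h1 := ih fun j hj => h j (by omega)
    have h2 : (d N + 1) * Q ^ N ≤ Q * Q ^ N := Nat.mul_le_mul_right _ (h N (by omega))
    rw [sum_range_succ, pow_succ']
    nlinarith

theorem sum_sq (F : ℕ → ℕ) :
    ∑ i : Fin n, ∑ k : Fin n, F (i * n + k) = ∑ j ∈ range (n * n), F j := by
  rw [sum_range, ← Equiv.sum_comp finProdFinEquiv, Fintype.sum_prod_type]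
  refine sum_congr rfl fun i _ => sum_congr rfl fun k _ => ?_
  simp [add_comm, mul_comm]

/-- A matrix as a number in base `Q`. -/
def code (Q : ℕ) (T : Fin n → Fin n → ℕ) : ℕ := ∑ i, ∑ k, T i k * Q ^ (i * n + k : ℕ)

theorem code_expand {Q t : ℕ} (h : t < Q ^ (n * n)) :
    code Q (fun i k : Fin n => t / Q ^ (i * n + k : ℕ) % Q) = t := by
  unfold code
  rw [sum_sq fun j => (t / Q ^ j % Q) * Q ^ j, expand, Nat.mod_eq_of_lt h]

theorem code_spec {Q : ℕ} {T : Fin n → Fin n → ℕ} (h : ∀ i k, T i k < Q) :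
    code Q T < Q ^ (n * n) ∧ ∀ i k : Fin n, code Q T / Q ^ (i * n + k : ℕ) % Q = T i k := by
  let d : ℕ → ℕ := fun j => if h : j / n < n ∧ j % n < n then T ⟨_, h.1⟩ ⟨_, h.2⟩ else 0
  have h1 : ∀ i k : Fin n, d (i * n + k) = T i k := by
    intro i k
    have a5 : ((i : ℕ) * n + k) / n = i := by
      rw [add_comm, Nat.add_mul_div_right _ _ i.pos, Nat.div_eq_of_lt k.2, zero_add]
    have a6 : ((i : ℕ) * n + k) % n = k := by
      rw [Nat.mul_add_mod_self_right, Nat.mod_eq_of_lt k.2]
    simp only [d]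
    rw [dif_pos (by rw [a5, a6]; exact ⟨i.2, k.2⟩)]
    simp only [a5, a6]
  have h2 : code Q T = ∑ j ∈ range (n * n), d j * Q ^ j := by
    rw [← sum_sq fun j => d j * Q ^ j]
    simp only [h1, code]
  have h3 : ∀ j < n * n, d j < Q := by
    intro j hj
    have hn : 0 < n := Nat.pos_of_ne_zero fun e => by simp [e] at hj
    simp only [d]
    rw [dif_pos ⟨(Nat.div_lt_iff_lt_mul hn).2 hj, Nat.mod_lt _ hn⟩]
    exact h _ _
  have h4 := digits_lt Q _ d h3
  refine ⟨h2 ▸ h4, fun i k => ?_⟩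
  have hQ : 0 < Q := lt_of_le_of_lt (Nat.zero_le _) (h i k)
  rw [← h1]
  refine digits_inj Q (n * n) (fun j => code Q T / Q ^ j % Q) d (fun j _ => Nat.mod_lt _ hQ) h3
    (by rw [expand, h2, Nat.mod_eq_of_lt h4]) _ ?_
  have : ((i : ℕ) + 1) * n ≤ n * n := Nat.mul_le_mul_right _ i.2
  have := k.2
  nlinarith

/-- An entry of a matrix given as a list of rows. -/
def ent (Y : List (List ℕ)) (i o : ℕ) : ℕ := (Y.getD i []).getD o 0

/-- The instance of a matrix given as a list of rows. -/
def inst (n m : ℕ) (Y : List (List ℕ)) : Inst n m := fun i o => ent Y i o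

/-- The contribution of object `o` in bundle `k`. -/
def wt (n Q : ℕ) (Y : List (List ℕ)) (o k : ℕ) : ℕ :=
  ((List.range n).map fun i => ent Y i o * Q ^ (min (i * n + k) (n * n))).sum

/-- One step of the dynamic programme. -/
def step (n Q : ℕ) (Y : List (List ℕ)) (R : List ℕ) (o : ℕ) : List ℕ :=
  (List.range (Q ^ (n * n))).filter fun t => R.any fun t' => (List.range n).any fun k =>
    t == t' + wt n Q Y o k

/-- The codes of the bundle values reachable with the objects `d, ..., d + c - 1`. -/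
def reach (n Q : ℕ) (Y : List (List ℕ)) (d c : ℕ) : List ℕ :=
  (List.range c).foldl (fun R e => step n Q Y R (d + e)) [0]

theorem mem_reach (i0 : Fin n) (Q : ℕ) (Y : List (List ℕ)) (d c : ℕ) : ∀ t < Q ^ (n * n),
    (t ∈ reach n Q Y d c ↔ ∃ g : ℕ → Fin n, t = ∑ e ∈ range c, wt n Q Y (d + e) (g e)) := by
  induction c with
  | zero => intro t _; simp [reach]; exact fun _ => ⟨i0⟩
  | succ c ih =>
    intro t ht
    have e : reach n Q Y d (c + 1) = step n Q Y (reach n Q Y d c) (d + c) := by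
      simp [reach, List.range_succ]
    rw [e]
    simp only [step, List.mem_filter, List.mem_range, ht, true_and, List.any_eq_true, beq_iff_eq,
      sum_range_succ]
    constructor
    · rintro ⟨t', h1, k, hk, h2⟩
      obtain ⟨g, hg⟩ := (ih t' (by omega)).1 h1
      refine ⟨Function.update g c ⟨k, hk⟩, ?_⟩
      rw [h2, hg, Function.update_self]
      congr 1
      exact sum_congr rfl fun e he => by rw [Function.update_of_ne (mem_range.1 he).ne]
    · rintro ⟨g, hg⟩
      exact ⟨_, (ih _ (by omega)).2 ⟨g, rfl⟩, g c, (g c).2, hg⟩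

/-- The dummy objects. -/
def dum (m d : ℕ) : Finset (Fin m) := univ.filter fun o => d ≤ (o : ℕ)

theorem sum_dum (d : ℕ) (F : ℕ → ℕ) :
    ∑ o ∈ dum m d, F o = ∑ e ∈ range (m - d), F (d + e) := by
  symm
  refine sum_bij (fun e he => ⟨d + e, by have := mem_range.1 he; omega⟩) (fun e he => ?_)
    (fun _ _ _ _ h => ?_) (fun o ho => ?_) fun _ _ => rfl
  · simp [dum]
  · simpa using h
  · have h1 : d ≤ o := (mem_filter.1 ho).2
    have := o.2
    exact ⟨o - d, mem_range.2 (by omega), Fin.ext (by simp only; omega)⟩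

theorem code_bs (Q : ℕ) (Y : List (List ℕ)) (D : Finset (Fin m)) (g : Fin m → Fin n) :
    code Q (bs (inst n m Y) D g) = ∑ o ∈ D, wt n Q Y o (g o) := by
  simp only [code, bs, sum_mul, wt, list_sum_range, sum_range]
  rw [sum_comm (s := D)]
  refine sum_congr rfl fun i _ => ?_
  rw [sum_comm]
  refine sum_congr rfl fun o _ => ?_
  simp only [ite_mul, zero_mul, sum_ite_eq, mem_univ, if_true, inst]
  rw [min_eq_left]
  have : ((i : ℕ) + 1) * n ≤ n * n := Nat.mul_le_mul_right _ i.2
  have := (g o).2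
  nlinarith

theorem mem_reach' (i0 : Fin n) (Q : ℕ) (Y : List (List ℕ)) (d : ℕ) (t : ℕ) (ht : t < Q ^ (n * n)) :
    t ∈ reach n Q Y d (m - d) ↔ ∃ g, t = code Q (bs (inst n m Y) (dum m d) g) := by
  rw [mem_reach i0 Q Y d _ t ht]
  simp only [code_bs]
  constructor
  · rintro ⟨g, rfl⟩
    refine ⟨fun o => g (o - d), ?_⟩
    rw [sum_dum d fun o => wt n Q Y o (g (o - d))]
    simp
  · rintro ⟨g, rfl⟩
    let g' : ℕ → Fin n := fun o => if h : o < m then g ⟨o, h⟩ else i0
    refine ⟨fun e => g' (d + e), ?_⟩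
    rw [← sum_dum d fun o => wt n Q Y o (g' o)]
    simp [g']

/-- The total value of the dummy objects. -/
def tot (Y : List (List ℕ)) (m d i : ℕ) : ℕ := ((List.range (m - d)).map fun e => ent Y i (d + e)).sum

theorem tot_eq (Y : List (List ℕ)) (d : ℕ) (i : Fin n) :
    tot Y m d i = ∑ o ∈ dum m d, inst n m Y i o := by
  rw [tot, list_sum_range, ← sum_dum d fun o => ent Y i o]; rfl

/-- A digit. -/
def dg (n Q t i k : ℕ) : ℕ := t / Q ^ (min (i * n + k) (n * n)) % Q

theorem dg_eq (Q t : ℕ) (i k : Fin n) : dg n Q t i k = t / Q ^ (i * n + k : ℕ) % Q := by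
  rw [dg, min_eq_left]
  have : ((i : ℕ) + 1) * n ≤ n * n := Nat.mul_le_mul_right _ i.2
  have := k.2
  nlinarith

/-- The test for richness, from precomputed data. -/
def chk0 (n Q R : ℕ) (W A B : List ℕ) : Bool :=
  ((List.range n).all fun i => decide (n * R ≤ W.getD i 0)) && A.all fun t =>
    !((List.range n).all fun i => ((List.range n).map fun k => dg n Q t i k).sum == W.getD i 0 &&
      (List.range n).all fun k => decide (W.getD i 0 ≤ n * (dg n Q t i k + R))) || B.contains t

/-- The test for richness. -/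
def chkRich (n Q : ℕ) (Y : List (List ℕ)) (m d R : ℕ) : Bool :=
  chk0 n Q R ((List.range n).map (tot Y m d)) (List.range (Q ^ (n * n))) (reach n Q Y d (m - d))

theorem getD_range {β : Type} (F : ℕ → β) (b : β) (i : Fin n) :
    ((List.range n).map F).getD i b = F i := by
  rw [List.getD_eq_getElem _ _ (by simp)]; simp

theorem all_range (p : ℕ → Bool) : (List.range n).all p = true ↔ ∀ i : Fin n, p i = true := by
  simp only [List.all_eq_true, List.mem_range]
  exact ⟨fun h i => h i i.2, fun h i hi => h ⟨i, hi⟩⟩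

theorem chkRich_iff (i0 : Fin n) {Q : ℕ} {Y : List (List ℕ)} {d R : ℕ}
    (hQ : ∀ i, ∑ o ∈ dum m d, inst n m Y i o < Q) :
    chkRich n Q Y m d R = true ↔ Rich (inst n m Y) (dum m d) R := by
  have hbs : ∀ g i k, bs (inst n m Y) (dum m d) g i k < Q := fun g i k =>
    lt_of_le_of_lt (bs_total _ _ g i ▸ single_le_sum (f := bs (inst n m Y) (dum m d) g i)
      (fun _ _ => Nat.zero_le _) (mem_univ k)) (hQ i)
  unfold chkRich chk0 Rich
  rw [Bool.and_eq_true, all_range, List.all_eq_true]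
  simp only [decide_eq_true_eq, getD_range, tot_eq, List.mem_range, Bool.or_eq_true, Bool.not_eq_true',
    ← Bool.not_eq_true, all_range, Bool.and_eq_true, beq_iff_eq, list_sum_range, sum_range, dg_eq,
    List.contains_iff_mem]
  refine and_congr_right fun hR => ⟨fun h T h1 h2 => ?_, fun h t ht => ?_⟩
  · have hn : (0 : ℤ) < n := by exact_mod_cast i0.pos
    have h0 : ∀ i k, 0 ≤ T i k := fun i k => by
      have a1 := h2 i k
      have a2 : (n : ℤ) * R ≤ ∑ o ∈ dum m d, (inst n m Y i o : ℤ) := by exact_mod_cast hR i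
      refine le_of_mul_le_mul_left ?_ hn
      linarith
    lift T to Fin n → Fin n → ℕ using h0
    beta_reduce at h1 h2
    have h3 : ∀ i, ∑ k, T i k = ∑ o ∈ dum m d, inst n m Y i o := fun i => by exact_mod_cast h1 i
    obtain ⟨h4, h5⟩ := code_spec (Q := Q) (T := T) fun i k => lt_of_le_of_lt (h3 i ▸
      single_le_sum (f := T i) (fun _ _ => Nat.zero_le _) (mem_univ k)) (hQ i)
    rcases h _ h4 with h6 | h6
    · refine absurd (fun i => ?_) h6
      simp only [h5]
      exact ⟨h3 i, fun k => by exact_mod_cast h2 i k⟩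
    · obtain ⟨g, hg⟩ := (mem_reach' i0 Q Y d _ h4).1 h6
      refine ⟨g, fun i k => ?_⟩
      have := (code_spec (hbs g)).2 i k
      rw [← hg, h5] at this
      simp [this]
  · rw [or_iff_not_imp_left, not_not]
    intro h1
    obtain ⟨g, hg⟩ := h (fun i k => (t / Q ^ (i * n + k : ℕ) % Q : ℕ))
      (fun i => by exact_mod_cast (h1 i).1) (fun i k => by exact_mod_cast (h1 i).2 k)
    refine (mem_reach' i0 Q Y d _ ht).2 ⟨g, ?_⟩
    rw [← code_expand ht]
    congr 1
    funext i k
    exact_mod_cast (hg i k).symm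

section pt

variable {α : Type} [N487b59b3 α] {Y : α → List (List ℕ)} {Q i o k M d R t : α → ℕ}

@[fun_prop] theorem ent_pt (hY : PT Y) (hi : PT i) (ho : PT o) :
    PT (fun a => ent (Y a) (i a) (o a)) := by unfold ent; fun_prop

@[fun_prop] theorem wt_pt (hQ : PT Q) (hY : PT Y) (ho : PT o) (hk : PT k) :
    PT (fun a => wt n (Q a) (Y a) (o a) (k a)) := by unfold wt; fun_prop

theorem reach_pt (hQ : PT Q) (hQ' : PB Q) (hY : PT Y) (hd : PT d) (hM : PT M) (hM' : PB M) :
    PT (fun a => reach n (Q a) (Y a) (d a) (M a)) := by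
  have h1 : PT (fun a => List.range (Q a ^ (n * n))) := by fun_prop
  unfold reach
  refine PT.foldl_inv (f := fun a R e => step n (Q a) (Y a) R (d a + e)) ?_ (by fun_prop)
    (by fun_prop) (fun a R => sz R ≤ sz (List.range (Q a ^ (n * n))) + sz [0]) (fun a => by omega)
    (fun a R e _ _ => (sz_sublist List.filter_sublist).trans (Nat.le_add_right _ _))
    (B := fun a => sz (List.range (Q a ^ (n * n))) + sz [0]) (by fun_prop) fun _ _ h => h
  unfold step
  exact PT.filter (h1.comp' PT.id'.fst) (by fun_prop)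

theorem tot_pt (hY : PT Y) (hM : PT M) (hM' : PB M) (hd : PT d) (hi : PT i) :
    PT (fun a => tot (Y a) (M a) (d a) (i a)) := by unfold tot; fun_prop

@[fun_prop] theorem dg_pt (hQ : PT Q) (ht : PT t) (hi : PT i) (hk : PT k) :
    PT (fun a => dg n (Q a) (t a) (i a) (k a)) := by unfold dg; fun_prop

theorem chkRich_pt (hQ : PT Q) (hQ' : PB Q) (hY : PT Y) (hM : PT M) (hM' : PB M) (hd : PT d)
    (hR : PT R) : PT (fun a => chkRich n (Q a) (Y a) (M a) (d a) (R a)) := by
  have h1 := reach_pt (n := n) hQ hQ' hY hd (hM.sub hd) (hM'.sub d)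
  have h2 : PT (fun p : α × ℕ => tot (Y p.1) (M p.1) (d p.1) p.2) :=
    tot_pt (by fun_prop) (by fun_prop) (hM'.comp PT.id'.fst) (by fun_prop) (by fun_prop)
  have h3 : PT (fun a => (List.range n).map (tot (Y a) (M a) (d a))) :=
    PT.map (h := fun a => tot (Y a) (M a) (d a)) (PT.const _) h2
  have h4 : PT (fun a => List.range (Q a ^ (n * n))) := by fun_prop
  have h5 : PT (fun p : ℕ × ℕ × List ℕ × List ℕ × List ℕ =>
      chk0 n p.1 p.2.1 p.2.2.1 p.2.2.2.1 p.2.2.2.2) := by unfold chk0; fun_prop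
  exact h5.comp' (hQ.pair (hR.pair (h3.pair (h4.pair h1))))

end pt

end Pool.Agent.Lib.MP_5a17c4_lc
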