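import Pool.Agent.Lib.MP_5a17c4_lc.CoreSh

/-!
The hard gadget for the number of shared objects.
-/

set_option autoImplicit false

namespace Pool.Agent.Lib.MP_5a17c4_lc

open Finset Pool.Agent.Shared.PartitionNP

variable {n : ℕ}

/-- large objects, and the almost equal numbers to be partitioned -/
def gD (n q k T : ℕ) (b : ℕ → ℕ) (p : ℕ) : ℕ :=
  if p < (n - 2) * k + q then (n - 2) * T
  else if p < (n - 2) * k + q + 2 * (k + 1) then
    2 * max ((n - 2) * k + q) 1 * b (p - ((n - 2) * k + q)) else 0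

theorem sum_split_gD {M : Type} [AddCommMonoid M] {Λ r N : ℕ}
    (hΛ : r + N ≤ Λ) (F : ℕ → M) (hF : ∀ p, r + N ≤ p → F p = 0) :
    ∑ p ∈ range Λ, F p = ∑ p ∈ range r, F p + ∑ e ∈ range N, F (r + e) := by
  rw [sum_cut hΛ _ hF, sum_range_add]

theorem gD_small {q k T : ℕ} {b : ℕ → ℕ} {e : ℕ} (he : e < 2 * (k + 1)) :
    gD n q k T b ((n - 2) * k + q + e) = 2 * max ((n - 2) * k + q) 1 * b e := by
  unfold gD
  rw [if_neg (by omega), if_pos (by omega), Nat.add_sub_cancel_left]

theorem sum_gD {Λ q k : ℕ} (b : ℕ → ℕ) (hq : q + 3 ≤ n ∨ (n = 2 ∧ q = 0)) (hk : 1 ≤ k)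
    (hΛ : (n - 2) * k + q + 2 * (k + 1) ≤ Λ) :
    ∑ p ∈ range Λ, gD n q k (∑ e ∈ range (2 * (k + 1)), b e) b p =
      n * (max ((n - 2) * k + q) 1 * ∑ e ∈ range (2 * (k + 1)), b e) := by
  set T := ∑ e ∈ range (2 * (k + 1)), b e with hT
  rw [sum_split_gD hΛ _ (fun p h => by unfold gD; rw [if_neg (by omega), if_neg (by omega)])]
  rw [sum_congr (f := gD n q k T b) rfl (g := fun _ => (n - 2) * T)
    (fun p hp => if_pos (mem_range.1 hp)),
    sum_congr (s₁ := range (2 * (k + 1))) rfl (fun e he => gD_small (mem_range.1 he)),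
    ← mul_sum (range (2 * (k + 1))), ← hT, sum_const, card_range, smul_eq_mul]
  rcases hq with hq | ⟨rfl, rfl⟩
  · obtain ⟨a, rfl⟩ : ∃ a, n = a + 3 := ⟨n - 3, by omega⟩
    have e : a + 3 - 2 = a + 1 := by omega
    rw [e, max_eq_left (by nlinarith)]
    ring
  · simp

theorem core_gD {Λ q k M v : ℕ} (b : ℕ → ℕ) (hq : q + 3 ≤ n ∨ (n = 2 ∧ q = 0)) (hk : 1 ≤ k)
    (hΛ : (n - 2) * k + q + 2 * (k + 1) ≤ Λ) (hM : n * (k + 1) * v < M)
    (hb : ∀ p < 2 * (k + 1), M ≤ b p ∧ b p ≤ M + v) :
    Core true n Λ (gD n q k (∑ e ∈ range (2 * (k + 1)), b e) b) q (Part (2 * (k + 1)) b) := by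
  classical
  intro w hw hc
  have htot := sum_gD (Λ := Λ) b hq hk hΛ
  set T := ∑ e ∈ range (2 * (k + 1)), b e with hTd
  set g := gD n q k T b with hg
  set r := (n - 2) * k + q with hr
  set r' := max r 1 with hr'
  have hn2 : 2 ≤ n := by omega
  have hn : (0 : ℝ) < n := by exact_mod_cast (by omega : 0 < n)
  have hsh : (∑ p ∈ range Λ, (g p : ℝ)) / n = (r' * T : ℕ) := by
    rw [← Nat.cast_sum, htot]; push_cast; field_simp
  have hT1 : 2 * (k + 1) * M ≤ T := by
    have := card_nsmul_le_sum (range (2 * (k + 1))) b M fun p hp => (hb p (mem_range.1 hp)).1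
    simpa using this
  have hT2 : T ≤ 2 * (k + 1) * (M + v) := by
    have := sum_le_card_nsmul (range (2 * (k + 1))) b (M + v) fun p hp =>
      (hb p (mem_range.1 hp)).2
    simpa using this
  have hr1 : 1 ≤ r' := le_max_right _ _
  have hsm : ∀ p ∈ Ico r (r + 2 * (k + 1)), 2 * r' * M ≤ g p ∧ g p ≤ 2 * r' * (M + v) := by
    intro p hp
    obtain ⟨h1, h2⟩ := mem_Ico.1 hp
    obtain ⟨e, rfl⟩ : ∃ e, p = r + e := ⟨p - r, by omega⟩
    rw [hg, gD_small (by omega)]
    obtain ⟨h3, h4⟩ := hb e (by omega)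
    exact ⟨Nat.mul_le_mul_left _ h3, Nat.mul_le_mul_left _ h4⟩
  have hlg : ∀ p < r, 2 * r' * (M + v) < g p := by
    intro p hp
    have e : g p = (n - 2) * T := if_pos hp
    have e' : r' = r := max_eq_left (by omega)
    rw [e, e']
    rcases hq with hq | ⟨rfl, rfl⟩
    · obtain ⟨a, ha⟩ : ∃ a, n = a + 2 := ⟨n - 2, by omega⟩
      have e2 : n - 2 = a := by omega
      rw [e2] at hr ⊢
      have h1 : r + 1 ≤ a * (k + 1) := by rw [hr]; nlinarith
      have h2 : r * v ≤ n * (k + 1) * v := Nat.mul_le_mul_right _ (by rw [ha]; nlinarith)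
      have h3 : a * (2 * (k + 1) * M) ≤ a * T := Nat.mul_le_mul_left _ hT1
      have h4 : (r + 1) * M ≤ a * (k + 1) * M := Nat.mul_le_mul_right _ h1
      nlinarith
    · simp at hr; omega
  have hlow : ∀ p < r + 2 * (k + 1), 2 * r' * M ≤ g p := by
    intro p hp
    rcases lt_or_ge p r with h | h
    · have := hlg p h
      nlinarith
    · exact (hsm p (mem_Ico.2 ⟨h, hp⟩)).1
  set W := (range (r + 2 * (k + 1))).filter fun p => cost true (w p) = 0 with hW
  have hWc : n * k + 2 ≤ W.card := by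
    have h1 : ((range (r + 2 * (k + 1))).filter fun p => ¬ cost true (w p) = 0).card ≤ q := by
      refine le_trans ?_ ((sum_le_sum_of_subset (f := fun p => cost true (w p))
        ((filter_subset (fun p => ¬ cost true (w p) = 0) _).trans
          (range_subset_range.2 hΛ))).trans hc)
      rw [card_eq_sum_ones]
      exact sum_le_sum fun p hp => Nat.one_le_iff_ne_zero.2 (mem_filter.1 hp).2
    have h2 := card_filter_add_card_filter_not (s := range (r + 2 * (k + 1)))
      (fun p => cost true (w p) = 0)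
    rw [card_range, ← hW] at h2
    obtain ⟨a, ha⟩ : ∃ a, n = a + 2 := ⟨n - 2, by omega⟩
    have e2 : n - 2 = a := by omega
    rw [e2] at hr
    have : n * k = a * k + 2 * k := by rw [ha]; ring
    omega
  have hβ : ∀ p, ∃ j : Fin n, p ∈ W → w p = Pi.single j 1 := by
    intro p
    by_cases hp : p ∈ W
    · have h1 := mem_filter.1 hp
      obtain ⟨j, hj⟩ := whole (hw.1 p (by have := mem_range.1 h1.1; omega)) h1.2
      exact ⟨j, fun _ => hj⟩
    · exact ⟨⟨0, by omega⟩, fun h => absurd h hp⟩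
  choose β hβ using hβ
  have hWs : W ⊆ range (r + 2 * (k + 1)) := filter_subset _ _
  have hj : ∀ j, ∑ p ∈ W.filter (fun p => β p = j), g p ≤ r' * T := by
    intro j
    have h1 := hw.term j (hWs.trans (range_subset_range.2 hΛ))
    have h2 := sum_whole g hβ {j}
    rw [sum_singleton] at h2
    simp only [mem_singleton] at h2
    rw [h2, hsh] at h1
    refine nat_le_of_lt (h1.trans_lt ?_)
    have : (1 : ℝ) / (2 * n) < 1 := by
      rw [div_lt_one (by positivity)]
      have : (2 : ℝ) ≤ n := by exact_mod_cast hn2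
      linarith
    linarith
  have hcard : ∀ j, (W.filter (fun p => β p = j)).card ≤ k + 1 := by
    intro j
    have h1 := card_nsmul_le_sum (W.filter (fun p => β p = j)) g _ fun p hp =>
      hlow p (mem_range.1 (hWs (mem_filter.1 hp).1))
    have h2 := hj j
    rw [smul_eq_mul] at h1
    by_contra hcon
    have h3 : (k + 2) * (2 * r' * M) ≤ (W.filter (fun p => β p = j)).card * (2 * r' * M) :=
      Nat.mul_le_mul_right _ (by omega)
    have h4 : r' * T ≤ r' * (2 * (k + 1) * (M + v)) := Nat.mul_le_mul_left _ hT2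
    have h5 : (k + 1) * v ≤ n * (k + 1) * v := Nat.mul_le_mul_right _ (by nlinarith)
    have h6 : r' * ((k + 1) * v) < r' * M := Nat.mul_lt_mul_of_pos_left (by omega) (by omega)
    nlinarith
  have hB : 1 < (univ.filter fun j => (W.filter (fun p => β p = j)).card = k + 1).card := by
    have h1 := card_eq_sum_card_fiberwise (f := β) (s := W) (t := univ) (fun _ _ => mem_univ _)
    have h2 : ∑ j, (W.filter (fun p => β p = j)).card ≤
        ∑ j : Fin n, (k + if (W.filter (fun p => β p = j)).card = k + 1 then 1 else 0) :=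
      sum_le_sum fun j _ => by have := hcard j; split_ifs <;> omega
    rw [sum_add_distrib, ← card_filter, sum_const, card_univ, Fintype.card_fin, smul_eq_mul] at h2
    omega
  obtain ⟨j, hj1, j', hj2, hjj⟩ := one_lt_card.1 hB
  set U := W.filter (fun p => β p = j) with hU
  set U' := W.filter (fun p => β p = j') with hU'
  have c1 : U.card = k + 1 := (mem_filter.1 hj1).2
  have c2 : U'.card = k + 1 := (mem_filter.1 hj2).2
  have s1 : ∑ p ∈ U, g p ≤ r' * T := hj j
  have s2 : ∑ p ∈ U', g p ≤ r' * T := hj j'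
  have hd : Disjoint U U' := disjoint_left.2 fun p h1 h2 =>
    hjj ((mem_filter.1 h1).2.symm.trans (mem_filter.1 h2).2)
  set Sm := Ico r (r + 2 * (k + 1)) with hSm
  have s3 : ∑ p ∈ Sm, g p = 2 * r' * T := by
    rw [hSm, sum_Ico_eq_sum_range, Nat.add_sub_cancel_left, hTd, mul_sum]
    exact sum_congr rfl fun e he => gD_small (mem_range.1 he)
  have c3 : (U ∪ U').card = Sm.card := by
    rw [card_union_of_disjoint hd, c1, c2, hSm, Nat.card_Ico]; omega
  have c4 : ((U ∪ U') \ Sm).card = (Sm \ (U ∪ U')).card := card_sdiff_comm c3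
  have s4 : ((U ∪ U') \ Sm).card * (2 * r' * (M + v) + 1) ≤ ∑ p ∈ (U ∪ U') \ Sm, g p := by
    refine card_nsmul_le_sum _ g _ fun p hp => hlg p ?_
    obtain ⟨h1, h2⟩ := mem_sdiff.1 hp
    have h3 : p ∈ W := by
      rcases mem_union.1 h1 with h | h <;> exact (mem_filter.1 h).1
    have h4 := mem_range.1 (hWs h3)
    rw [hSm, mem_Ico] at h2
    omega
  have s5 : ∑ p ∈ Sm \ (U ∪ U'), g p ≤ (Sm \ (U ∪ U')).card * (2 * r' * (M + v)) :=
    sum_le_card_nsmul _ g _ fun p hp => (hsm p (mem_sdiff.1 hp).1).2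
  have s6 := sum_inter_add_sum_sdiff (U ∪ U') Sm g
  have s7 := sum_inter_add_sum_sdiff Sm (U ∪ U') g
  rw [inter_comm] at s7
  have s8 := sum_union (f := g) hd
  have c5 : ((U ∪ U') \ Sm).card = 0 := by
    rw [← c4] at s5
    nlinarith
  have hUS : U ∪ U' = Sm := eq_of_subset_of_card_le (sdiff_eq_empty_iff_subset.1 (card_eq_zero.1 c5))
    c3.ge
  have s9 : ∑ p ∈ U, g p = r' * T := by
    rw [hUS, s3] at s8
    nlinarith
  refine ⟨(range (2 * (k + 1))).filter fun e => r + e ∈ U, filter_subset _ _, ?_⟩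
  refine Nat.eq_of_mul_eq_mul_left hr1 ?_
  rw [← hTd, ← s9, ← mul_assoc, mul_comm r' 2, mul_sum]
  refine sum_bij (fun e _ => r + e) (fun e he => (mem_filter.1 he).2) (fun _ _ _ _ h => by omega)
    (fun p hp => ?_) (fun e he => (gD_small (mem_range.1 (mem_filter.1 he).1)).symm)
  have h1 : p ∈ Sm := hUS ▸ mem_union_left _ hp
  rw [hSm, mem_Ico] at h1
  refine ⟨p - r, ?_, by omega⟩
  rw [mem_filter, mem_range, show r + (p - r) = p by omega]
  exact ⟨by omega, hp⟩

theorem base_gD {Λ q k : ℕ} (b : ℕ → ℕ) (hq : q + 3 ≤ n ∨ (n = 2 ∧ q = 0)) (hk : 1 ≤ k)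
    (hΛ : (n - 2) * k + q + 2 * (k + 1) ≤ Λ) (h : Part (2 * (k + 1)) b) :
    ∃ w : ℕ → Fin n → ℝ,
      Base true Λ (gD n q k (∑ e ∈ range (2 * (k + 1)), b e) b) q w := by
  obtain ⟨S, hS, hST⟩ := h
  have htot := sum_gD (Λ := Λ) b hq hk hΛ
  set T := ∑ e ∈ range (2 * (k + 1)), b e with hTd
  obtain ⟨a, ha⟩ : ∃ a, n = a + 2 := ⟨n - 2, by omega⟩
  have e2 : n - 2 = a := by omega
  have hn' : (n : ℝ) ≠ 0 := by have : 0 < n := by omega
                               positivity
  let β : ℕ → ℕ := fun p => if p < a * k + q then 2 + (p - q) / k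
    else if p - (a * k + q) ∈ S then 0 else 1
  have hβ : ∀ p, q ≤ p → β p < n := fun p hp => by
    simp only [β]
    split_ifs with h
    · have : (p - q) / k < a := (Nat.div_lt_iff_lt_mul hk).2 (by omega)
      omega
    · omega
    · omega
  let w0 : Fin n → ℝ := fun j => (if (j : ℕ) < 2 then 0 else 1 : ℕ) / (a : ℕ)
  refine ⟨fun p => if p < q then w0 else giv n (β p),
    ⟨fun p => ?_, fun j => ?_, ?_, fun p j => ?_, fun p hp => ?_⟩⟩
  · split_ifs with h
    · have hd : ((a : ℕ) : ℝ) ≠ 0 := by have : 0 < a := by omega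
                                        positivity
      refine ⟨fun j => by simp only [w0]; positivity, ?_⟩
      rw [← sum_div, div_eq_one_iff_eq hd, ← Nat.cast_sum, Nat.cast_inj]
      rw [Fin.sum_univ_eq_sum_range (fun j => if j < 2 then 0 else 1), ha, sum_range_succ',
        sum_range_succ']
      simp
    · rw [giv_eq (hβ p (by omega))]; exact simplex_single _
  · rw [← Nat.cast_sum, htot, sum_split_gD hΛ _ (fun p h => by
      unfold gD; rw [if_neg (by omega), if_neg (by omega)]; simp)]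
    rw [sum_congr (s₁ := range (2 * (k + 1))) rfl (g := fun e => ((max (a * k + q) 1 : ℕ) : ℝ) *
      (if (j : ℕ) = 0 then 2 * (if e ∈ S then (b e : ℝ) else 0)
      else if (j : ℕ) = 1 then 2 * (b e - (if e ∈ S then (b e : ℝ) else 0)) else 0))
      (fun p hp => by
      rw [gD_small (mem_range.1 hp), e2]
      simp only [β]
      rw [if_neg (by omega), if_neg (by omega), Nat.add_sub_cancel_left]
      unfold giv
      push_cast
      split_ifs <;> first | omega | ring1)]
    have e1 : ∑ e ∈ range (2 * (k + 1)), 2 * (if e ∈ S then (b e : ℝ) else 0) = T := by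
      rw [← mul_sum, sum_ite_mem, inter_eq_right.2 hS]
      exact_mod_cast hST
    have e3 : ∑ e ∈ range (2 * (k + 1)), 2 * (b e - (if e ∈ S then (b e : ℝ) else 0)) = T := by
      simp only [mul_sub, sum_sub_distrib, e1]
      rw [← mul_sum, ← Nat.cast_sum, ← hTd]; ring
    rw [← mul_sum, sum_ite_irrel, sum_ite_irrel, e1, e3, e2, add_comm (a * k) q, sum_range_add]
    rw [sum_congr (s₁ := range q) rfl (g := fun _ => ((a * T : ℕ) : ℝ) * w0 j) (fun p hp => by
      have := mem_range.1 hp
      unfold gD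
      rw [e2, if_pos (by omega), if_pos this])]
    rw [sum_congr (s₁ := range (a * k)) rfl (g := fun p => if p ∈ Ico (((j : ℕ) - 2) * k)
      (((j : ℕ) - 2 + 1) * k) then (if (j : ℕ) < 2 then 0 else ((a * T : ℕ) : ℝ)) else 0)
      (fun p hp => by
      have := mem_range.1 hp
      unfold gD
      simp only [β]
      rw [e2, if_pos (by omega), if_neg (by omega), if_pos (by omega), Nat.add_sub_cancel_left]
      unfold giv
      have e : p ∈ Ico (((j : ℕ) - 2) * k) (((j : ℕ) - 2 + 1) * k) ↔ p / k = (j : ℕ) - 2 := by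
        rw [mem_Ico, ← Nat.le_div_iff_mul_le hk, ← Nat.div_lt_iff_lt_mul hk]; omega
      simp only [e]
      generalize p / k = d
      split_ifs <;> first | omega | simp)]
    have hj := j.2
    rw [sum_ite_mem, sum_const, sum_const, card_range, sum_const_zero]
    simp only [w0]
    by_cases h2 : (j : ℕ) < 2
    · simp only [if_pos h2]
      push_cast
      split_ifs <;> first | omega | (field_simp; ring)
    · have ha0 : 0 < a := by omega
      have hd : ((a : ℕ) : ℝ) ≠ 0 := by positivity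
      have hsub : Ico (((j : ℕ) - 2) * k) (((j : ℕ) - 2 + 1) * k) ⊆ range (a * k) := by
        intro p hp
        have : ((j : ℕ) - 2 + 1) * k ≤ a * k := Nat.mul_le_mul_right _ (by omega)
        have := (mem_Ico.1 hp).2
        simp only [mem_range]; omega
      rw [inter_eq_right.2 hsub, Nat.card_Ico, add_mul, one_mul, Nat.add_sub_cancel_left,
        if_neg h2, if_neg h2, if_neg (by omega), if_neg (by omega),
        max_eq_left (by nlinarith)]
      simp only [nsmul_eq_mul]
      push_cast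
      field_simp
      ring
  · rw [sum_cut (l := q) (by omega) _ (fun p hp => by
      rw [if_neg (by omega), giv_eq (hβ p hp), cost_single])]
    calc _ ≤ ∑ p ∈ range q, 1 := sum_le_sum fun p _ => cost_true_le _
      _ = q := by simp
  · split_ifs
    · exact den_div _ _ (by omega) (by omega)
    · rw [giv_eq (hβ p (by omega))]; exact den_single _ _
  · rw [if_neg (by omega)]
    exact ⟨_, giv_eq (hβ p (by omega))⟩

end Pool.Agent.Lib.MP_5a17c4_lc
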