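import Pool.Agent.Lib.MP_5a17c4_lc.Force
import Pool.Agent.Shared.PartitionNP

/-!
The hard gadget for the number of sharings.
-/

set_option autoImplicit false

namespace Pool.Agent.Lib.MP_5a17c4_lc

open Finset Pool.Agent.Shared.PartitionNP

variable {n : ℕ}

theorem sum_whole {P : Finset ℕ} {w : ℕ → Fin n → ℝ} {β : ℕ → Fin n} (g : ℕ → ℕ)
    (h : ∀ p ∈ P, w p = Pi.single (β p) 1) (J : Finset (Fin n)) :
    ∑ j ∈ J, ∑ p ∈ P, (g p : ℝ) * w p j = ((∑ p ∈ P.filter (fun p => β p ∈ J), g p : ℕ) : ℝ) := by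
  rw [sum_comm, Nat.cast_sum, sum_filter]
  refine sum_congr rfl fun p hp => ?_
  rw [← mul_sum, h p hp]
  simp only [Pi.single_apply, sum_ite_eq']
  split_ifs <;> simp

theorem nat_le_of_lt {a b : ℕ} (h : (a : ℝ) < b + 1) : a ≤ b := by
  have : a < b + 1 := by exact_mod_cast h
  omega

/-- a giant object, fillers, and the numbers to be partitioned -/
def gC (n q N T : ℕ) (b : ℕ → ℕ) (p : ℕ) : ℕ :=
  if p = 0 then (3 * q + 2) * T else if p = 1 then 2 * T else if p < n - q then 3 * T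
  else if n ≤ p ∧ p < n + N then 2 * b (p - n) else 0

theorem sum_split_gC {M : Type} [AddCommMonoid M] {Λ q N r : ℕ} (hq : n = q + 2 + r)
    (hΛ : n + N ≤ Λ) (F : ℕ → M)
    (hF : ∀ p, r + 2 ≤ p → ¬ (n ≤ p ∧ p < n + N) → F p = 0) :
    ∑ p ∈ range Λ, F p = F 0 + F 1 + ∑ p ∈ range r, F (p + 2) + ∑ e ∈ range N, F (n + e) := by
  rw [sum_cut hΛ _ (fun p hp => hF p (by omega) (by omega)), sum_range_add]
  congr 1
  rw [← sum_subset (range_subset_range.2 (by omega : r + 2 ≤ n)) (fun p hp hp' => hF p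
    (by simpa using hp') (by have := mem_range.1 hp; omega)), sum_range_succ', sum_range_succ']
  simp only [zero_add, add_assoc]
  abel

theorem sum_gC {Λ q N : ℕ} (b : ℕ → ℕ) (hq : q + 2 ≤ n) (hΛ : n + N ≤ Λ) :
    ∑ p ∈ range Λ, gC n q N (∑ e ∈ range N, b e) b p = n * (3 * ∑ e ∈ range N, b e) := by
  obtain ⟨r, hr⟩ : ∃ r, n = q + 2 + r := ⟨n - (q + 2), by omega⟩
  set T := ∑ e ∈ range N, b e with hT
  rw [sum_split_gC hr hΛ _ (fun p h1 h2 => by
    unfold gC; rw [if_neg (by omega), if_neg (by omega), if_neg (by omega), if_neg h2])]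
  rw [sum_congr rfl (g := fun _ => 3 * T) (fun p hp => by
    have := mem_range.1 hp
    unfold gC; rw [if_neg (by omega), if_neg (by omega), if_pos (by omega)])]
  rw [sum_congr (s₁ := range N) rfl (g := fun e => 2 * b e) (fun p hp => by
    have := mem_range.1 hp
    unfold gC
    rw [if_neg (by omega), if_neg (by omega), if_neg (by omega), if_pos (by omega),
      Nat.add_sub_cancel_left]), ← mul_sum (range N), ← hT]
  simp only [gC, if_true, one_ne_zero, if_false, sum_const, card_range, smul_eq_mul]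
  rw [hr]; ring

theorem core_gC {Λ q N : ℕ} (b : ℕ → ℕ) (hq : q + 2 ≤ n) (hΛ : n + N ≤ Λ)
    (hT : 1 ≤ ∑ e ∈ range N, b e) :
    Core false n Λ (gC n q N (∑ e ∈ range N, b e) b) q (Part N b) := by
  classical
  intro w hw hc
  have htot := sum_gC (Λ := Λ) b hq hΛ
  set T := ∑ e ∈ range N, b e with hTd
  set g := gC n q N T b with hg
  have hn : (0 : ℝ) < n := by exact_mod_cast (by omega : 0 < n)
  have hq' : (q : ℝ) + 2 ≤ n := by exact_mod_cast hq
  have h0 : (0 : ℝ) ≤ q := Nat.cast_nonneg _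
  have hT' : (1 : ℝ) ≤ T := by exact_mod_cast hT
  have hsh : (∑ p ∈ range Λ, (g p : ℝ)) / n = 3 * T := by
    rw [← Nat.cast_sum, htot]; push_cast; field_simp
  have hε : (n : ℝ) * (1 / (2 * n)) = 1 / 2 := by field_simp
  have hε0 : (0 : ℝ) < 1 / (2 * n) := by positivity
  set ε : ℝ := 1 / (2 * n) with hεd
  have g0 : g 0 = (3 * q + 2) * T := by simp [hg, gC]
  have h1 : ∀ j, w 0 j ≤ (3 * T + ε) / ((3 * q + 2) * T) := by
    intro j
    have h2 := hw.term j (S := {0}) (by simp; omega)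
    rw [sum_singleton, hsh, g0] at h2
    rw [le_div_iff₀ (by positivity)]
    push_cast at h2
    linarith
  have h3 := one_le_supp (hw.1 0 (by omega)) h1
  set J := univ.filter fun i => 0 < w 0 i with hJ
  have h4 : q < J.card := by
    by_contra hc
    have h5 : (J.card : ℝ) ≤ q := by exact_mod_cast not_lt.1 hc
    have h6 := mul_le_mul_of_nonneg_right h5
      (by positivity : 0 ≤ (3 * T + ε) / ((3 * q + 2) * T : ℝ))
    have h7 : (q : ℝ) * ((3 * T + ε) / ((3 * q + 2) * T)) < 1 := by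
      rw [← mul_div_assoc, div_lt_one (by positivity)]
      nlinarith
    linarith
  obtain ⟨Λ, rfl⟩ : ∃ l, Λ = 1 + l := ⟨Λ - 1, by omega⟩
  have hsp : ∀ {M : Type} [AddCommMonoid M] (F : ℕ → M),
      ∑ p ∈ range (1 + Λ), F p = F 0 + ∑ p ∈ Ico 1 (1 + Λ), F p := by
    intro M _ F
    rw [range_eq_Ico, sum_eq_sum_Ico_succ_bot (by omega)]
  rw [hsp, cost_false_eq, ← hJ] at hc
  have hJc : J.card = q + 1 := by omega
  have hz : ∀ p ∈ Ico 1 (1 + Λ), cost false (w p) = 0 :=
    sum_eq_zero_iff.1 (by omega)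
  have hβ : ∀ p, ∃ j : Fin n, p ∈ Ico 1 (1 + Λ) → w p = Pi.single j 1 := by
    intro p
    by_cases hp : p ∈ Ico 1 (1 + Λ)
    · obtain ⟨j, hj⟩ := whole (hw.1 p (mem_Ico.1 hp).2) (hz p hp)
      exact ⟨j, fun _ => hj⟩
    · exact ⟨⟨0, by omega⟩, fun h => absurd h hp⟩
  choose β hβ using hβ
  have hb : ∀ K : Finset (Fin n), (g 0 : ℝ) * ∑ j ∈ K, w 0 j +
      ((∑ p ∈ (Ico 1 (1 + Λ)).filter (fun p => β p ∈ K), g p : ℕ) : ℝ) ≤ K.card * (3 * T + ε) := by
    intro K
    rw [← sum_whole g hβ, mul_sum, ← sum_add_distrib, ← nsmul_eq_mul]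
    refine sum_le_card_nsmul _ _ _ fun j _ => ?_
    have := hw.2 j
    rwa [hsh, hsp] at this
  have hJ1 : ∑ j ∈ J, w 0 j = 1 := by
    rw [← (hw.1 0 (by omega)).2, hJ, sum_filter_of_ne
      (fun i _ hi => lt_of_le_of_ne ((hw.1 0 (by omega)).1 i) (Ne.symm hi))]
  have hI := hb J
  have hO := hb Jᶜ
  have hJ2 : 0 ≤ ∑ j ∈ Jᶜ, w 0 j := sum_nonneg fun j _ => (hw.1 0 (by omega)).1 j
  rw [hJ1, hJc, g0] at hI
  rw [card_compl, hJc, Fintype.card_fin, Nat.cast_sub (by omega)] at hO
  set I := (Ico 1 (1 + Λ)).filter (fun p => β p ∈ J) with hId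
  set O := (Ico 1 (1 + Λ)).filter (fun p => β p ∈ Jᶜ) with hOd
  have hIO : ∑ p ∈ I, g p + ∑ p ∈ O, g p = ∑ p ∈ Ico 1 (1 + Λ), g p := by
    rw [hId, hOd]
    simp only [mem_compl]
    exact sum_filter_add_sum_filter_not _ _ _
  have hI' : ∑ p ∈ I, g p ≤ T := nat_le_of_lt (by push_cast at hI ⊢; nlinarith)
  obtain ⟨r, hr⟩ : ∃ r, n = q + 2 + r := ⟨n - (q + 2), by omega⟩
  have hr' : (n : ℝ) = q + 2 + r := by exact_mod_cast hr
  have hO' : ∑ p ∈ O, g p ≤ (r + 1) * (3 * T) := nat_le_of_lt (by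
    have : 0 ≤ (g 0 : ℝ) * ∑ j ∈ Jᶜ, w 0 j := by positivity
    have hr0 : (0 : ℝ) ≤ r := Nat.cast_nonneg _
    push_cast at hO ⊢
    have e : (n : ℝ) - (q + 1) = r + 1 := by linarith
    rw [e] at hO
    nlinarith)
  rw [hsp, g0, ← hIO, hr] at htot
  have hI'' : ∑ p ∈ I, g p = T := by nlinarith
  refine ⟨(range N).filter fun e => n + e ∈ I, filter_subset _ _, ?_⟩
  rw [← hTd, ← hI'', mul_sum]
  have hle : ∀ p ∈ I, g p ≤ T := fun p hp =>
    hI'' ▸ single_le_sum (f := g) (fun _ _ => Nat.zero_le _) hp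
  rw [← sum_filter_of_ne (s := I) (p := fun p => n ≤ p ∧ p < n + N) (fun p hp h0 => by
    have h1 := hle p hp
    have h2 := (mem_Ico.1 (mem_filter.1 hp).1).1
    simp only [hg, gC] at h0 h1
    split_ifs at h0 h1 <;> omega)]
  refine sum_bij (fun e _ => n + e) (fun e he => ?_) (fun _ _ _ _ h => by omega)
    (fun p hp => ?_) (fun e he => ?_)
  · have h1 := mem_range.1 (mem_filter.1 he).1
    exact mem_filter.2 ⟨(mem_filter.1 he).2, by omega⟩
  · simp only [mem_filter (s := I)] at hp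
    refine ⟨p - n, ?_, by omega⟩
    rw [mem_filter, mem_range, show n + (p - n) = p by omega]
    exact ⟨by omega, hp.1⟩
  · have := mem_range.1 (mem_filter.1 he).1
    simp only [hg, gC]
    rw [if_neg (by omega), if_neg (by omega), if_neg (by omega), if_pos (by omega),
      Nat.add_sub_cancel_left]

theorem base_gC {Λ q N : ℕ} (b : ℕ → ℕ) (hq : q + 2 ≤ n) (hΛ : n + N ≤ Λ) (h : Part N b) :
    ∃ w : ℕ → Fin n → ℝ, Base false Λ (gC n q N (∑ e ∈ range N, b e) b) q w := by
  obtain ⟨S, hS, hST⟩ := h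
  have htot := sum_gC (Λ := Λ) b hq hΛ
  set T := ∑ e ∈ range N, b e with hTd
  have hn' : (n : ℝ) ≠ 0 := by have : 0 < n := by omega
                               positivity
  let β : ℕ → ℕ := fun p => if p < n - q then q + p else if p - n ∈ S then q else q + 1
  have hβ : ∀ p, β p < n := fun p => by simp only [β]; split_ifs <;> omega
  have hd : ((3 * q + 2 : ℕ) : ℝ) ≠ 0 := by positivity
  let w0 : Fin n → ℝ := fun j => (if (j : ℕ) < q then 3 else if (j : ℕ) = q then 2 else 0 : ℕ) /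
    (3 * q + 2 : ℕ)
  refine ⟨fun p => if p = 0 then w0 else giv n (β p),
    ⟨fun p => ?_, fun j => ?_, ?_, fun p j => ?_, fun p hp => ?_⟩⟩
  · split_ifs
    · refine ⟨fun j => by simp only [w0]; positivity, ?_⟩
      rw [← sum_div, div_eq_one_iff_eq hd, ← Nat.cast_sum, Nat.cast_inj]
      rw [Fin.sum_univ_eq_sum_range (fun j => if j < q then 3 else if j = q then 2 else 0),
        sum_cut (l := q + 1) (by omega) _ (fun p hp => by
          rw [if_neg (by omega), if_neg (by omega)]), sum_range_succ,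
        sum_congr rfl (g := fun _ => 3) (fun p hp => if_pos (mem_range.1 hp))]
      simp; ring
    · rw [giv_eq (hβ p)]; exact simplex_single _
  · rw [← Nat.cast_sum, htot]
    obtain ⟨r, hr⟩ : ∃ r, n = q + 2 + r := ⟨n - (q + 2), by omega⟩
    rw [sum_split_gC hr hΛ _ (fun p h1 h2 => by
      unfold gC; rw [if_neg (by omega), if_neg (by omega), if_neg (by omega), if_neg h2]; simp)]
    rw [sum_congr rfl (g := fun p => if p = (j : ℕ) - (q + 2) then
      (if (j : ℕ) < q + 2 then 0 else 3 * (T : ℝ)) else 0) (fun p hp => by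
      have := mem_range.1 hp
      simp only [gC, β]
      rw [if_neg (by omega), if_neg (by omega), if_pos (by omega), if_neg (by omega),
        if_pos (show p + 2 < n - q by omega)]
      unfold giv
      split_ifs <;> first | omega | simp)]
    rw [sum_congr (s₁ := range N) rfl (g := fun e => (if (j : ℕ) = q then 2 * (if e ∈ S then (b e : ℝ) else 0)
      else if (j : ℕ) = q + 1 then 2 * (b e - (if e ∈ S then (b e : ℝ) else 0)) else 0))
      (fun p hp => by
      have := mem_range.1 hp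
      simp only [gC, β]
      rw [if_neg (by omega), if_neg (by omega), if_neg (by omega), if_pos (by omega),
        if_neg (by omega), if_neg (show ¬ n + p < n - q by omega), Nat.add_sub_cancel_left]
      unfold giv
      split_ifs <;> first | omega | simp)]
    have e1 : ∑ e ∈ range N, 2 * (if e ∈ S then (b e : ℝ) else 0) = T := by
      rw [← mul_sum, sum_ite_mem, inter_eq_right.2 hS]
      exact_mod_cast hST
    have e2 : ∑ e ∈ range N, 2 * (b e - (if e ∈ S then (b e : ℝ) else 0)) = T := by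
      simp only [mul_sub, sum_sub_distrib, e1]
      rw [← mul_sum, ← Nat.cast_sum, ← hTd]; ring
    have hj := j.2
    rw [sum_ite_eq', sum_ite_irrel, sum_ite_irrel, e1, e2]
    simp only [gC, if_true, one_ne_zero, if_false, w0, giv, β, mem_range, sum_const_zero,
      if_pos (show 1 < n - q by omega)]
    have hd' : (3 * (q : ℝ) + 2) ≠ 0 := by positivity
    push_cast
    split_ifs <;> first | omega | (field_simp; ring)
  · obtain ⟨Λ, rfl⟩ : ∃ l, Λ = l + 1 := ⟨Λ - 1, by omega⟩
    rw [sum_range_succ', sum_eq_zero (fun p _ => by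
      rw [if_neg (by omega), giv_eq (hβ _), cost_single]), if_pos rfl, zero_add]
    have := cost_false_le (w := w0) (univ.filter fun j : Fin n => (j : ℕ) < q + 1) (fun j hj => by
      have : ¬ (j : ℕ) < q + 1 := by simpa using hj
      simp only [w0]
      rw [if_neg (by omega), if_neg (by omega)]; simp)
    rw [card_lt _ (by omega)] at this
    omega
  · split_ifs
    · exact den_div _ _ (by omega) (by omega)
    · rw [giv_eq (hβ p)]; exact den_single _ _
  · rw [if_neg (by omega)]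
    exact ⟨_, giv_eq (hβ p)⟩

end Pool.Agent.Lib.MP_5a17c4_lc
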