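import Pool.Agent.Lib.MP_5a17c4_lc.Defs

/-!
The contribution of one object to the two sharing measures.
-/

set_option autoImplicit false

namespace Pool.Agent.Lib.MP_5a17c4_lc

open Finset

variable {n : ℕ}

/-- A division of one object. -/
def Simplex (w : Fin n → ℝ) : Prop := (∀ j, 0 ≤ w j) ∧ ∑ j, w j = 1

open Classical in
/-- The cost of a division of one object; `true` is the shared object measure. -/
noncomputable def cost (μ : Bool) (w : Fin n → ℝ) : ℕ :=
  if μ then (if ∃ i, 0 < w i ∧ w i < 1 then 1 else 0)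
  else (univ.filter fun i => 0 < w i).card - 1

/-- Both problems at once. -/
def Cons (μ : Bool) (n s m : ℕ) (v : Inst n m) : Prop :=
  ∃ z, Consensus v z ∧ ∑ o, cost μ (fun j => z j o) ≤ s

theorem cons_true (s m : ℕ) (v : Inst n m) : Cons true n s m v ↔ ConsObj n s m v := by
  classical
  refine exists_congr fun z => and_congr_right fun _ => ?_
  unfold shared cost
  rw [card_filter]
  simp only [if_true]

theorem cons_false (s m : ℕ) (v : Inst n m) : Cons false n s m v ↔ ConsSh n s m v := by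
  refine exists_congr fun z => and_congr_right fun _ => ?_
  unfold sharings cost
  simp

theorem Simplex.le_one {w : Fin n → ℝ} (h : Simplex w) (j : Fin n) : w j ≤ 1 :=
  h.2 ▸ single_le_sum (f := w) (fun i _ => h.1 i) (mem_univ j)

theorem simplex_single (j : Fin n) : Simplex (Pi.single j (1 : ℝ)) :=
  ⟨fun i => by by_cases h : i = j <;> simp [h], by simp⟩

theorem simplex_const (hn : 0 < n) : Simplex (fun _ : Fin n => (1 : ℝ) / n) := by
  have : (0 : ℝ) < n := by exact_mod_cast hn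
  exact ⟨fun _ => by positivity, by simp; field_simp⟩

theorem cost_single (μ : Bool) (j : Fin n) : cost μ (Pi.single j (1 : ℝ)) = 0 := by
  classical
  unfold cost
  split_ifs with h h'
  · obtain ⟨i, h1, h2⟩ := h'
    by_cases e : i = j <;> simp [e] at h1 h2
  · rfl
  · have : (univ.filter fun i => (0 : ℝ) < (Pi.single j (1 : ℝ) : Fin n → ℝ) i) = {j} := by
      ext i; by_cases e : i = j <;> simp [e]
    rw [this]; simp

theorem eq_single_of_eq_one {w : Fin n → ℝ} (h : Simplex w) {j : Fin n} (hj : w j = 1) :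
    w = Pi.single j 1 := by
  funext i
  by_cases e : i = j
  · simp [e, hj]
  · have h1 := sum_le_sum_of_subset_of_nonneg (f := w) (subset_univ {i, j})
      (fun k _ _ => h.1 k)
    rw [sum_pair e, h.2, hj] at h1
    have := h.1 i
    simp only [ne_eq, e, not_false_eq_true, Pi.single_eq_of_ne]
    linarith

theorem whole {μ : Bool} {w : Fin n → ℝ} (h : Simplex w) (hc : cost μ w = 0) :
    ∃ j, w = Pi.single j 1 := by
  classical
  have h0 : ∃ j, 0 < w j := by
    by_contra hcon
    push Not at hcon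
    have : ∑ j, w j ≤ 0 := sum_nonpos fun j _ => hcon j
    linarith [h.2]
  obtain ⟨j, hj⟩ := h0
  refine ⟨j, eq_single_of_eq_one h ?_⟩
  unfold cost at hc
  cases μ
  swap
  · simp only [if_true, ite_eq_right_iff, one_ne_zero, imp_false] at hc
    push Not at hc
    exact le_antisymm (h.le_one j) (hc j hj)
  · simp only [Bool.false_eq_true, if_false] at hc
    have h3 : (univ.filter fun i => 0 < w i).card ≤ 1 := by omega
    rw [← h.2, ← sum_filter_of_ne (p := fun i => 0 < w i)
      (fun i _ hi => lt_of_le_of_ne (h.1 i) (Ne.symm hi))]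
    have : (univ.filter fun i => 0 < w i) = {j} :=
      eq_singleton_iff_unique_mem.2 ⟨by simpa using hj, fun i hi =>
        card_le_one.1 h3 i hi j (by simpa using hj)⟩
    rw [this, sum_singleton]

theorem cost_true_le (w : Fin n → ℝ) : cost true w ≤ 1 := by
  unfold cost; simp only [if_true]; split_ifs <;> omega

theorem cost_false_le {w : Fin n → ℝ} (T : Finset (Fin n)) (h : ∀ j, j ∉ T → w j = 0) :
    cost false w ≤ T.card - 1 := by
  classical
  unfold cost
  simp only [Bool.false_eq_true, if_false]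
  refine Nat.sub_le_sub_right (card_le_card fun j hj => ?_) _
  by_contra hc
  have := (mem_filter.1 hj).2
  rw [h j hc] at this
  exact lt_irrefl _ this

open Classical in
theorem cost_false_eq (w : Fin n → ℝ) :
    cost false w = (univ.filter fun i => 0 < w i).card - 1 := by
  unfold cost; simp

open Classical in
theorem one_le_supp {w : Fin n → ℝ} (h : Simplex w) {θ : ℝ} (hθ : ∀ j, w j ≤ θ) :
    1 ≤ ((univ.filter fun i => 0 < w i).card : ℝ) * θ := by
  rw [← h.2, ← sum_filter_of_ne (p := fun i => 0 < w i)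
    (fun i _ hi => lt_of_le_of_ne (h.1 i) (Ne.symm hi)), ← nsmul_eq_mul]
  exact sum_le_card_nsmul _ _ _ fun j _ => hθ j

/-- No bundle exceeds its share by more than `1 / (2 n)`. -/
def Approx (Λ : ℕ) (g : ℕ → ℕ) (w : ℕ → Fin n → ℝ) : Prop :=
  (∀ p < Λ, Simplex (w p)) ∧
    ∀ j, ∑ p ∈ range Λ, (g p : ℝ) * w p j ≤ (∑ p ∈ range Λ, (g p : ℝ)) / n + 1 / (2 * n)

/-- Approximate consensus costs at least `q`. -/
def Force (μ : Bool) (n Λ : ℕ) (g : ℕ → ℕ) (q : ℕ) : Prop :=
  ∀ w : ℕ → Fin n → ℝ, Approx Λ g w → q ≤ ∑ p ∈ range Λ, cost μ (w p)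

/-- Approximate consensus of cost at most `q` gives `Q`. -/
def Core (μ : Bool) (n Λ : ℕ) (g : ℕ → ℕ) (q : ℕ) (Q : Prop) : Prop :=
  ∀ w : ℕ → Fin n → ℝ, Approx Λ g w → ∑ p ∈ range Λ, cost μ (w p) ≤ q → Q

/-- An exact consensus of cost at most `q` with bounded denominators. -/
structure Base (μ : Bool) (Λ : ℕ) (g : ℕ → ℕ) (q : ℕ) (w : ℕ → Fin n → ℝ) : Prop where
  simp : ∀ p, Simplex (w p)
  fair : ∀ j, ∑ p ∈ range Λ, (g p : ℝ) * w p j = (∑ p ∈ range Λ, (g p : ℝ)) / n
  cst : ∑ p ∈ range Λ, cost μ (w p) ≤ q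
  den : ∀ p j, ∃ a : ℕ, ((3 * n).factorial : ℝ) * w p j = a
  wh : ∀ p, n ≤ p → ∃ j, w p = Pi.single j 1

theorem Approx.term {Λ : ℕ} {g : ℕ → ℕ} {w : ℕ → Fin n → ℝ} (h : Approx Λ g w) (j : Fin n)
    {S : Finset ℕ} (hS : S ⊆ range Λ) :
    ∑ p ∈ S, (g p : ℝ) * w p j ≤ (∑ p ∈ range Λ, (g p : ℝ)) / n + 1 / (2 * n) :=
  (sum_le_sum_of_subset_of_nonneg hS fun p hp _ =>
    mul_nonneg (Nat.cast_nonneg _) ((h.1 p (mem_range.1 hp)).1 j)).trans (h.2 j)

theorem den_single (j i : Fin n) :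
    ∃ a : ℕ, ((3 * n).factorial : ℝ) * (Pi.single j (1 : ℝ) : Fin n → ℝ) i = a := by
  by_cases e : i = j
  · exact ⟨(3 * n).factorial, by simp [e]⟩
  · exact ⟨0, by simp [e]⟩

theorem den_div (a d : ℕ) (hd : 0 < d) (hd' : d ≤ 3 * n) :
    ∃ b : ℕ, ((3 * n).factorial : ℝ) * ((a : ℝ) / d) = b := by
  obtain ⟨e, he⟩ := Nat.dvd_factorial hd hd'
  have : (d : ℝ) ≠ 0 := by positivity
  exact ⟨e * a, by rw [he]; push_cast; field_simp⟩

end Pool.Agent.Lib.MP_5a17c4_lc
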