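import Pool.Agent.Lib.MP_5a17c4_lc.Dummy

/-!
A constant fraction of the ball consists of faithful instances.
-/

set_option autoImplicit false

namespace Pool.Agent.Lib.MP_5a17c4_lc

open Finset

variable {n m : ℕ}

/-- The ball without the upper truncation. -/
def om (x : Inst n m) (F : ℕ) : Finset (Inst n m) :=
  Fintype.piFinset fun i => Fintype.piFinset fun o => Icc (x i o - F) (x i o + F)

theorem mem_om {x y : Inst n m} {F : ℕ} :
    y ∈ om x F ↔ ∀ i o, x i o ≤ y i o + F ∧ y i o ≤ x i o + F := by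
  simp [om, Fintype.mem_piFinset]

theorem mem_om' {x y : Inst n m} {F : ℕ} : y ∈ om x F ↔ Near x y F := by
  rw [mem_om]
  refine forall_congr' fun i => forall_congr' fun o => ?_
  rw [abs_le]; omega

theorem low_count {x : Inst n m} {F a : ℕ} (ha : 2 * a ≤ F + 1) (i : Fin n) {V : Finset (Fin m)}
    (hV : ∀ o ∈ V, x i o = 0) :
    ((om x F).filter fun y => ∀ p ∈ V, y i p < a).card * 2 ^ V.card ≤ (om x F).card := by
  have h1 : ((om x F).filter fun y => ∀ p ∈ V, y i p < a) ⊆
      Fintype.piFinset fun j => Fintype.piFinset fun o =>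
        if j = i ∧ o ∈ V then range a else Icc (x j o - F) (x j o + F) := by
    intro y hy
    obtain ⟨h1, h2⟩ := mem_filter.1 hy
    simp only [Fintype.mem_piFinset]
    intro j o
    split_ifs with h
    · rw [h.1]; exact mem_range.2 (h2 o h.2)
    · have := mem_om.1 h1 j o
      rw [mem_Icc]; omega
  refine (Nat.mul_le_mul_right _ (card_le_card h1)).trans ?_
  have h2 : 2 ^ V.card = ∏ j : Fin n, ∏ o : Fin m, if j = i ∧ o ∈ V then 2 else 1 := by
    rw [prod_eq_single i (fun j _ hj => by simp [hj]) (by simp)]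
    simp
  simp only [om, Fintype.card_piFinset]
  rw [h2, ← prod_mul_distrib]
  refine prod_le_prod' fun j _ => ?_
  rw [← prod_mul_distrib]
  refine prod_le_prod' fun o _ => ?_
  split_ifs with h
  · rw [h.1, hV o h.2]; simp; omega
  · simp

/-- The object `p` lies in a family inside `U` that splits evenly. -/
def Cov (y : Inst n m) (U : Finset (Fin m)) (p : Fin m) : Prop :=
  ∃ S ⊆ U, p ∈ S ∧ ∃ (g : Fin m → Fin n) (σ : Fin n → ℕ), ∀ i k, bs y S g i k = σ i

theorem mov_of_cov {w y : Inst n m} {U : Finset (Fin m)} {p : Fin m} {i : Fin n} {a : ℕ}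
    (h : Cov w U p) (hy : ∀ j o, y j o = w j o + if j = i ∧ o = p then a else 0) :
    Mov y U i a := by
  obtain ⟨S, hS, hp, g, σ, hσ⟩ := h
  refine ⟨S, hS, σ, fun j => ⟨fun o => Equiv.swap (g p) j (g o), fun i' k => ?_⟩⟩
  rw [← hσ i' (Equiv.swap (g p) j k)]
  unfold bs
  have : ∀ o ∈ S, (if Equiv.swap (g p) j (g o) = k then y i' o else 0) =
      (if g o = Equiv.swap (g p) j k then w i' o else 0) +
        if o = p then (if i' = i ∧ k = j then a else 0) else 0 := by
    intro o _
    rw [hy]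
    simp only [Equiv.swap_apply_eq_iff]
    by_cases e : o = p
    · subst e
      have : g o = Equiv.swap (g o) j k ↔ k = j := by
        rw [eq_comm, Equiv.swap_apply_eq_iff, Equiv.swap_apply_left]
      simp only [this]
      by_cases e1 : k = j <;> simp [e1]
    · simp [e]
  rw [sum_congr rfl this, sum_add_distrib, sum_ite_eq', if_pos hp]

open Classical in
theorem mov_count {x : Inst n m} {F L a h : ℕ} (hP : Pigeon n m F L) (i : Fin n)
    {U : Finset (Fin m)} (hU : ∀ j, ∀ o ∈ U, x j o = 0) {V : Fin h → Finset (Fin m)}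
    (hV : ∀ g, V g ⊆ U) (hVd : ∀ g g', g ≠ g' → Disjoint (V g) (V g')) :
    ((om x F).filter fun y => ¬ Mov y U i a ∧ ∀ g, ∃ p ∈ V g, a ≤ y i p).card * h ≤
      (om x F).card * L := by
  set B := (om x F).filter fun y => ¬ Mov y U i a ∧ ∀ g, ∃ p ∈ V g, a ≤ y i p with hB
  calc B.card * h ≤ ∑ y ∈ B, (U.filter fun p => a ≤ y i p).card := by
        refine card_nsmul_le_sum B _ h fun y hy => ?_
        choose p hp hp' using (mem_filter.1 hy).2.2
        conv_lhs => rw [← Fintype.card_fin h, ← card_univ]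
        refine card_le_card_of_injOn p (fun g _ => ?_) fun g _ g' _ e => ?_
        · exact mem_coe.2 (mem_filter.2 ⟨hV g (hp g), hp' g⟩)
        · by_contra hc
          exact disjoint_left.1 (hVd g g' hc) (hp g) (e ▸ hp g')
    _ = ∑ p ∈ U, (B.filter fun y => a ≤ y i p).card := by
        simp only [card_filter]; exact sum_comm
    _ ≤ ∑ p ∈ U, ((om x F).filter fun w => ¬ Cov w U p).card := by
        refine sum_le_sum fun p hp => ?_
        refine card_le_card_of_injOn (fun y j o => y j o - if j = i ∧ o = p then a else 0)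
          (fun y hy => ?_) fun y hy y' hy' e => ?_
        · obtain ⟨h1, h2⟩ := mem_filter.1 (mem_coe.1 hy)
          obtain ⟨h3, h4, -⟩ := mem_filter.1 h1
          refine mem_coe.2 (mem_filter.2 ⟨mem_om.2 fun j o => ?_, fun hc => h4 (mov_of_cov hc ?_)⟩)
          · have := mem_om.1 h3 j o
            beta_reduce
            split_ifs with e
            · have := hU j o (e.2 ▸ hp)
              omega
            · omega
          · intro j o
            beta_reduce
            split_ifs with e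
            · rw [e.1, e.2]; omega
            · omega
        · have h2 := (mem_filter.1 (mem_coe.1 hy)).2
          have h2' := (mem_filter.1 (mem_coe.1 hy')).2
          funext j o
          have := congrFun (congrFun e j) o
          simp only at this
          split_ifs at this with e
          · rw [e.1, e.2] at this ⊢; omega
          · omega
    _ = ∑ w ∈ om x F, (U.filter fun p => ¬ Cov w U p).card := by
        simp only [card_filter]; exact sum_comm
    _ ≤ _ := by
        refine sum_le_card_nsmul _ _ _ fun w hw => ?_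
        by_contra hc
        obtain ⟨S, hS, ⟨p, hp⟩, hg⟩ := hP w (U.filter fun p => ¬ Cov w U p) (fun o ho j => by
          have := (mem_om.1 hw j o).2
          have := hU j o (mem_filter.1 ho).1
          omega) (by omega)
        exact (mem_filter.1 (hS hp)).2 ⟨S, hS.trans (filter_subset _ _), hp, hg⟩

open Classical in
theorem all_mov_count {x : Inst n m} {F L h κ : ℕ} (hP : Pigeon n m F L) {A : Type} [Fintype A]
    (ag : A → Fin n) {a : A → ℕ} (ha : ∀ b, 2 * a b ≤ F + 1) {V : A × Fin h → Finset (Fin m)}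
    (hx : ∀ b j, ∀ o ∈ V b, x j o = 0) (hc : ∀ b, (V b).card = κ)
    (hVd : ∀ g g', g ≠ g' → Disjoint (V g) (V g')) (h0 : 0 < h)
    (h1 : 4 * Fintype.card A * L ≤ h) (h2 : 4 * Fintype.card A * h ≤ 2 ^ κ) :
    (om x F).card ≤ 2 * ((om x F).filter fun y =>
      ∀ b, Mov y (univ.biUnion fun g => V (b, g)) (ag b) (a b)).card := by
  have h3 := card_filter_add_card_filter_not (s := om x F)
    (fun y => ∀ b, Mov y (univ.biUnion fun g => V (b, g)) (ag b) (a b))
  have h4 : ((om x F).filter fun y => ¬ ∀ b, Mov y (univ.biUnion fun g => V (b, g)) (ag b) (a b)) ⊆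
      (univ.biUnion fun b => (om x F).filter fun y =>
        ¬ Mov y (univ.biUnion fun g => V (b, g)) (ag b) (a b) ∧
          ∀ g, ∃ p ∈ V (b, g), a b ≤ y (ag b) p) ∪
      univ.biUnion fun c : A × Fin h => (om x F).filter fun y =>
        ∀ p ∈ V c, y (ag c.1) p < a c.1 := by
    intro y hy
    obtain ⟨h5, h6⟩ := mem_filter.1 hy
    push Not at h6
    obtain ⟨b, hb⟩ := h6
    by_cases h7 : ∀ g, ∃ p ∈ V (b, g), a b ≤ y (ag b) p
    · exact mem_union_left _ (mem_biUnion.2 ⟨b, mem_univ _, mem_filter.2 ⟨h5, hb, h7⟩⟩)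
    · push Not at h7
      obtain ⟨g, hg⟩ := h7
      exact mem_union_right _ (mem_biUnion.2 ⟨(b, g), mem_univ _, mem_filter.2 ⟨h5, hg⟩⟩)
  have h5 := (card_le_card h4).trans ((card_union_le _ _).trans
    (Nat.add_le_add card_biUnion_le card_biUnion_le))
  have h6 : (∑ b, ((om x F).filter fun y => ¬ Mov y (univ.biUnion fun g => V (b, g)) (ag b) (a b) ∧
      ∀ g, ∃ p ∈ V (b, g), a b ≤ y (ag b) p).card) * h ≤
      Fintype.card A * ((om x F).card * L) := by
    rw [sum_mul]
    refine sum_le_card_nsmul _ _ _ fun b _ => mov_count hP (ag b) (fun j o ho => ?_)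
      (fun g => subset_biUnion_of_mem (fun g => V (b, g)) (mem_univ g))
      fun g g' e => hVd _ _ fun e' => e (Prod.ext_iff.1 e').2
    obtain ⟨g, -, hg⟩ := mem_biUnion.1 ho
    exact hx _ j o hg
  have h7 : (∑ c : A × Fin h, ((om x F).filter fun y =>
      ∀ p ∈ V c, y (ag c.1) p < a c.1).card) * 2 ^ κ ≤ (Fintype.card A * h) * (om x F).card := by
    rw [sum_mul]
    have := sum_le_card_nsmul (univ : Finset (A × Fin h)) (fun c => ((om x F).filter fun y =>
      ∀ p ∈ V c, y (ag c.1) p < a c.1).card * 2 ^ κ) _ fun c _ =>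
        hc c ▸ low_count (ha c.1) (ag c.1) (hx c _)
    simpa using this
  generalize (∑ b, ((om x F).filter fun y =>
    ¬ Mov y (univ.biUnion fun g => V (b, g)) (ag b) (a b) ∧
      ∀ g, ∃ p ∈ V (b, g), a b ≤ y (ag b) p).card) = u at h5 h6
  generalize (∑ c : A × Fin h, ((om x F).filter fun y =>
      ∀ p ∈ V c, y (ag c.1) p < a c.1).card) = v at h5 h7
  have h8 : 4 * u ≤ (om x F).card := by
    refine Nat.le_of_mul_le_mul_right ?_ h0
    have := Nat.mul_le_mul_left (om x F).card h1
    nlinarith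
  have h9 : 4 * v ≤ (om x F).card := by
    refine Nat.le_of_mul_le_mul_right ?_ (Nat.two_pow_pos κ)
    have := Nat.mul_le_mul_left (om x F).card h2
    nlinarith
  omega

theorem Mov.congr {y y' : Inst n m} {U : Finset (Fin m)} {i : Fin n} {a : ℕ} (h : Mov y U i a)
    (hy : ∀ j, ∀ o ∈ U, y' j o = y j o) : Mov y' U i a := by
  obtain ⟨S, hS, σ, h⟩ := h
  refine ⟨S, hS, σ, fun j => ?_⟩
  obtain ⟨g, hg⟩ := h j
  refine ⟨g, fun i' k => ?_⟩
  rw [← hg]
  exact sum_congr rfl fun o ho => by rw [hy i' o (hS ho)]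

theorem round_to (x y F N : ℕ) (hN : 0 < N) (h : x ≤ y + F ∧ y ≤ x + F) :
    ∃ y', (x ≤ y' + F ∧ y' ≤ x + F) ∧ (y ≤ y' + N ∧ y' ≤ y + N) ∧ (N : ℤ) ∣ (y' : ℤ) - x := by
  rcases le_total x y with e | e
  · have h1 := Nat.div_add_mod (y - x) N
    have h2 := Nat.mod_lt (y - x) hN
    exact ⟨x + N * ((y - x) / N), by omega, by omega, by push_cast; simp⟩
  · have h1 := Nat.div_add_mod (x - y) N
    have h2 := Nat.mod_lt (x - y) hN
    refine ⟨x - N * ((x - y) / N), by omega, by omega, ?_⟩
    rw [Nat.cast_sub (by omega)]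
    push_cast; simp

theorem exists_fix {x y : Inst n m} {F N : ℕ} (hF : 1 ≤ F) (hN : 0 < N) (hy : y ∈ om x F)
    {Z R : Finset (Fin m)} (hZR : Disjoint Z R) (hR : R.card = n) (hx : ∀ i, ∀ o ∈ R, x i o = 0) :
    ∃ y' ∈ om x F, (∀ i o, o ∉ Z ∪ R → y' i o = y i o) ∧
      (∀ i o, y i o ≤ y' i o + (N + n) ∧ y' i o ≤ y i o + (N + n)) ∧
      (∀ i, ∀ o ∈ Z, (N : ℤ) ∣ (y' i o : ℤ) - x i o) ∧
      ∀ i, (n : ℤ) ∣ ∑ o, ((y' i o : ℤ) - x i o) := by
  choose y1 h1 h2 h3 using fun i o => round_to (x i o) (y i o) F N hN (mem_om.1 hy i o)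
  let y2 : Inst n m := fun i o => if o ∈ Z then y1 i o else if o ∈ R then y i o - 1 else y i o
  have : ∀ i : Fin n, ∃ T ⊆ R, (n : ℤ) ∣ ∑ o, ((y2 i o : ℤ) - x i o) + T.card := by
    intro i
    have hn : (0 : ℤ) < n := by exact_mod_cast i.pos
    set s := ∑ o, ((y2 i o : ℤ) - x i o)
    obtain ⟨d, hd⟩ := Int.eq_ofNat_of_zero_le (Int.emod_nonneg (-s) hn.ne')
    have h4 := Int.emod_lt_of_pos (-s) hn
    obtain ⟨T, hT, hT'⟩ := exists_subset_card_eq (s := R) (n := d) (by omega)
    refine ⟨T, hT, -(-s / n), ?_⟩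
    have := Int.mul_ediv_add_emod (-s) n
    rw [hT', ← hd]
    linarith
  choose T hT hT' using this
  refine ⟨fun i o => y2 i o + if o ∈ T i then 1 else 0, mem_om.2 fun i o => ?_,
    fun i o ho => ?_, fun i o => ?_, fun i o ho => ?_, fun i => ?_⟩
  · have a1 := h1 i o
    have a2 := mem_om.1 hy i o
    have a3 := hx i o
    have a4 := @hT i o
    have a5 := @disjoint_left.1 hZR o
    simp only [y2]
    split_ifs <;> simp_all <;> omega
  · have a4 := @hT i o
    simp only [mem_union, not_or] at ho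
    simp only [y2, if_neg ho.1, if_neg ho.2, if_neg fun h => ho.2 (a4 h), add_zero]
  · have a1 := h2 i o
    have := i.pos
    simp only [y2]
    split_ifs <;> omega
  · simp only [y2, if_pos ho, if_neg fun h => disjoint_left.1 hZR ho (hT i h), add_zero]
    exact h3 i o
  · refine (hT' i).trans (dvd_of_eq ?_)
    push_cast
    simp only [add_sub_right_comm, sum_add_distrib]
    simp

theorem sizes {F l : ℕ} (hn : 0 < n) (hl : F ≤ 2 ^ l) (X : ℕ) :
    ∃ a : ℕ → ℕ, (∀ k, 2 * a k ≤ F + 1) ∧ (∀ k, n * a k ≤ ∑ k' ∈ range k, a k' + n) ∧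
      X * F ≤ ∑ k ∈ range (n * l + 2 * X), a k := by
  let a : ℕ → ℕ := fun k => min (2 ^ (k / n)) ((F + 1) / 2)
  have h1 : ∀ b, n * min (2 ^ b) ((F + 1) / 2) ≤ ∑ k ∈ range (n * b), a k + n := by
    intro b
    induction b with
    | zero => simpa using Nat.mul_le_mul_left n (min_le_left 1 ((F + 1) / 2))
    | succ b ih =>
      rw [mul_add, mul_one, sum_range_add, sum_congr (s₁ := range n) rfl
        (g := fun _ => min (2 ^ b) ((F + 1) / 2)) (fun k hk => by
          simp only [a]
          rw [add_comm, Nat.add_mul_div_left _ _ hn, Nat.div_eq_of_lt (mem_range.1 hk), zero_add]),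
        sum_const, card_range, smul_eq_mul]
      have : min (2 ^ (b + 1)) ((F + 1) / 2) ≤ 2 * min (2 ^ b) ((F + 1) / 2) := by
        rw [pow_succ]; omega
      nlinarith
  refine ⟨a, fun k => by simp only [a]; omega, fun k => (h1 (k / n)).trans ?_, ?_⟩
  · exact Nat.add_le_add_right (sum_le_sum_of_subset
      (range_subset_range.2 (Nat.mul_div_le k n))) _
  · rw [sum_range_add]
    refine le_trans ?_ (Nat.le_add_left _ _)
    have := card_nsmul_le_sum (range (2 * X)) (fun k => a (n * l + k)) ((F + 1) / 2) fun k _ => by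
      have h2 : l ≤ (n * l + k) / n := (Nat.le_div_iff_mul_le hn).2 (by nlinarith)
      have h3 := Nat.pow_le_pow_right (show 0 < 2 by omega) h2
      simp only [a]; omega
    rw [card_range, smul_eq_mul] at this
    have h4 : F ≤ 2 * ((F + 1) / 2) := by omega
    nlinarith

/-- The instance `y` has the same answer as the centre `x` for a checkable reason. -/
def Faith (x y : Inst n m) (D Z : Finset (Fin m)) (N R : ℕ) : Prop :=
  (∀ i, ∀ o ∈ Z, (N : ℤ) ∣ (y i o : ℤ) - x i o) ∧ (∀ i, (n : ℤ) ∣ ∑ o, ((y i o : ℤ) - x i o)) ∧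
    Rich y D R

open Classical in
theorem faith_count {x : Inst n m} {F N l ρ : ℕ} (i0 : Fin n) (hF : 1 ≤ F) (hN : 0 < N)
    {D Z : Finset (Fin m)} (hZ : Disjoint Z D) (hx : ∀ i, ∀ o ∈ D, x i o = 0) {M h : ℕ}
    (hM : M = n * l + 2 * (n * (ρ + l ^ (n - 1)))) (hh : h = 4 * (n * M) * l ^ (n - 1) + 1)
    (h1 : (l ^ n * F + 1) ^ n < 2 ^ l) (h2 : F ≤ 2 ^ l) (h3 : 4 * (n * M) * h ≤ 2 ^ l)
    (h4 : n + n * M * h * l ≤ D.card) :
    (om x F).card ≤ 2 * (2 * (N + n) + 1) ^ (n * (Z.card + n)) *
      ((om x F).filter fun y => Faith x y D Z N (ρ * F)).card := by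
  have hP : Pigeon n m F (l ^ (n - 1)) := pigeon i0.pos h1
  obtain ⟨a, ha1, ha2, ha3⟩ := sizes i0.pos h2 (n * (ρ + l ^ (n - 1)))
  obtain ⟨R, hR, hRc⟩ := exists_subset_card_eq (s := D) (n := n) (by omega)
  obtain ⟨V, hV, hVd⟩ := exists_blocks ((Fin n × Fin M) × Fin h) l (U := D \ R) (by
    rw [card_sdiff_of_subset hR, hRc]
    simp only [Fintype.card_prod, Fintype.card_fin]
    omega)
  have h5 := all_mov_count (x := x) hP (A := Fin n × Fin M) (fun b => b.1) (a := fun b => a b.2)
    (fun b => ha1 _) (V := V) (fun b j o ho => hx j o (mem_sdiff.1 ((hV b).1 ho)).1)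
    (fun b => (hV b).2) hVd (by omega) (by simp; omega) (by simpa using h3)
  refine h5.trans ?_
  rw [mul_assoc]
  refine Nat.mul_le_mul_left _ ?_
  have hfix := fun y (hy : y ∈ om x F) => exists_fix hF hN hy (hZ.mono_right hR) hRc
    fun i o ho => hx i o (hR ho)
  choose! Φ hΦ1 hΦ2 hΦ3 hΦ4 hΦ5 using hfix
  refine card_le_mul_card_image_of_maps_to (f := Φ) (fun y hy => ?_) _ fun y' _ => ?_
  · obtain ⟨h6, h7⟩ := mem_filter.1 hy
    refine mem_filter.2 ⟨hΦ1 y h6, hΦ4 y h6, hΦ5 y h6, rich_of_mov (M := M) (a := a)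
      (U := fun b => univ.biUnion fun g => V (b, g)) i0 hP (fun o ho i => ?_) (fun k _ => ha2 k)
      ?_ (fun b => ?_) (fun b b' e => ?_) fun b => (h7 b).congr fun j o ho => hΦ2 y h6 j o ?_⟩
    · have := (mem_om.1 (hΦ1 y h6) i o).2
      have := hx i o ho
      omega
    · rw [hM]
      refine le_trans (le_of_eq ?_) ha3
      ring
    · exact biUnion_subset.2 fun g _ => (hV _).1.trans sdiff_subset
    · rw [disjoint_biUnion_left]
      intro g _
      rw [disjoint_biUnion_right]
      exact fun g' _ => hVd _ _ fun e' => e (Prod.ext_iff.1 e').1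
    · obtain ⟨g, -, hg⟩ := mem_biUnion.1 ho
      have := mem_sdiff.1 ((hV _).1 hg)
      simp only [mem_union, not_or]
      exact ⟨fun h => disjoint_left.1 hZ h this.1, this.2⟩
  · refine (card_le_card (t := Fintype.piFinset fun i => Fintype.piFinset fun o =>
      if o ∈ Z ∪ R then Icc (y' i o - (N + n)) (y' i o + (N + n)) else {y' i o})
      fun y hy => ?_).trans ?_
    · obtain ⟨h6, rfl⟩ := mem_filter.1 hy
      have h7 := (mem_filter.1 h6).1
      simp only [Fintype.mem_piFinset]
      intro i o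
      split_ifs with e
      · have := hΦ3 y h7 i o
        rw [mem_Icc]; omega
      · rw [hΦ2 y h7 i o e]; simp
    · simp only [Fintype.card_piFinset]
      calc _ ≤ ∏ _i : Fin n, ∏ o : Fin m, if o ∈ Z ∪ R then 2 * (N + n) + 1 else 1 := by
            refine prod_le_prod' fun i _ => prod_le_prod' fun o _ => ?_
            split_ifs
            · rw [Nat.card_Icc]; omega
            · simp
        _ ≤ _ := by
            rw [prod_ite_mem_eq, prod_const, prod_const, card_univ, Fintype.card_fin, ← pow_mul,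
              mul_comm _ n]
            exact Nat.pow_le_pow_right (by omega)
              (Nat.mul_le_mul_left _ (hRc ▸ card_union_le _ _))

end Pool.Agent.Lib.MP_5a17c4_lc
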