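import Pool.Agent.Shared.ClockedRun

/-!
Consensus allocations with bounded sharing, and generic running time.
-/

set_option autoImplicit false

namespace Pool.Agent.Lib.MP_5a17c4_lc

open Finset Turing Filter Pool.Agent.Shared.PolyTime

/-- An instance: `v i o` is the value of object `o` for agent `i`. -/
abbrev Inst (n m : ℕ) := Fin n → Fin m → ℕ

/-- `z` is a consensus allocation; `z j o` is the fraction of object `o` given to agent `j`. -/
def Consensus {n m : ℕ} (v : Inst n m) (z : Fin n → Fin m → ℝ) : Prop :=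
  (∀ j o, 0 ≤ z j o) ∧ (∀ o, ∑ j, z j o = 1) ∧
    ∀ i j, ∑ o, (v i o : ℝ) * z j o = (∑ o, (v i o : ℝ)) / n

open Classical in
/-- The number of shared objects. -/
noncomputable def shared {n m : ℕ} (z : Fin n → Fin m → ℝ) : ℕ :=
  (univ.filter fun o => ∃ i, 0 < z i o ∧ z i o < 1).card

open Classical in
/-- The number of sharings. -/
noncomputable def sharings {n m : ℕ} (z : Fin n → Fin m → ℝ) : ℕ :=
  ∑ o, ((univ.filter fun i => 0 < z i o).card - 1)

/-- There is a consensus allocation with at most `s` shared objects. -/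
def ConsObj (n s m : ℕ) (v : Inst n m) : Prop := ∃ z, Consensus v z ∧ shared z ≤ s

/-- There is a consensus allocation with at most `s` sharings. -/
def ConsSh (n s m : ℕ) (v : Inst n m) : Prop := ∃ z, Consensus v z ∧ sharings z ≤ s

/-- The bit string of the list of the `m * n` entries of an instance, written in binary. -/
def enc {n m : ℕ} (v : Inst n m) : List Bool :=
  N487b59b3.bitEncode (List.ofFn fun o => List.ofFn fun i => v i o).flatten

/-- The instances with entries at most `2 ^ (c t)`, where `t = m n`. -/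
noncomputable def box (c : ℝ) (n m : ℕ) : Finset (Inst n m) :=
  Fintype.piFinset fun _ => Fintype.piFinset fun _ => Iic ⌊(2 : ℝ) ^ (c * (m * n : ℕ))⌋₊

/-- The instances of the box at sup-distance at most `r` from `x`. -/
noncomputable def ball (c : ℝ) {n m : ℕ} (x : Inst n m) (r : ℕ) : Finset (Inst n m) :=
  (box c n m).filter fun y => ∀ i o, |(x i o : ℤ) - y i o| ≤ r

/-- The machine `A` decides the problem `Q` on all the instances in the boxes. -/
def Decides (c : ℝ) {n : ℕ} (Q : ∀ m, Inst n m → Prop) (A : TM2ComputableAux Bool Bool) : Prop :=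
  ∀ m, ∀ v ∈ box c n m, ∃ (b : Bool) (T : ℕ), Outputs A (enc v) [b] T ∧ (b = true ↔ Q m v)

/-- The radius `f` is polynomially bounded and `G x` lies in the ball of radius `f t` about `x`. -/
def InBall (c : ℝ) {n : ℕ} (f : ℕ → ℕ) (G : ∀ m, Inst n m → Finset (Inst n m)) : Prop :=
  (∃ q : Polynomial ℕ, ∀ t, f t ≤ q.eval t) ∧
    ∀ m, ∀ x ∈ box c n m, G m x ⊆ ball c x (f (m * n))

/-- Condition (a): `A` halts in time polynomial in `t` on every input in `G x`. -/
def CondA (c : ℝ) {n : ℕ} (A : TM2ComputableAux Bool Bool)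
    (G : ∀ m, Inst n m → Finset (Inst n m)) : Prop :=
  ∃ p : Polynomial ℕ, ∀ m, ∀ x ∈ box c n m, ∀ y ∈ G m x,
    ∃ b, Outputs A (enc y) b (p.eval (m * n))

/-- Condition (b): the least density of `G x` in its ball tends to one. -/
def CondB (c : ℝ) {n : ℕ} (f : ℕ → ℕ) (G : ∀ m, Inst n m → Finset (Inst n m)) : Prop :=
  Tendsto (fun m => ⨅ x : box c n m,
    ((G m x).card : ℝ) / (ball c (x : Inst n m) (f (m * n))).card) atTop (nhds 1)

/-- Condition (c): some element of `G x` is computable from `x` in time polynomial in `t`. -/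
def CondC (c : ℝ) {n : ℕ} (G : ∀ m, Inst n m → Finset (Inst n m)) : Prop :=
  ∃ (B : TM2ComputableAux Bool Bool) (p : Polynomial ℕ), ∀ m, ∀ x ∈ box c n m,
    ∃ y ∈ G m x, Outputs B (enc x) (enc y) (p.eval (m * n))

end Pool.Agent.Lib.MP_5a17c4_lc
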