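import Pool.Agent.Lib.MP_5a17c4_lc.Centre

/-!
Small objects realise every small correction exactly, once enough movers are present.
-/

set_option autoImplicit false

namespace Pool.Agent.Lib.MP_5a17c4_lc

open Finset

variable {n m : ℕ}

/-- The value for agent `i` of the objects of `S` that `g` puts into bundle `k`. -/
def bs (y : Inst n m) (S : Finset (Fin m)) (g : Fin m → Fin n) (i k : Fin n) : ℕ :=
  ∑ o ∈ S, if g o = k then y i o else 0

theorem bs_congr {y : Inst n m} {S : Finset (Fin m)} {g g' : Fin m → Fin n}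
    (h : ∀ o ∈ S, g o = g' o) (i k : Fin n) : bs y S g i k = bs y S g' i k :=
  sum_congr rfl fun o ho => by rw [h o ho]

theorem bs_total (y : Inst n m) (S : Finset (Fin m)) (g : Fin m → Fin n) (i : Fin n) :
    ∑ k, bs y S g i k = ∑ o ∈ S, y i o := by
  unfold bs
  rw [sum_comm]
  simp

theorem bs_le {y : Inst n m} {S : Finset (Fin m)} {F : ℕ} (h : ∀ o ∈ S, ∀ i, y i o ≤ F)
    (g : Fin m → Fin n) (i k : Fin n) : bs y S g i k ≤ S.card * F :=
  sum_le_card_nsmul _ _ _ fun o ho => by
    split_ifs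
    · exact h o ho i
    · exact Nat.zero_le _

theorem glue {A : Type} (i0 : Fin n) (V : A → Finset (Fin m))
    (hV : ∀ a b, a ≠ b → Disjoint (V a) (V b)) (g : A → Fin m → Fin n) :
    ∃ G : Fin m → Fin n, ∀ a, ∀ o ∈ V a, G o = g a o := by
  classical
  refine ⟨fun o => if h : ∃ a, o ∈ V a then g h.choose o else i0, fun a o ho => ?_⟩
  have h : ∃ a, o ∈ V a := ⟨a, ho⟩
  beta_reduce
  rw [dif_pos h]
  by_contra hc
  exact disjoint_left.1 (hV h.choose a fun e => hc (by rw [e])) h.choose_spec ho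

theorem bs_glue {A : Type} [Fintype A] (i0 : Fin n) (y : Inst n m) (V : A → Finset (Fin m))
    (hV : ∀ a b, a ≠ b → Disjoint (V a) (V b)) (g : A → Fin m → Fin n) :
    ∃ G : Fin m → Fin n, (∀ a, ∀ o ∈ V a, G o = g a o) ∧
      ∀ i k, bs y (univ.biUnion V) G i k = ∑ a, bs y (V a) (g a) i k := by
  obtain ⟨G, hG⟩ := glue i0 V hV g
  refine ⟨G, hG, fun i k => ?_⟩
  unfold bs
  rw [sum_biUnion fun a _ b _ h => hV a b h]
  exact sum_congr rfl fun a _ => bs_congr (hG a) i k

theorem bs_sdiff (y : Inst n m) {S U : Finset (Fin m)} (h : S ⊆ U) (g g' : Fin m → Fin n) :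
    ∃ G : Fin m → Fin n, ∀ i k, bs y U G i k = bs y S g i k + bs y (U \ S) g' i k := by
  refine ⟨S.piecewise g g', fun i k => ?_⟩
  rw [bs_congr (g := g) (g' := S.piecewise g g') (fun o ho => by simp [ho]),
    bs_congr (g := g') (g' := S.piecewise g g') (fun o ho => by simp [(mem_sdiff.1 ho).2])]
  unfold bs
  rw [add_comm, sum_sdiff h]

theorem exists_blocks (A : Type) [Fintype A] (b : ℕ) {U : Finset (Fin m)}
    (h : Fintype.card A * b ≤ U.card) : ∃ V : A → Finset (Fin m),
      (∀ a, V a ⊆ U ∧ (V a).card = b) ∧ ∀ a a', a ≠ a' → Disjoint (V a) (V a') := by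
  obtain ⟨f, hf⟩ := Function.Embedding.exists_of_card_le_finset (α := A × Fin b) (s := U)
    (by simpa using h)
  refine ⟨fun a => univ.image fun p => f (a, p), fun a => ⟨fun o ho => ?_, ?_⟩,
    fun a a' haa => disjoint_left.2 fun o h1 h2 => ?_⟩
  · obtain ⟨p, -, rfl⟩ := mem_image.1 ho
    exact hf ⟨_, rfl⟩
  · rw [card_image_of_injective _ fun p p' h => (Prod.ext_iff.1 (f.injective h)).2]
    simp
  · obtain ⟨p, -, rfl⟩ := mem_image.1 h1
    obtain ⟨p', -, h⟩ := mem_image.1 h2
    exact haa (Prod.ext_iff.1 (f.injective h)).1.symm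

theorem fold_aux {l F : ℕ} (i0 : Fin n) (hi0 : (i0 : ℕ) = 0) (hl : (l ^ n * F + 1) ^ n < 2 ^ l)
    (y : Inst n m) (r : ℕ) (hr : r < n) : ∀ U : Finset (Fin m), (∀ o ∈ U, ∀ i, y i o ≤ F) →
      l ^ r ≤ U.card → ∃ S ⊆ U, S.Nonempty ∧ ∃ (g : Fin m → Fin n) (σ : Fin n → ℕ),
        (∀ o ∈ S, (g o : ℕ) ≤ r) ∧ ∀ i k : Fin n, (k : ℕ) ≤ r → bs y S g i k = σ i := by
  induction r with
  | zero =>
    intro U _ hU
    obtain ⟨o, ho⟩ := card_pos.1 (show 0 < U.card by simpa using hU)
    refine ⟨{o}, by simpa using ho, by simp, fun _ => i0, fun i => y i o, fun _ _ => hi0.le,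
      fun i k hk => ?_⟩
    have : i0 = k := Fin.ext (by omega)
    simp [bs, this]
  | succ r ih =>
    intro U hU hc
    obtain ⟨V, hV, hVd⟩ := exists_blocks (Fin l) (l ^ r) (U := U)
      (by rw [Fintype.card_fin, ← pow_succ']; exact hc)
    choose S hS hSn g σ hg hσ using fun a =>
      ih (by omega) (V a) (fun o ho => hU o ((hV a).1 ho)) (hV a).2.ge
    have hσ' : ∀ a i, σ a i ≤ l ^ r * F := fun a i => by
      rw [← hσ a i i0 (by omega), ← (hV a).2]
      exact (bs_le (fun o ho => hU o ((hV a).1 (hS a ho))) _ _ _).trans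
        (Nat.mul_le_mul_right _ (card_le_card (hS a)))
    have hl0 : 0 < l := by
      rcases Nat.eq_zero_or_pos l with rfl | h
      · have : 0 < (0 ^ n * F + 1) ^ n := by positivity
        omega
      · exact h
    obtain ⟨I, -, I', -, hII, hs⟩ := exists_ne_map_eq_of_card_lt_of_maps_to
      (s := (univ : Finset (Finset (Fin l))))
      (t := Fintype.piFinset fun _ : Fin n => range (l ^ n * F + 1))
      (by simpa using hl) (f := fun I i => ∑ a ∈ I, σ a i) (fun I _ => by
        simp only [mem_coe, Fintype.mem_piFinset, mem_range]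
        intro i
        have h1 := sum_le_card_nsmul I (fun a => σ a i) _ fun a _ => hσ' a i
        have h2 : I.card ≤ l := by simpa using card_le_univ I
        have h3 : l ^ (r + 1) ≤ l ^ n := Nat.pow_le_pow_right hl0 hr.le
        have h4 := Nat.mul_le_mul_right (l ^ r * F) h2
        have h5 := Nat.mul_le_mul_right F h3
        rw [smul_eq_mul] at h1
        rw [pow_succ] at h5
        nlinarith)
    wlog hne : (I \ I').Nonempty generalizing I I'
    · refine this I' I hII.symm hs.symm ?_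
      rw [not_nonempty_iff_eq_empty, sdiff_eq_empty_iff_subset] at hne
      rw [sdiff_nonempty]
      exact fun h => hII (Subset.antisymm hne h)
    have hs' : ∀ i, ∑ a ∈ I \ I', σ a i = ∑ a ∈ I' \ I, σ a i := by
      intro i
      have h1 := congrFun hs i
      have h2 := sum_inter_add_sum_sdiff I I' fun a => σ a i
      have h3 := sum_inter_add_sum_sdiff I' I fun a => σ a i
      rw [inter_comm] at h3
      omega
    let S' : Fin l → Finset (Fin m) := fun a => if a ∈ I \ I' then S a
      else if a ∈ I' \ I then (S a).filter fun o => g a o = i0 else ∅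
    have hS' : ∀ a, S' a ⊆ V a := fun a => by
      simp only [S']
      split_ifs
      · exact hS a
      · exact (filter_subset _ _).trans (hS a)
      · exact empty_subset _
    obtain ⟨G, hG, hG'⟩ := bs_glue i0 y S'
      (fun a b h => (hVd a b h).mono (hS' a) (hS' b))
      (fun a => if a ∈ I \ I' then g a else fun _ => ⟨r + 1, hr⟩)
    refine ⟨univ.biUnion S', biUnion_subset.2 fun a _ => (hS' a).trans (hV a).1, ?_, G,
      fun i => ∑ a ∈ I \ I', σ a i, fun o ho => ?_, fun i k hk => ?_⟩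
    · obtain ⟨a, ha⟩ := hne
      obtain ⟨o, ho⟩ := hSn a
      exact ⟨o, mem_biUnion.2 ⟨a, mem_univ _, by simp only [S', if_pos ha]; exact ho⟩⟩
    · obtain ⟨a, -, ha⟩ := mem_biUnion.1 ho
      rw [hG a o ha]
      by_cases h : a ∈ I \ I'
      · simp only [S', if_pos h] at ha ⊢
        exact (hg a o ha).trans (Nat.le_succ _)
      · simp only [if_neg h, le_refl]
    · rw [hG']
      beta_reduce
      rcases Nat.lt_or_ge r k with h | h
      · have hk' : (⟨r + 1, hr⟩ : Fin n) = k := Fin.ext (by simp only; omega)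
        rw [hs', ← sum_ite_mem_eq (I' \ I)]
        refine sum_congr rfl fun a _ => ?_
        by_cases h1 : a ∈ I \ I'
        · have h2 : a ∉ I' \ I := fun h => (mem_sdiff.1 h).2 (mem_sdiff.1 h1).1
          simp only [S', if_pos h1, if_neg h2]
          exact sum_eq_zero fun o ho => if_neg fun e => by
            have := hg a o ho
            rw [e] at this
            omega
        · simp only [S', if_neg h1, hk']
          split_ifs
          · rw [← hσ a i i0 (by omega)]
            simp [bs, sum_filter]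
          · simp [bs]
      · rw [← sum_ite_mem_eq (I \ I')]
        refine sum_congr rfl fun a _ => ?_
        by_cases h1 : a ∈ I \ I'
        · simp only [S', if_pos h1]
          exact hσ a i k h
        · simp only [if_neg h1]
          exact sum_eq_zero fun o _ => if_neg fun e => by
            have := congrArg Fin.val e
            simp only at this
            omega

/-- Every `L` objects of value at most `F` contain a nonempty family that splits evenly. -/
def Pigeon (n m F L : ℕ) : Prop :=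
  ∀ (y : Inst n m) (U : Finset (Fin m)), (∀ o ∈ U, ∀ i, y i o ≤ F) → L ≤ U.card →
    ∃ S ⊆ U, S.Nonempty ∧ ∃ (g : Fin m → Fin n) (σ : Fin n → ℕ), ∀ i k, bs y S g i k = σ i

theorem pigeon {l F : ℕ} (hn : 0 < n) (hl : (l ^ n * F + 1) ^ n < 2 ^ l) :
    Pigeon n m F (l ^ (n - 1)) := by
  intro y U hU hc
  obtain ⟨S, h1, h2, g, σ, -, h3⟩ := fold_aux ⟨0, hn⟩ rfl hl y (n - 1) (by omega) U hU hc
  exact ⟨S, h1, h2, g, σ, fun i k => h3 i k (by omega)⟩

theorem balance {F L : ℕ} (i0 : Fin n) (hP : Pigeon n m F L) (y : Inst n m) (U : Finset (Fin m)) :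
    (∀ o ∈ U, ∀ i, y i o ≤ F) → ∃ (g : Fin m → Fin n) (σ : Fin n → ℕ),
      ∀ i k, σ i ≤ bs y U g i k ∧ bs y U g i k ≤ σ i + L * F := by
  induction U using Finset.strongInduction with
  | H U ih =>
    intro hU
    rcases Nat.lt_or_ge U.card L with h | h
    · refine ⟨fun _ => i0, 0, fun i k => ⟨Nat.zero_le _, (bs_le hU _ _ _).trans ?_⟩⟩
      simpa using Nat.mul_le_mul_right F h.le
    · obtain ⟨S, hS, hSn, g, σ, hσ⟩ := hP y U hU h
      obtain ⟨g', σ', h'⟩ := ih (U \ S) (sdiff_ssubset hS hSn) fun o ho => hU o (mem_sdiff.1 ho).1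
      obtain ⟨G, hG⟩ := bs_sdiff y hS g g'
      refine ⟨G, σ + σ', fun i k => ?_⟩
      have := h' i k
      rw [hG, hσ, Pi.add_apply]
      omega

/-- A family inside `U` that splits evenly up to a surplus `a` for agent `i` in any bundle. -/
def Mov (y : Inst n m) (U : Finset (Fin m)) (i : Fin n) (a : ℕ) : Prop :=
  ∃ S ⊆ U, ∃ σ : Fin n → ℕ, ∀ j, ∃ g : Fin m → Fin n,
    ∀ i' k, bs y S g i' k = σ i' + if i' = i ∧ k = j then a else 0

theorem chain (i0 : Fin n) (a : ℕ → ℕ) (M : ℕ) :
    (∀ l < M, n * a l ≤ ∑ l' ∈ range l, a l' + n) → ∀ d : Fin n → ℕ,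
      ∑ k, d k = ∑ l ∈ range M, a l →
      ∃ h : ℕ → Fin n, ∀ k, (∑ l ∈ range M, if k = h l then a l else 0) = d k := by
  induction M with
  | zero =>
    intro _ d hd
    exact ⟨fun _ => i0, fun k => by
      rw [sum_range_zero, (sum_eq_zero_iff.1 hd) k (mem_univ _)]⟩
  | succ M ih =>
    intro ha d hd
    rw [sum_range_succ] at hd
    obtain ⟨j, hj⟩ : ∃ j, a M ≤ d j := by
      by_contra hc
      push Not at hc
      have h1 := ha M (Nat.lt_succ_self _)
      have h2 : ∑ k, (d k + 1) ≤ ∑ _k : Fin n, a M := sum_le_sum fun k _ => hc k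
      have h3 := hc i0
      simp only [sum_add_distrib, sum_const, card_univ, Fintype.card_fin, smul_eq_mul] at h2
      omega
    obtain ⟨h, hh⟩ := ih (fun l hl => ha l (by omega))
      (fun k => d k - if k = j then a M else 0) (by
        have : ∑ k, d k = ∑ k, ((d k - if k = j then a M else 0) + if k = j then a M else 0) :=
          sum_congr rfl fun k _ => by
            split_ifs with e
            · subst e; omega
            · omega
        rw [sum_add_distrib, sum_ite_eq', if_pos (mem_univ _)] at this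
        omega)
    refine ⟨Function.update h M j, fun k => ?_⟩
    rw [sum_range_succ, Function.update_self, sum_congr rfl (fun l hl => by
      rw [Function.update_of_ne (mem_range.1 hl).ne]), hh]
    split_ifs with e
    · subst e; omega
    · omega

/-- The objects of `D` realise every splitting that is balanced up to `R`. -/
def Rich (y : Inst n m) (D : Finset (Fin m)) (R : ℕ) : Prop :=
  (∀ i, n * R ≤ ∑ o ∈ D, y i o) ∧ ∀ T : Fin n → Fin n → ℤ, (∀ i, ∑ k, T i k = ∑ o ∈ D, (y i o : ℤ)) →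
    (∀ i k, ∑ o ∈ D, (y i o : ℤ) ≤ n * (T i k + R)) →
    ∃ g : Fin m → Fin n, ∀ i k, (bs y D g i k : ℤ) = T i k

theorem rich_of_mov {F L M R : ℕ} (i0 : Fin n) (hP : Pigeon n m F L) {y : Inst n m}
    {D : Finset (Fin m)} (hD : ∀ o ∈ D, ∀ i, y i o ≤ F) {a : ℕ → ℕ}
    (ha : ∀ l < M, n * a l ≤ ∑ l' ∈ range l, a l' + n)
    (hA : n * (R + L * F) ≤ ∑ l ∈ range M, a l) {U : Fin n × Fin M → Finset (Fin m)}
    (hU : ∀ b, U b ⊆ D) (hUd : ∀ b b', b ≠ b' → Disjoint (U b) (U b'))
    (hM : ∀ b, Mov y (U b) b.1 (a b.2)) : Rich y D R := by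
  choose S hS σ g hg using hM
  have hSd : ∀ b b', b ≠ b' → Disjoint (S b) (S b') := fun b b' h =>
    (hUd b b' h).mono (hS b) (hS b')
  have hsub : univ.biUnion S ⊆ D := biUnion_subset.2 fun b _ => (hS b).trans (hU b)
  obtain ⟨g', σ', h'⟩ := balance i0 hP y (D \ univ.biUnion S) fun o ho => hD o (mem_sdiff.1 ho).1
  have key : ∀ h : Fin n → ℕ → Fin n, ∃ G : Fin m → Fin n, ∀ i k, bs y D G i k =
      ∑ b, σ b i + (∑ l ∈ range M, if k = h i l then a l else 0) +
        bs y (D \ univ.biUnion S) g' i k := by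
    intro h
    obtain ⟨G, -, hG⟩ := bs_glue i0 y S hSd fun b => g b (h b.1 b.2)
    obtain ⟨G', hG'⟩ := bs_sdiff y hsub G g'
    refine ⟨G', fun i k => ?_⟩
    rw [hG', hG]
    simp only [hg, sum_add_distrib]
    congr 2
    rw [Fintype.sum_prod_type, sum_eq_single i (fun j _ hj => sum_eq_zero fun l _ =>
      if_neg fun e => hj e.1.symm) (by simp), sum_range]
    simp
  have htot : ∀ i, ∑ o ∈ D, y i o = n * ∑ b, σ b i + ∑ l ∈ range M, a l +
      ∑ k, bs y (D \ univ.biUnion S) g' i k := by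
    intro i
    obtain ⟨G, hG⟩ := key fun _ _ => i0
    rw [← bs_total y D G]
    simp only [hG, sum_add_distrib]
    rw [sum_comm (s := univ) (t := range M)]
    simp
  refine ⟨fun i => by rw [htot]; rw [mul_add] at hA; omega, fun T hT1 hT2 => ?_⟩
  have hn : (0 : ℤ) < n := by exact_mod_cast i0.pos
  have hd : ∀ i k, ∃ d : ℕ, T i k = ∑ b, σ b i + d + bs y (D \ univ.biUnion S) g' i k := by
    intro i k
    have h1 := hT2 i k
    rw [← Nat.cast_sum, htot] at h1
    have h2 : n * σ' i ≤ ∑ k, bs y (D \ univ.biUnion S) g' i k := by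
      simpa using card_nsmul_le_sum univ _ _ fun k _ => (h' i k).1
    have h3 := (h' i k).2
    have h4 : (0 : ℤ) ≤ T i k - ∑ b, σ b i - bs y (D \ univ.biUnion S) g' i k := by
      refine le_of_mul_le_mul_left ?_ hn
      zify at h2 h3 hA
      push_cast at h1
      have h5 := mul_le_mul_of_nonneg_left h3 hn.le
      push_cast
      nlinarith
    obtain ⟨d, hd⟩ := Int.eq_ofNat_of_zero_le h4
    exact ⟨d, by push_cast at hd ⊢; linarith⟩
  choose d hd using hd
  choose h hh using fun i => chain i0 a M ha (d i) (by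
    have h1 := hT1 i
    rw [← Nat.cast_sum, htot] at h1
    simp only [hd, sum_add_distrib, sum_const, card_univ, Fintype.card_fin, nsmul_eq_mul] at h1
    zify
    push_cast at h1
    linarith)
  obtain ⟨G, hG⟩ := key h
  exact ⟨G, fun i k => by rw [hG, hh, hd]; push_cast; ring⟩

theorem exact_yes {μ : Bool} {F N : ℕ} (i0 : Fin n) {x y : Inst n m} {z0 : Fin n → Fin m → ℝ}
    (h0 : Consensus x z0) {D Z : Finset (Fin m)} (hx : ∀ i, ∀ o ∈ D, x i o = 0)
    (hN : ∀ j o, ∃ a : ℕ, (N : ℝ) * z0 j o = a)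
    (hZ : ∀ o, o ∉ Z → ∃ j, (fun k => z0 k o) = Pi.single j 1) (hy : Near x y F)
    (h1 : ∀ i, ∀ o ∈ Z, (N : ℤ) ∣ (y i o : ℤ) - x i o)
    (h2 : ∀ i, (n : ℤ) ∣ ∑ o, ((y i o : ℤ) - x i o)) (hR : Rich y D (2 * Dᶜ.card * F)) :
    ∃ z, Consensus y z ∧ ∑ o, cost μ (fun j => z j o) ≤ ∑ o, cost μ (fun j => z0 j o) := by
  have hr : ∀ i j o, ∃ r : ℤ, (r : ℝ) = ((y i o : ℝ) - x i o) * z0 j o := by
    intro i j o
    by_cases ho : o ∈ Z
    · obtain ⟨u, hu⟩ := h1 i o ho
      obtain ⟨a, ha⟩ := hN j o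
      have : (y i o : ℝ) - x i o = N * u := by exact_mod_cast hu
      exact ⟨u * a, by push_cast; rw [this, ← ha]; ring⟩
    · obtain ⟨k, hk⟩ := hZ o ho
      rw [congrFun hk j]
      by_cases e : j = k
      · exact ⟨y i o - x i o, by simp [e]⟩
      · exact ⟨0, by simp [e]⟩
  choose r hr using hr
  choose t ht using h2
  have hyD : ∀ i, ∑ o ∈ D, ((y i o : ℤ) - x i o) = ∑ o ∈ D, (y i o : ℤ) := fun i =>
    sum_congr rfl fun o ho => by rw [hx i o ho]; simp
  have hE : ∀ i, ∑ o ∈ D, (y i o : ℤ) + ∑ o ∈ Dᶜ, ((y i o : ℤ) - x i o) = n * t i := fun i => by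
    rw [← hyD, sum_add_sum_compl, ht]
  have hb : ∀ i o, |(y i o : ℤ) - x i o| ≤ F := fun i o => by rw [abs_sub_comm]; exact hy i o
  have hrb : ∀ i j o, r i j o ≤ F := by
    intro i j o
    have h3 : |(y i o : ℝ) - x i o| ≤ F := by exact_mod_cast hb i o
    have h4 := h0.1 j o
    have h5 := (h0.simplex o).le_one j
    have : (r i j o : ℝ) ≤ F := by
      rw [hr]
      nlinarith [abs_le.1 h3, (Nat.cast_nonneg F : (0 : ℝ) ≤ F)]
    exact_mod_cast this
  obtain ⟨g, hg⟩ := hR.2 (fun i j => t i - ∑ o ∈ Dᶜ, r i j o) (fun i => by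
    have : ∀ o, ∑ j, r i j o = (y i o : ℤ) - x i o := fun o => by
      have : ((∑ j, r i j o : ℤ) : ℝ) = (y i o : ℝ) - x i o := by
        push_cast
        simp only [hr]
        rw [← mul_sum, h0.2.1, mul_one]
      exact_mod_cast this
    rw [sum_sub_distrib, sum_comm]
    simp only [this, sum_const, card_univ, Fintype.card_fin, nsmul_eq_mul]
    linarith [hE i]) (fun i j => by
    have h3 := sum_le_card_nsmul Dᶜ (r i j) _ fun o _ => hrb i j o
    have h4 := card_nsmul_le_sum Dᶜ (fun o => (y i o : ℤ) - x i o) _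
      fun o _ => (abs_le.1 (hb i o)).1
    have h5 := hE i
    have hn : (1 : ℤ) ≤ n := by exact_mod_cast i0.pos
    have h6 : (0 : ℤ) ≤ Dᶜ.card * F := by positivity
    rw [nsmul_eq_mul] at h3 h4
    push_cast
    nlinarith)
  have hs : ∀ o, Simplex (if o ∈ D then Pi.single (g o) (1 : ℝ) else fun j => z0 j o) := by
    intro o
    split_ifs
    · exact simplex_single _
    · exact h0.simplex o
  refine ⟨fun j o => (if o ∈ D then Pi.single (g o) (1 : ℝ) else fun j => z0 j o : Fin n → ℝ) j,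
    ⟨fun j o => (hs o).1 j, fun o => (hs o).2, fun i j => ?_⟩, sum_le_sum fun o _ => ?_⟩
  · have hn : (n : ℝ) ≠ 0 := by have := i0.pos; positivity
    have e1 : (bs y D g i j : ℝ) = t i - ∑ o ∈ Dᶜ, ((y i o : ℝ) - x i o) * z0 j o := by
      simp only [← hr]
      exact_mod_cast hg i j
    have e2 : ∑ o, ((y i o : ℝ) - x i o) = n * t i := by exact_mod_cast ht i
    have e3 := h0.2.2 i j
    rw [← sum_add_sum_compl D, sum_eq_zero (fun o ho => by rw [hx i o ho]; simp), zero_add] at e3
    rw [← sum_add_sum_compl D, sum_congr rfl (g := fun o => ((if g o = j then y i o else 0 : ℕ) : ℝ))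
      (fun o ho => by
        simp only [if_pos ho, Pi.single_apply, eq_comm (a := j)]
        split_ifs <;> simp),
      sum_congr (s₁ := Dᶜ) rfl (g := fun o => (y i o : ℝ) * z0 j o) (fun o ho => by
        simp only [if_neg (mem_compl.1 ho)]), ← Nat.cast_sum]
    change (bs y D g i j : ℝ) + _ = _
    simp only [sub_mul, sum_sub_distrib] at e1 e2
    rw [e1, e3, eq_div_iff hn]
    field_simp
    linarith
  · by_cases ho : o ∈ D
    · simp only [if_pos ho]
      rw [cost_single]; exact Nat.zero_le _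
    · simp only [if_neg ho, le_refl]

end Pool.Agent.Lib.MP_5a17c4_lc
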