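import Pool.Agent.Lib.MP_5a17c4_lc.Check

/-!
The randomised reduction: a constant fraction of the ball has, checkably, the right answer.
-/

set_option autoImplicit false

namespace Pool.Agent.Lib.MP_5a17c4_lc

open Finset Pool.Agent.Shared.PolyTime Pool.Agent.Shared.PartitionNP

variable {n : ℕ}

/-- The objects that may be shared. -/
def zs (n m Λ : ℕ) : Finset (Fin m) := univ.filter fun o => (o : ℕ) < n * Λ ∧ (o : ℕ) % Λ < n

/-- The checkable condition. -/
def Good {m : ℕ} (Λ F : ℕ) (x y : Inst n m) : Prop :=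
  F = 0 ∨ Faith x y (dum m (n * Λ)) (zs n m Λ) (3 * n).factorial (2 * (n * Λ) * F)

/-- The inverse density of the checkable condition. -/
def dens (n : ℕ) : ℕ := 2 * (2 * ((3 * n).factorial + n) + 1) ^ (n * (n * n + n))

theorem card_zs (m Λ : ℕ) : (zs n m Λ).card ≤ n * n := by
  have : n * n = (range n ×ˢ range n).card := by simp
  rw [this]
  refine card_le_card_of_injOn (fun o => ((o : ℕ) / Λ, (o : ℕ) % Λ)) (fun o ho => ?_)
    fun o _ o' _ e => Fin.ext ?_
  · obtain ⟨h1, h2⟩ := (mem_filter.1 (mem_coe.1 ho)).2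
    have hΛ : 0 < Λ := Nat.pos_of_ne_zero fun h => by simp [h] at h1
    simp only [coe_product, coe_range, Set.mem_prod, Set.mem_Iio]
    exact ⟨(Nat.div_lt_iff_lt_mul hΛ).2 h1, h2⟩
  · obtain ⟨h1, h2⟩ := Prod.ext_iff.1 e
    simp only at h1 h2
    rw [← Nat.div_add_mod o Λ, ← Nat.div_add_mod o' Λ, h1, h2]

theorem card_dum_compl {m d : ℕ} (h : d ≤ m) : (dum m d)ᶜ.card = d := by
  have : (dum m d)ᶜ = univ.filter fun o : Fin m => (o : ℕ) < d := by
    ext o; simp [dum]
  rw [this, card_lt _ h]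

open Classical in
theorem exact_reduction {L : List Bool → Bool} (hL : L ∈ N68a2faeb.NP) (μ : Bool) (i0 : Fin n)
    {q : Fin n → ℕ} (hq : Adm μ i0 q) {c : ℝ} (hc : 0 < c) (fq : Polynomial ℕ) (l0 : ℕ) :
    ∃ (lp mp : Polynomial ℕ) (E : List Bool → ℕ → ℕ → ℕ),
      PT (fun a : List Bool × ℕ × ℕ => E a.1 a.2.1 a.2.2) ∧ ∀ x Λ m Fm (X : Inst n m),
        Λ = lp.eval x.length → m = mp.eval Λ → Fm = fq.eval (m * n) →
        (X = fun (i : Fin n) (o : Fin m) => E x i o) →
        l0 ≤ m ∧ 2 * (n * m) * (2 * Fm + 1) ≤ 2 ^ Λ ∧ 2 * Fm + 1 ≤ 2 ^ Λ ∧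
        (∀ i o, X i o + Fm ≤ ⌊(2 : ℝ) ^ (c * (m * n : ℕ))⌋₊) ∧
        (∀ i, ∀ o ∈ dum m (n * Λ), X i o = 0) ∧
        (∀ y, Near X y Fm → Cons μ n (∑ i, q i) m y → L x = true) ∧
        (∀ F, ∀ y ∈ om X F, Good Λ F X y → L x = true → Cons μ n (∑ i, q i) m y) ∧
        ∀ F ≤ Fm, (om X F).card ≤ dens n * ((om X F).filter (Good Λ F X)).card := by
  let M : ℕ → ℕ := fun l => n * l + 2 * (n * (2 * (n * l) + l ^ (n - 1)))
  let h : ℕ → ℕ := fun l => 4 * (n * M l) * l ^ (n - 1) + 1
  let Mp : Polynomial ℕ := Polynomial.C n * Polynomial.X + 2 * (Polynomial.C n *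
    (2 * (Polynomial.C n * Polynomial.X) + Polynomial.X ^ (n - 1)))
  let mp : Polynomial ℕ := Polynomial.C n * Polynomial.X + (Polynomial.C n + Polynomial.C n * Mp *
    (4 * (Polynomial.C n * Mp) * Polynomial.X ^ (n - 1) + 1) * Polynomial.X) +
    Polynomial.X * Polynomial.X
  have hmp : ∀ l, mp.eval l = n * l + (n + n * M l * h l * l) + l * l := by
    intro l; simp [mp, Mp, M, h]
  obtain ⟨C, hC⟩ := ev_le (fun l => (l ^ n * fq.eval (mp.eval l * n) + 1) ^ n + 4 * (n * M l) * h l +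
    2 * (n * mp.eval l) * (2 * fq.eval (mp.eval l * n) + 1) + (2 * fq.eval (mp.eval l * n) + 1))
    (by simp only [M, h]; fun_prop)
  obtain ⟨lp, E, hE, H⟩ := exists_centre hL μ i0 i0 hq hc fq mp
    (fun l => by rw [hmp]; omega) 0 (by omega) (l0 + C)
  refine ⟨lp, mp, E, hE, fun x Λ m Fm X e1 e2 e3 e4 => ?_⟩
  obtain ⟨hl0, hΛ2, hΛn, hbox, g, K, hK, hEe, hf, hcore, -, hW⟩ := H x Λ m Fm e1 e2 e3
  have h1 := hC Λ (by omega)
  simp only [← e2, ← e3] at h1
  rw [hmp] at e2
  have hnm : n * Λ ≤ m := by omega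
  have hΛΛ : Λ ≤ Λ * Λ := Nat.le_mul_self Λ
  have hm0 : 0 < m := by omega
  have hx := isCentre_entry hnm (by omega) g K 0 i0 ⟨0, hm0⟩
  have eX : X = fun (i : Fin n) (o : Fin m) => entry g Λ K 0 i0 (⟨0, hm0⟩ : Fin m) i o := by
    rw [e4]
    funext i o
    rw [hEe]
    simp [entry]
  rw [← eX] at hx
  have hD : ∀ i, ∀ o ∈ dum m (n * Λ), X i o = 0 := by
    intro i o ho
    have h2 : n * Λ ≤ o := (mem_filter.1 ho).2
    have h3 : n ≤ (o : ℕ) / Λ := (Nat.le_div_iff_mul_le (by omega)).2 h2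
    have := i.2
    simp only [eX, entry, ite_self, add_zero]
    rw [if_neg (by omega), mul_zero]
  refine ⟨by omega, by omega, by omega, fun i o => e4 ▸ hbox i o, hD,
    fun y hy => no_of_cons hx hy (lt_of_le_of_lt (Nat.mul_le_mul_left _ (by omega)) hK) hf hcore,
    fun F y hy hg hl => ?_, fun F hF => ?_⟩
  · obtain ⟨W, hW, -⟩ := hW hl
    obtain ⟨z0, hz0, hcost, hz1, hz2⟩ := exists_base hx hW (Or.inl rfl)
    rcases hg with rfl | ⟨g1, g2, g3⟩
    · have : y = X := by
        funext i o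
        have := mem_om.1 hy i o
        omega
      exact ⟨z0, this ▸ hz0, hcost⟩
    · refine (exact_yes (μ := μ) i0 hz0 hD (N := (3 * n).factorial)
        (Z := zs n m Λ) (fun j o => ?_) (fun o ho => ?_) (mem_om'.1 hy) g1 g2
        (by rw [card_dum_compl hnm]; exact g3)).imp fun z hz => ⟨hz.1, hz.2.trans hcost⟩
      · by_cases ho : o ∈ univ.map (emb hnm)
        · obtain ⟨⟨i, p⟩, -, rfl⟩ := mem_map.1 ho
          rw [congrFun (hz1 i p) j]
          exact (hW i).den p j
        · rw [congrFun (hz2 o ho) j]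
          exact den_single _ _
      · by_cases ho' : o ∈ univ.map (emb hnm)
        · have h2 := (mem_emb hnm o).1 ho'
          obtain ⟨⟨i, p⟩, -, rfl⟩ := mem_map.1 ho'
          rw [hz1]
          refine (hW i).wh p (not_lt.1 fun hp => ho (mem_filter.2 ⟨mem_univ _, h2, ?_⟩))
          rw [emb_val, Nat.mul_add_mod_self_right, Nat.mod_eq_of_lt p.2]
          exact hp
        · exact ⟨_, hz2 o ho'⟩
  · rcases Nat.eq_zero_or_pos F with rfl | hF0
    · rw [filter_true_of_mem (p := Good Λ 0 X) fun _ _ => Or.inl rfl]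
      exact Nat.le_mul_of_pos_left _ (by unfold dens; positivity)
    · have h2 := faith_count (x := X) (N := (3 * n).factorial) (l := Λ) (ρ := 2 * (n * Λ)) i0 hF0
        (Nat.factorial_pos _) (D := dum m (n * Λ)) (Z := zs n m Λ)
        (disjoint_left.2 fun o h1 h2 => by
          have := (mem_filter.1 h1).2.1
          have := (mem_filter.1 h2).2
          omega) hD (M := M Λ) (h := h Λ) rfl rfl
        (lt_of_le_of_lt (Nat.pow_le_pow_left (Nat.add_le_add_right (Nat.mul_le_mul_left _ hF) 1) n)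
          (by omega)) (by omega) (by omega) (by
          have a1 := card_add_card_compl (dum m (n * Λ))
          rw [card_dum_compl hnm, Fintype.card_fin] at a1
          omega)
      refine h2.trans (Nat.mul_le_mul ?_ (card_le_card fun y hy => ?_))
      · refine Nat.mul_le_mul_left _ (Nat.pow_le_pow_right (by omega) (Nat.mul_le_mul_left _ ?_))
        exact Nat.add_le_add_right (card_zs m Λ) _
      · exact mem_filter.2 ⟨(mem_filter.1 hy).1, Or.inr (mem_filter.1 hy).2⟩

/-- A matrix as a list of rows. -/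
def mat (n m : ℕ) (E : ℕ → ℕ → ℕ) : List (List ℕ) :=
  (List.range n).map fun i => (List.range m).map fun o => E i o

theorem inst_mat (m : ℕ) (E : ℕ → ℕ → ℕ) :
    inst n m (mat n m E) = fun (i : Fin n) (o : Fin m) => E i o := by
  funext i o
  simp only [inst, ent, mat, getD_range]

theorem pt_mat {α : Type} [N487b59b3 α] {m : α → ℕ} (hm : PT m) (hm' : PB m)
    {E : α → ℕ → ℕ → ℕ} (hE : PT (fun a : α × ℕ × ℕ => E a.1 a.2.1 a.2.2)) :
    PT (fun a => mat n (m a) (E a)) := by
  refine PT.map (PT.const _) (PT.map ((PT.range hm hm').comp' PT.id'.fst) ?_)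
  exact hE.comp' (f := fun p : (α × ℕ) × ℕ => (p.1.1, p.1.2, p.2)) (by fun_prop)

/-- The divisibility tests. -/
def chkDiv (n Λ : ℕ) (X Y : List (List ℕ)) (A : List ℕ) : Bool :=
  ((List.range n).all fun i => A.all fun o => !(decide (o < n * Λ) && decide (o % Λ < n)) ||
    ent X i o % (3 * n).factorial == ent Y i o % (3 * n).factorial) &&
  (List.range n).all fun i => (A.map fun o => ent X i o).sum % n == (A.map fun o => ent Y i o).sum % n

/-- The test for the checkable condition. -/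
def chkGood (n m Λ F : ℕ) (X Y : List (List ℕ)) : Bool :=
  F == 0 || (chkDiv n Λ X Y (List.range m) && chkRich n (m * F + 1) Y m (n * Λ) (2 * (n * Λ) * F))

theorem chkGood_pt {α : Type} [N487b59b3 α] {m Λ F : α → ℕ} {X Y : α → List (List ℕ)}
    (hm : PT m) (hm' : PB m) (hΛ : PT Λ) (hF : PT F) (hF' : PB F) (hX : PT X) (hY : PT Y) :
    PT (fun a => chkGood n (m a) (Λ a) (F a) (X a) (Y a)) := by
  have h1 : PT (fun p : ℕ × List (List ℕ) × List (List ℕ) × List ℕ =>
      chkDiv n p.1 p.2.1 p.2.2.1 p.2.2.2) := by unfold chkDiv; fun_prop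
  refine PT.or (by fun_prop) (PT.and (h1.comp' (hΛ.pair (hX.pair (hY.pair (PT.range hm hm')))))
    (chkRich_pt (by fun_prop) (by fun_prop) hY hm hm' (by fun_prop) (by fun_prop)))

theorem chkGood_iff (i0 : Fin n) {m Λ F : ℕ} {X Y : List (List ℕ)}
    (hD : ∀ i, ∀ o ∈ dum m (n * Λ), inst n m X i o = 0) (hy : inst n m Y ∈ om (inst n m X) F) :
    chkGood n m Λ F X Y = true ↔ Good Λ F (inst n m X) (inst n m Y) := by
  unfold chkGood Good Faith chkDiv
  rw [Bool.or_eq_true, beq_iff_eq, Bool.and_eq_true, Bool.and_eq_true, chkRich_iff i0, and_assoc]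
  · refine or_congr_right (and_congr ?_ (and_congr_left fun _ => ?_))
    · simp only [all_range, zs, mem_filter, mem_univ, true_and, ← Nat.modEq_iff_dvd,
        Bool.or_eq_true, Bool.not_eq_true', ← Bool.not_eq_true, Bool.and_eq_true, decide_eq_true_eq,
        beq_iff_eq, ← imp_iff_not_or]
      rfl
    · simp only [all_range, list_sum_range, sum_range, beq_iff_eq, sum_sub_distrib,
        ← Nat.cast_sum, ← Nat.modEq_iff_dvd]
      rfl
  · intro i
    have := sum_le_card_nsmul (dum m (n * Λ)) (fun o => inst n m Y i o) F fun o ho => by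
      have := (mem_om.1 hy i o).2
      have := hD i o ho
      omega
    have h2 : (dum m (n * Λ)).card ≤ m := by simpa using card_le_univ (dum m (n * Λ))
    have := Nat.mul_le_mul_right F h2
    rw [smul_eq_mul] at *
    omega

end Pool.Agent.Lib.MP_5a17c4_lc
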