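import Pool.Agent.Lib.MP_5a17c4_lc.Cost

/-!
Gadgets that force a prescribed amount of sharing.
-/

set_option autoImplicit false

namespace Pool.Agent.Lib.MP_5a17c4_lc

open Finset

variable {n : ℕ}

theorem sum_cut {M : Type} [AddCommMonoid M] {Λ l : ℕ} (h : l ≤ Λ) (F : ℕ → M)
    (hF : ∀ p, l ≤ p → F p = 0) : ∑ p ∈ range Λ, F p = ∑ p ∈ range l, F p :=
  (sum_subset (range_subset_range.2 h) fun p _ hp => hF p (by simpa using hp)).symm

/-- `q` large objects -/
def gA (q p : ℕ) : ℕ := if p < q then (if p = 0 then 3 else 2) else 0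

theorem sum_gA_le {Λ : ℕ} (q : ℕ) : ∑ p ∈ range Λ, (gA q p : ℝ) ≤ 2 * q + 1 := by
  have : ∀ p ∈ range Λ, (gA q p : ℝ) ≤ (if p ∈ range q then 2 else 0) + if p = 0 then 1 else 0 := by
    intro p _
    unfold gA
    simp only [mem_range]
    split_ifs <;> norm_num
  refine (sum_le_sum this).trans ?_
  rw [sum_add_distrib, sum_ite_mem, sum_ite_eq', sum_const, nsmul_eq_mul]
  have h1 : ((range Λ ∩ range q).card : ℝ) ≤ q := by
    exact_mod_cast (card_le_card inter_subset_right).trans (card_range q).le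
  split_ifs <;> linarith

theorem force_gA {Λ q : ℕ} (hq : q + 1 ≤ n) (hΛ : n ≤ Λ) : Force true n Λ (gA q) q := by
  intro w hw
  have h1 : ∀ p ∈ range q, 1 ≤ cost true (w p) := by
    intro p hp
    have hp' := mem_range.1 hp
    by_contra hc
    obtain ⟨j, hj⟩ := whole (μ := true) (hw.1 p (by omega)) (by omega)
    have h2 := hw.term j (S := {p}) (by simp; omega)
    rw [sum_singleton, hj] at h2
    have h3 : (2 : ℝ) ≤ gA q p := by
      unfold gA; rw [if_pos hp']; split_ifs <;> norm_num
    have h4 := sum_gA_le (Λ := Λ) q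
    have hn : (0 : ℝ) < n := by exact_mod_cast (by omega : 0 < n)
    have hq' : (q : ℝ) + 1 ≤ n := by exact_mod_cast hq
    simp only [Pi.single_eq_same, mul_one] at h2
    have h5 : (∑ p ∈ range Λ, (gA q p : ℝ)) / n + 1 / (2 * n) < 2 := by
      rw [div_add_div _ _ hn.ne' (by positivity), div_lt_iff₀ (by positivity)]
      nlinarith
    linarith
  calc q = ∑ p ∈ range q, 1 := by simp
    _ ≤ ∑ p ∈ range q, cost true (w p) := sum_le_sum h1
    _ ≤ _ := sum_le_sum_of_subset (range_subset_range.2 (by omega))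

theorem base_gA {Λ q : ℕ} (hq : q + 1 ≤ n) (hΛ : n ≤ Λ) :
    ∃ w : ℕ → Fin n → ℝ, Base true Λ (gA q) q w ∧ ∀ p < q, ∀ j, w p j = 1 / n := by
  have hn : 0 < n := by omega
  refine ⟨fun p => if p < q then fun _ => 1 / n else Pi.single ⟨0, hn⟩ 1,
    ⟨fun p => ?_, fun j => ?_, ?_, fun p j => ?_, fun p hp => ?_⟩, fun p hp j => by simp [hp]⟩
  · split_ifs
    · exact simplex_const hn
    · exact simplex_single _
  · rw [sum_div]
    refine sum_congr rfl fun p _ => ?_
    by_cases h : p < q
    · simp only [if_pos h]; ring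
    · simp [gA, h]
  · rw [sum_cut (l := q) (by omega) _ (fun p hp => by
      rw [if_neg (by omega), cost_single])]
    calc _ ≤ ∑ p ∈ range q, 1 := sum_le_sum fun p _ => cost_true_le _
      _ = q := by simp
  · split_ifs
    · simpa using den_div (n := n) 1 n hn (by omega)
    · exact den_single _ _
  · exact ⟨_, if_neg (by omega)⟩

/-- one giant object and fillers -/
def gB (n q p : ℕ) : ℕ := if p = 0 then q + 1 else if p < n - q then 1 else 0

theorem sum_gB {Λ q : ℕ} (hq : q + 1 ≤ n) (hΛ : n ≤ Λ) :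
    ∑ p ∈ range Λ, (gB n q p : ℝ) = n := by
  obtain ⟨r, rfl⟩ : ∃ r, n = q + 1 + r := ⟨n - (q + 1), by omega⟩
  rw [sum_cut (l := r + 1) (by omega) _ (fun p hp => by
    unfold gB; rw [if_neg (by omega), if_neg (by omega)]; simp), sum_range_succ']
  rw [sum_congr rfl (g := fun _ => 1) (fun p hp => by
    have := mem_range.1 hp
    unfold gB; rw [if_neg (by omega), if_pos (by omega)]; simp)]
  simp [gB]; ring

theorem force_gB {Λ q : ℕ} (hq : q + 1 ≤ n) (hΛ : n ≤ Λ) : Force false n Λ (gB n q) q := by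
  classical
  intro w hw
  have hn : (0 : ℝ) < n := by exact_mod_cast (by omega : 0 < n)
  have hq' : (q : ℝ) + 1 ≤ n := by exact_mod_cast hq
  have h0 : (0 : ℝ) ≤ q := Nat.cast_nonneg _
  have h1 : ∀ j, w 0 j ≤ (1 + 1 / (2 * n)) / (q + 1) := by
    intro j
    have h2 := hw.term j (S := {0}) (by simp; omega)
    rw [sum_singleton, sum_gB hq hΛ, div_self hn.ne'] at h2
    rw [le_div_iff₀ (by positivity)]
    simp only [gB, if_true] at h2
    push_cast at h2
    linarith
  have h3 := one_le_supp (hw.1 0 (by omega)) h1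
  have h4 : q < (univ.filter fun i => 0 < w 0 i).card := by
    by_contra hc
    have h5 : ((univ.filter fun i => 0 < w 0 i).card : ℝ) ≤ q := by exact_mod_cast not_lt.1 hc
    have h6 := mul_le_mul_of_nonneg_right h5 (by positivity : 0 ≤ (1 + 1 / (2 * n : ℝ)) / (q + 1))
    have h7 : (q : ℝ) * ((1 + 1 / (2 * n)) / (q + 1)) < 1 := by
      rw [← mul_div_assoc, div_lt_one (by positivity), mul_add, mul_one_div]
      have : (q : ℝ) / (2 * n) < 1 := by rw [div_lt_one (by positivity)]; linarith
      linarith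
    linarith
  calc q ≤ cost false (w 0) := by rw [cost_false_eq]; omega
    _ ≤ _ := single_le_sum (f := fun p => cost false (w p)) (fun _ _ => Nat.zero_le _)
      (mem_range.2 (by omega))

/-- the whole object goes to bundle number `a` -/
noncomputable def giv (n a : ℕ) : Fin n → ℝ := fun j => if (j : ℕ) = a then 1 else 0

theorem giv_eq {a : ℕ} (h : a < n) : giv n a = Pi.single ⟨a, h⟩ 1 := by
  funext j
  unfold giv
  by_cases e : j = ⟨a, h⟩
  · simp [e]
  · rw [if_neg (fun h' => e (Fin.ext h')), Pi.single_eq_of_ne e]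

theorem card_lt (a : ℕ) (h : a ≤ n) : (univ.filter fun j : Fin n => (j : ℕ) < a).card = a := by
  rw [Fin.card_filter_val_lt, min_eq_right h]

theorem base_gB {Λ q : ℕ} (hq : q + 1 ≤ n) (hΛ : n ≤ Λ) :
    ∃ w : ℕ → Fin n → ℝ, Base false Λ (gB n q) q w := by
  have hn : 0 < n := by omega
  have hn' : (n : ℝ) ≠ 0 := by positivity
  have hw : ∀ p, ∃ j : Fin n, (if p < n - q then giv n (q + p) else giv n 0) = Pi.single j 1 := by
    intro p
    split_ifs with h
    · exact ⟨_, giv_eq (by omega)⟩
    · exact ⟨_, giv_eq hn⟩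
  refine ⟨fun p => if p = 0 then fun j => if (j : ℕ) < q + 1 then 1 / (q + 1 : ℕ) else 0
    else if p < n - q then giv n (q + p) else giv n 0,
    ⟨fun p => ?_, fun j => ?_, ?_, fun p j => ?_, fun p hp => ?_⟩⟩
  · by_cases h : p = 0
    · rw [if_pos h]
      refine ⟨fun j => by beta_reduce; split_ifs <;> positivity, ?_⟩
      rw [← sum_filter, sum_const, card_lt _ hq, nsmul_eq_mul]
      field_simp
    · obtain ⟨j, hj⟩ := hw p
      rw [if_neg h, hj]
      exact simplex_single j
  · rw [sum_gB hq hΛ, div_self hn']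
    obtain ⟨r, hr⟩ : ∃ r, n = q + 1 + r := ⟨n - (q + 1), by omega⟩
    rw [sum_cut (l := r + 1) (by omega) _ (fun p hp => by
      unfold gB; rw [if_neg (by omega), if_neg (by omega)]; simp), sum_range_succ']
    rw [sum_congr rfl (g := fun p => if p = (j : ℕ) - (q + 1) then
      (if (j : ℕ) < q + 1 then 0 else 1) else 0) (fun p hp => by
      have := mem_range.1 hp
      unfold gB giv
      rw [if_neg (by omega), if_pos (by omega), if_neg (by omega), if_pos (by omega)]
      simp only [Nat.cast_one, one_mul]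
      split_ifs <;> first | rfl | omega)]
    rw [sum_ite_eq']
    have := j.2
    simp only [gB, if_true, mem_range]
    have h0 : ((q + 1 : ℕ) : ℝ) ≠ 0 := by positivity
    split_ifs
    · field_simp; simp
    · simp
    · field_simp; simp
    · omega
  · obtain ⟨Λ, rfl⟩ : ∃ l, Λ = l + 1 := ⟨Λ - 1, by omega⟩
    rw [sum_range_succ', sum_eq_zero (fun p _ => by
      obtain ⟨j, hj⟩ := hw (p + 1)
      rw [if_neg (by omega), hj, cost_single]), if_pos rfl, zero_add]
    have := cost_false_le (w := fun j : Fin n => if (j : ℕ) < q + 1 then (1 : ℝ) / (q + 1 : ℕ)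
      else 0) (univ.filter fun j : Fin n => (j : ℕ) < q + 1) (fun j hj => if_neg (by simpa using hj))
    rw [card_lt _ hq] at this
    omega
  · by_cases h : p = 0
    · simp only [if_pos h]
      split_ifs
      · simpa using den_div (n := n) 1 (q + 1) (by omega) (by omega)
      · exact ⟨0, by simp⟩
    · obtain ⟨i, hi⟩ := hw p
      rw [if_neg h, hi]
      exact den_single _ _
  · rw [if_neg (by omega)]
    exact hw p

end Pool.Agent.Lib.MP_5a17c4_lc
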