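import Pool.Prelude.Def_H_3587d628

/-!
Zero-error probabilistic polynomial time.
-/

set_option autoImplicit false

namespace Pool.Agent.Lib.MP_5a17c4_lc

/-- `L` is in `ZPP` when a polynomial time `R`, given the input and a random string, outputs a
flag and an answer; a raised flag comes with the right answer, and the flag is raised with
probability at least one half. -/
def ZPP : N68a2faeb.DecisionComplexityClass :=
  { L | ∃ (p : Polynomial ℕ) (R : List Bool × List Bool → Bool × Bool),
      N68a2faeb.IsPolyTime R ∧ ∀ x,
        (∀ r : Fin (p.eval x.length) → Bool,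
          (R (x, List.ofFn r)).1 = true → (R (x, List.ofFn r)).2 = L x) ∧
        (1 : ℚ) / 2 ≤ ((Finset.univ.filter fun r : Fin (p.eval x.length) → Bool =>
          (R (x, List.ofFn r)).1 = true).card : ℚ) / 2 ^ p.eval x.length }

end Pool.Agent.Lib.MP_5a17c4_lc
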