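import Pool.Agent.Lib.MP_5a17c4_lc.Exact
import Pool.Agent.Lib.MP_5a17c4_lc.ZDefs

/-!
Conditions (a) and (b) give `NP = ZPP`.
-/

set_option autoImplicit false

namespace Pool.Agent.Lib.MP_5a17c4_lc

open Finset Turing Filter Pool.Agent.Shared.PolyTime

variable {n : ℕ}

theorem ZPP_subset_NP : ZPP ⊆ N68a2faeb.NP := by
  rintro L ⟨p, R, hR, h⟩
  have hR' : PT R := PT.ofIsPolyTime hR
  refine ⟨p, fun a => (a.2.length == p.eval a.1.length) && ((R a).1 && (R a).2),
    PT.isPolyTime (by fun_prop), fun x => ⟨fun hx => ?_, ?_⟩⟩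
  · obtain ⟨h1, h2⟩ := h x
    obtain ⟨r, hr⟩ : (univ.filter fun r : Fin (p.eval x.length) → Bool =>
        (R (x, List.ofFn r)).1 = true).Nonempty := by
      rw [← card_pos, Nat.pos_iff_ne_zero]
      intro h0
      rw [h0] at h2
      norm_num at h2
    have h3 := (mem_filter.1 hr).2
    exact ⟨List.ofFn r, by simp, by simp [h3, h1 r h3, hx]⟩
  · rintro ⟨w, -, hw⟩
    simp only [Bool.and_eq_true, beq_iff_eq] at hw
    obtain ⟨h1, h2, h3⟩ := hw
    have h4 := (h x).1
    rw [← h1] at h4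
    have h5 := h4 w.get
    rw [List.ofFn_get] at h5
    rw [← h5 h2, h3]

theorem ball_eq {c : ℝ} {m F : ℕ} {x : Inst n m}
    (h : ∀ i o, x i o + F ≤ ⌊(2 : ℝ) ^ (c * (m * n : ℕ))⌋₊) : ball c x F = om x F := by
  ext y
  rw [mem_ball, ← mem_om', and_iff_right_iff_imp]
  exact fun hy => mem_box.2 fun i o => (mem_om.1 hy i o).2.trans (h i o)

theorem condB_nat {c : ℝ} {f : ℕ → ℕ} {G : ∀ m, Inst n m → Finset (Inst n m)} (h : CondB c f G)
    (C : ℕ) (hC : 0 < C) : ∃ m0, ∀ m, m0 ≤ m → ∀ x ∈ box c n m,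
      C * (ball c x (f (m * n))).card ≤ C * (G m x).card + (ball c x (f (m * n))).card := by
  have hC' : (0 : ℝ) < C := by exact_mod_cast hC
  obtain ⟨m0, h0⟩ := eventually_atTop.1 (h.eventually (lt_mem_nhds
    (show (1 : ℝ) - 1 / C < 1 by have : (0 : ℝ) < 1 / C := by positivity
                                 linarith)))
  refine ⟨m0, fun m hm x hx => ?_⟩
  have h1 := (h0 m hm).trans_le (ciInf_le (Set.finite_range _).bddBelow ⟨x, hx⟩)
  have h2 : (0 : ℝ) < (ball c x (f (m * n))).card := by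
    exact_mod_cast card_pos.2 ⟨x, mem_ball.2 ⟨hx, fun i o => by simp⟩⟩
  simp only at h1
  rw [lt_div_iff₀ h2] at h1
  have h3 := mul_lt_mul_of_pos_left h1 hC'
  rw [← mul_assoc, mul_sub, mul_one_div_cancel hC'.ne'] at h3
  have : (C : ℝ) * (ball c x (f (m * n))).card ≤ C * (G m x).card + (ball c x (f (m * n))).card := by
    linarith
  exact_mod_cast this

theorem zpp_main {μ : Bool} {i0 : Fin n} {q : Fin n → ℕ} (hq : Adm μ i0 q) {c : ℝ} (hc : 0 < c)
    {A : TM2ComputableAux Bool Bool} {f : ℕ → ℕ} {G : ∀ m, Inst n m → Finset (Inst n m)}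
    (hA : Decides c (Cons μ n (∑ i, q i)) A) (hG : InBall c f G) (ha : CondA c A G)
    (hb : CondB c f G) : N68a2faeb.NP = ZPP := by
  classical
  refine Set.Subset.antisymm (fun L hL => ?_) ZPP_subset_NP
  obtain ⟨⟨fq, hf⟩, hG⟩ := hG
  obtain ⟨pA, ha⟩ := ha
  have hd : 0 < dens n := by unfold dens; positivity
  obtain ⟨m0, hb⟩ := condB_nat hb (2 * dens n) (by omega)
  obtain ⟨lp, mp, E, hE, H⟩ := exact_reduction hL μ i0 hq hc fq m0
  obtain ⟨run, hr1, hr2⟩ := exists_clocked A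
  let Λ : List Bool → ℕ := fun x => lp.eval x.length
  let m : List Bool → ℕ := fun x => mp.eval (Λ x)
  let Fm : List Bool → ℕ := fun x => fq.eval (m x * n)
  let S : List Bool → List Bool → ℕ → ℕ → ℕ → ℕ → ℕ := fun x r F ρ i o =>
    E x i o - F + chunk r (Λ x) (ρ * (n * m x) + (i * m x + o)) % (E x i o + F + 1 - (E x i o - F))
  let trial : List Bool → List Bool → ℕ → ℕ → Option Bool := fun x r F ρ =>
    if chkGood n (m x) (Λ x) F (mat n (m x) (E x)) (mat n (m x) (S x r F ρ)) = true then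
      (run (enc (fun (i : Fin n) (o : Fin (m x)) => S x r F ρ i o),
        List.replicate (pA.eval (m x * n)) true)).map fun l => l == [true]
    else none
  let out : List Bool × List Bool → Option Bool := fun a =>
    (List.range (Fm a.1 + 1)).findSome? fun F => (List.range (2 * (2 * dens n))).findSome? fun ρ =>
      trial a.1 a.2 (min F (Fm a.1)) ρ
  have hout : PT out := by
    refine PT.findSome? (by simp only [Fm, m, Λ]; fun_prop) (PT.findSome? (PT.const _) ?_)
    have h1 : PT (fun a : ((List Bool × List Bool) × ℕ) × ℕ => m a.1.1.1) := by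
      simp only [m, Λ]; fun_prop
    have h2 : PB (fun a : ((List Bool × List Bool) × ℕ) × ℕ => m a.1.1.1) := by
      simp only [m, Λ]; fun_prop
    have h3 : PT (fun b : (((List Bool × List Bool) × ℕ) × ℕ) × ℕ × ℕ =>
        E b.1.1.1.1 b.2.1 b.2.2) :=
      hE.comp' (f := fun b : (((List Bool × List Bool) × ℕ) × ℕ) × ℕ × ℕ => (b.1.1.1.1, b.2))
        (by fun_prop)
    have h4 : PT (fun b : (((List Bool × List Bool) × ℕ) × ℕ) × ℕ × ℕ =>
        S b.1.1.1.1 b.1.1.1.2 (min b.1.1.2 (Fm b.1.1.1.1)) b.1.2 b.2.1 b.2.2) := by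
      have h5 : PT (fun b : (((List Bool × List Bool) × ℕ) × ℕ) × ℕ × ℕ =>
          min b.1.1.2 (Fm b.1.1.1.1)) := by simp only [Fm, m, Λ]; fun_prop
      refine PT.add (h3.sub h5) (PT.mod ?_ (((h3.add h5).add (PT.const 1)).sub (h3.sub h5)))
      simp only [chunk, m, Λ]; fun_prop
    refine PT.ite (PT.decide_bool (chkGood_pt h1 h2 ?_ ?_ ?_ (pt_mat h1 h2 h3) (pt_mat h1 h2 h4)))
      (PT.omap (hr1.comp' ((pt_enc h1 h2 h4).pair ?_)) ?_) (PT.const _)
    all_goals try simp only [Fm, m, Λ]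
    all_goals fun_prop
  refine ⟨Polynomial.C (2 * (2 * dens n)) * (Polynomial.C n * mp.comp lp) * lp,
    fun a => ((out a).isSome, (out a).getD false), PT.isPolyTime (by fun_prop), fun x => ?_⟩
  obtain ⟨h1, h2, h3, h4, h5, h6, h7, h8⟩ := H x (Λ x) (m x) (Fm x) _ rfl rfl rfl rfl
  set X : Inst n (m x) := fun i o => E x i o with hX
  have hS : ∀ r F ρ, (fun (i : Fin n) (o : Fin (m x)) => S x r F ρ i o) = samp X F
      (fun i o => chunk r (Λ x) (ρ * (n * m x) + (i * m x + o))) := fun _ _ _ => rfl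
  have hchk : ∀ r F ρ, chkGood n (m x) (Λ x) F (mat n (m x) (E x)) (mat n (m x) (S x r F ρ)) = true
      ↔ Good (Λ x) F X (fun (i : Fin n) (o : Fin (m x)) => S x r F ρ i o) := by
    intro r F ρ
    rw [chkGood_iff i0 (by rw [inst_mat]; exact h5)
      (by rw [inst_mat, inst_mat, hS]; exact samp_mem _ _ _), inst_mat, inst_mat]
  have hbox : ∀ F ≤ Fm x, ∀ y ∈ om X F, y ∈ box c n (m x) := fun F hF y hy =>
    mem_box.2 fun i o => (mem_om.1 hy i o).2.trans ((Nat.add_le_add_left hF _).trans (h4 i o))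
  have hsound : ∀ r, ∀ F ≤ Fm x, ∀ ρ b, trial x r F ρ = some b → b = L x := by
    intro r F hF ρ b hb
    simp only [trial] at hb
    split_ifs at hb with hg
    have hy : (fun (i : Fin n) (o : Fin (m x)) => S x r F ρ i o) ∈ om X F := hS r F ρ ▸ samp_mem _ _ _
    obtain ⟨b', hb1, hb2⟩ := Option.map_eq_some_iff.1 hb
    obtain ⟨b0, e1, e2, -⟩ := run_eq hA hr2 (hbox F hF _ hy)
      (List.replicate (pA.eval (m x * n)) true)
    have e3 := h6 _ ((mem_om'.1 hy).mono hF)
    have e4 := h7 F _ hy ((hchk r F ρ).1 hg)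
    rw [← hb2, e2 _ hb1]
    have e5 : b0 = L x := Bool.eq_iff_iff.2 (e1.trans ⟨e3, e4⟩)
    rw [← e5]
    cases b0 <;> rfl
  refine ⟨fun r hr => ?_, ?_⟩
  · obtain ⟨b, hb⟩ := Option.isSome_iff_exists.1 hr
    simp only [hb, Option.getD_some]
    obtain ⟨F, -, hF⟩ := List.exists_of_findSome?_eq_some hb
    obtain ⟨ρ, -, hρ⟩ := List.exists_of_findSome?_eq_some hF
    exact hsound _ _ (min_le_right _ _) _ _ hρ
  · have hF : f (m x * n) ≤ Fm x := hf _
    have hXb : X ∈ box c n (m x) := mem_box.2 fun i o => (Nat.le_add_right _ _).trans (h4 i o)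
    have hball : ball c X (f (m x * n)) = om X (f (m x * n)) :=
      ball_eq fun i o => (Nat.add_le_add_left hF _).trans (h4 i o)
    have g1 := hb _ h1 X hXb
    have g2 := hG _ X hXb
    have g3 := h8 _ hF
    rw [hball] at g1 g2
    have g4 := card_union_add_card_inter ((om X (f (m x * n))).filter (Good (Λ x) (f (m x * n)) X))
      (G _ X)
    have g5 := card_le_card (union_subset (filter_subset (Good (Λ x) (f (m x * n)) X) _) g2)
    have g6 := prob_half (x := X) (F := f (m x * n)) (l := Λ x) (C := 2 * dens n)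
      (S := (om X (f (m x * n))).filter (Good (Λ x) (f (m x * n)) X) ∩ G _ X)
      (inter_subset_right.trans g2) (by nlinarith)
      ((Nat.mul_le_mul_left _ (by omega)).trans h2) (by omega)
      (N := (Polynomial.C (2 * (2 * dens n)) * (Polynomial.C n * mp.comp lp) * lp).eval x.length)
      (by simp [m, Λ, Polynomial.eval_comp])
      (fun r => (out (x, List.ofFn r)).isSome = true) (fun r ρ hρ hy => by
        rw [← hS] at hy
        obtain ⟨hy1, hy2⟩ := mem_inter.1 hy
        obtain ⟨hy3, hy4⟩ := mem_filter.1 hy1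
        obtain ⟨b', hb'⟩ := ha _ X hXb _ hy2
        obtain ⟨b0, -, -, e3⟩ := run_eq hA hr2 (hbox _ hF _ hy3)
          (List.replicate (pA.eval (m x * n)) true)
        simp only [out, List.findSome?_isSome_iff, List.mem_range]
        refine ⟨f (m x * n), by omega, ρ, hρ, ?_⟩
        simp only [min_eq_left hF, trial, if_pos ((hchk _ _ _).2 hy4), e3 _ _ hb' (by simp)]
        rfl)
    rw [div_le_div_iff₀ (by norm_num) (by positivity), one_mul]
    exact_mod_cast g6.trans_eq (mul_comm _ _)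

theorem exists_adm_le (μ : Bool) (hn : 2 ≤ n) {s a : ℕ} (hs : s ≤ a + (n - 1) * (n - 1))
    (ha : ∀ b ≤ a, if μ then b + 3 ≤ n ∨ (n = 2 ∧ b = 0) else b + 2 ≤ n) :
    ∃ (i0 : Fin n) (q : Fin n → ℕ), Adm μ i0 q ∧ ∑ i, q i = s := by
  obtain ⟨k, rfl⟩ : ∃ k, n = k + 1 := ⟨n - 1, by omega⟩
  obtain ⟨q, hq, rfl⟩ := exists_adm (n := k + 1) s (fun _ => 0)
    (fun i => if i = 0 then a else k) (fun i => Nat.zero_le _) (by simp)
    (by
      rw [Fin.sum_univ_succ, sum_congr rfl (g := fun _ => k) (fun i _ =>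
        if_neg (Fin.succ_ne_zero _))]
      simpa using hs)
  have h0 : q 0 ≤ a := by simpa using (hq 0).2
  refine ⟨0, q, ⟨fun i => ?_, ha _ h0⟩, rfl⟩
  have h1 := (hq i).2
  have h2 := ha a le_rfl
  split_ifs at h1 h2 <;> omega

theorem zpp_sh {s : ℕ} (hn : 2 ≤ n) (hs : s < n * (n - 1)) {c : ℝ} (hc : 0 < c)
    {A : TM2ComputableAux Bool Bool} {f : ℕ → ℕ} {G : ∀ m, Inst n m → Finset (Inst n m)}
    (hA : Decides c (ConsSh n s) A) (hG : InBall c f G) (ha : CondA c A G)
    (hb : CondB c f G) : N68a2faeb.NP = ZPP := by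
  obtain ⟨i0, q, hq, rfl⟩ := exists_adm_le false hn (s := s) (a := n - 2) (by
    obtain ⟨k, rfl⟩ : ∃ k, n = k + 2 := ⟨n - 2, by omega⟩
    simp only [Nat.add_sub_cancel, show k + 2 - 1 = k + 1 from rfl] at *
    nlinarith) (fun b hb => by simp only [Bool.false_eq_true, if_false]; omega)
  exact zpp_main hq hc (by simpa only [Decides, cons_false] using hA) hG ha hb

theorem zpp_obj {s : ℕ} (hn : 2 ≤ n) (hs : s < n * (n - 1)) (hs' : n = 2 ∨ s + 1 ≠ n * (n - 1))
    {c : ℝ} (hc : 0 < c)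
    {A : TM2ComputableAux Bool Bool} {f : ℕ → ℕ} {G : ∀ m, Inst n m → Finset (Inst n m)}
    (hA : Decides c (ConsObj n s) A) (hG : InBall c f G) (ha : CondA c A G)
    (hb : CondB c f G) : N68a2faeb.NP = ZPP := by
  obtain ⟨i0, q, hq, rfl⟩ := exists_adm_le true hn (s := s) (a := n - 3) (by
    rcases Nat.lt_or_ge n 3 with h | h
    · obtain rfl : n = 2 := by omega
      omega
    · obtain ⟨k, rfl⟩ : ∃ k, n = k + 3 := ⟨n - 3, by omega⟩
      simp only [Nat.add_sub_cancel, show k + 3 - 1 = k + 2 from rfl] at *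
      have : s + 2 ≤ (k + 3) * (k + 2) := by omega
      nlinarith) (fun b hb => by simp only [if_true]; omega)
  exact zpp_main hq hc (by simpa only [Decides, cons_true] using hA) hG ha hb

end Pool.Agent.Lib.MP_5a17c4_lc
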