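import Pool.Agent.Lib.MP_5a17c4_lc.Setup

/-!
The two forms of the reduction.
-/

set_option autoImplicit false

namespace Pool.Agent.Lib.MP_5a17c4_lc

open Finset Pool.Agent.Shared.PolyTime

variable {n : ℕ}

@[fun_prop] theorem pt_ev {α : Type} [N487b59b3 α] (q : Polynomial ℕ) {g : α → ℕ} (hg : PT g) :
    PT (fun a => q.eval (g a)) := Shared.CookLevin.pt_eval q hg

@[fun_prop] theorem pb_ev {α : Type} [N487b59b3 α] (q : Polynomial ℕ) {g : α → ℕ} (hg : PB g) :
    PB (fun a => q.eval (g a)) := Shared.CookLevin.pb_eval q hg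

theorem ev_le (g : ℕ → ℕ) (h : PB (fun u : List Bool => g u.length)) :
    ∃ C, ∀ l, C ≤ l → g l ≤ 2 ^ l := by
  obtain ⟨C, hC⟩ := MP_8f56c4_lc.H3.PB_le_two_pow h 3
  refine ⟨C, fun l hl => ?_⟩
  simpa using hC l hl (List.replicate l true) (by rw [sz_listBool]; simp)

theorem exists_centre {L : List Bool → Bool} (hL : L ∈ N68a2faeb.NP) (μ : Bool) (i0 i1 : Fin n)
    {q : Fin n → ℕ} (hq : Adm μ i0 q) {c : ℝ} (hc : 0 < c) (fq mp : Polynomial ℕ)
    (hmp : ∀ l, n * l ≤ mp.eval l ∧ l * l ≤ mp.eval l) (δ : ℕ) (hδ : δ ≤ 1) (l0 : ℕ) :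
    ∃ (lp : Polynomial ℕ) (E : List Bool → ℕ → ℕ → ℕ),
      PT (fun a : List Bool × ℕ × ℕ => E a.1 a.2.1 a.2.2) ∧ ∀ x Λ m F, Λ = lp.eval x.length →
        m = mp.eval Λ → F = fq.eval (m * n) →
        l0 ≤ Λ ∧ 2 ≤ Λ ∧ n ≤ Λ ∧ (∀ i o, E x i o + F ≤ ⌊(2 : ℝ) ^ (c * (m * n : ℕ))⌋₊) ∧
        ∃ (g : ℕ → ℕ → ℕ) (K : ℕ), 2 * n * (2 * m * F + (n * F + n * m * F + 1)) < K ∧
        (∀ i o, E x i o = entry g Λ K (δ * (n * F + n * m * F + 1)) i0 (i1 * Λ + 1) i o) ∧
        (∀ i ≠ i0, Force μ n Λ (g i) (q i)) ∧ Core μ n Λ (g i0) (q i0) (L x = true) ∧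
        (μ = true → ∀ i ≠ i0, g i = gA (q i)) ∧
        (L x = true → ∃ W : Fin n → ℕ → Fin n → ℝ, (∀ i : Fin n, Base μ Λ (g i) (q i) (W i)) ∧
          (μ = true → ∀ i ≠ i0, ∀ p < q i, ∀ j, W i p j = 1 / n)) := by
  let F : ℕ → ℕ := fun l => fq.eval (mp.eval l * n)
  let γ : ℕ → ℕ := fun l => n * F l + n * mp.eval l * F l + 1
  let K : ℕ → ℕ := fun l => 2 * n * (2 * mp.eval l * F l + γ l) + 1
  obtain ⟨C, hC⟩ := ev_le (fun l => K l + γ l + F l) (by simp only [K, γ, F]; fun_prop)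
  obtain ⟨C', hC'⟩ := exists_nat_ge (2 / c)
  obtain ⟨lp, G, hG, h⟩ := exists_setup hL μ i0 hq (l0 + 2 + n + C + C')
  refine ⟨lp, fun x i o => entry (G x) (lp.eval x.length) (K (lp.eval x.length))
    (δ * γ (lp.eval x.length)) i0 (i1 * lp.eval x.length + 1) i o, ?_, ?_⟩
  · have h1 : PT (fun a : List Bool × ℕ × ℕ => G a.1 a.2.1 (a.2.2 % lp.eval a.1.length)) :=
      hG.comp' (f := fun a : List Bool × ℕ × ℕ => (a.1, a.2.1, a.2.2 % lp.eval a.1.length))
        (by fun_prop)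
    simp only [entry, K, γ, F]
    refine PT.add (PT.mul (by fun_prop) (PT.ite (by fun_prop) h1 (by fun_prop)))
      (PT.ite (PT.decide_and (by fun_prop) (by fun_prop)) (by fun_prop) (by fun_prop))
  · rintro x _ _ _ rfl rfl rfl
    obtain ⟨h1, h2, h3⟩ := h x
    beta_reduce
    generalize lp.eval x.length = Λ at *
    refine ⟨by omega, by omega, by omega, fun i o => ?_, G x, K Λ, Nat.lt_succ_self _,
      fun _ _ => rfl, h3⟩
    have h4 : K Λ + γ Λ + F Λ ≤ 2 ^ Λ := hC Λ (by omega)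
    have h5 : entry (G x) Λ (K Λ) (δ * γ Λ) i0 (i1 * Λ + 1) i o ≤ K Λ * 2 ^ Λ + γ Λ := by
      unfold entry
      refine Nat.add_le_add (Nat.mul_le_mul_left _ ?_) ?_
      · split_ifs
        · exact h2 _ _
        · exact Nat.zero_le _
      · split_ifs
        · nlinarith
        · exact Nat.zero_le _
    refine le_trans ?_ (le_floor (a := Λ + Λ) ?_)
    · have : 1 ≤ 2 ^ Λ := Nat.one_le_two_pow
      rw [pow_add]
      change _ + F Λ ≤ _
      nlinarith
    · have h6 : Λ * Λ ≤ mp.eval Λ * n := (hmp Λ).2.trans (Nat.le_mul_of_pos_right _ i0.pos)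
      have h7 : (Λ : ℝ) * Λ ≤ (mp.eval Λ * n : ℕ) := by exact_mod_cast h6
      have h8 : (C' : ℝ) ≤ Λ := by exact_mod_cast (by omega : C' ≤ Λ)
      rw [div_le_iff₀ hc] at hC'
      have h9 : (0 : ℝ) ≤ Λ := Nat.cast_nonneg _
      have h10 : 2 ≤ Λ * c := by nlinarith
      push_cast at h7 ⊢
      nlinarith

theorem exists_adm_robust {s : ℕ} (hs1 : n ≤ s) (hs2 : s + 2 ≤ n * (n - 1)) :
    ∃ (i0 i1 : Fin n) (q : Fin n → ℕ), i1 ≠ i0 ∧ Adm true i0 q ∧ 2 ≤ q i1 ∧
      (∀ i ≠ i0, 1 ≤ q i) ∧ ∑ i, q i = s := by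
  obtain ⟨a, rfl⟩ : ∃ a, n = a + 3 := by
    refine ⟨n - 3, ?_⟩
    by_contra hcon
    have : n ≤ 2 := by omega
    interval_cases n <;> omega
  have hne : (1 : Fin (a + 3)) ≠ 0 := one_ne_zero
  obtain ⟨q, hq, rfl⟩ := exists_adm (n := a + 3) s
    (fun i => if i = 0 then 0 else if i = 1 then 2 else 1)
    (fun i => if i = 0 then a else a + 2) (fun i => by split_ifs <;> omega)
    (by
      rw [Fin.sum_univ_succ, Fin.sum_univ_succ, sum_congr rfl (g := fun _ => 1) (fun i _ => by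
        rw [if_neg (Fin.succ_ne_zero _), if_neg (fun h => Fin.succ_ne_zero _
          (Fin.succ_inj.1 (h.trans Fin.succ_zero_eq_one.symm)))])]
      simp; omega)
    (by
      rw [Fin.sum_univ_succ, sum_congr rfl (g := fun _ => a + 2) (fun i _ =>
        if_neg (Fin.succ_ne_zero _))]
      simp only [if_true, sum_const, card_univ, Fintype.card_fin, smul_eq_mul]
      have : a + 3 - 1 = a + 2 := rfl
      rw [this] at hs2
      nlinarith)
  have hq0 : q 0 ≤ a := by simpa using (hq 0).2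
  refine ⟨0, 1, q, hne, ⟨fun i => ?_, by simp only [if_true]; omega⟩, by simpa using (hq 1).1,
    fun i hi => ?_, rfl⟩
  · have := (hq i).2
    split_ifs at this <;> omega
  · have := (hq i).1
    simp only [if_neg hi] at this
    split_ifs at this <;> omega

/-- The robust reduction: all instances near the centre have the same answer. -/
theorem robust_reduction {L : List Bool → Bool} (hL : L ∈ N68a2faeb.NP) {s : ℕ}
    (hs1 : n ≤ s) (hs2 : s + 2 ≤ n * (n - 1)) {c : ℝ} (hc : 0 < c) (fq : Polynomial ℕ) :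
    ∃ (mp : Polynomial ℕ) (E : List Bool → ℕ → ℕ → ℕ),
      PT (fun a : List Bool × ℕ × ℕ => E a.1 a.2.1 a.2.2) ∧ ∀ x m, m = mp.eval x.length →
        (fun (i : Fin n) (o : Fin m) => E x i o) ∈ box c n m ∧
        ∀ y : Inst n m, Near (fun i o => E x i o) y (fq.eval (m * n)) →
          (ConsObj n s m y ↔ L x = true) := by
  obtain ⟨i0, i1, q, hne, hadm, hq1, hq2, rfl⟩ := exists_adm_robust hs1 hs2
  have hn2 : 2 ≤ n := by have := hadm.1 i1; omega
  let mp : Polynomial ℕ := Polynomial.X * Polynomial.X + Polynomial.C n * Polynomial.X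
  obtain ⟨lp, E, hE, h⟩ := exists_centre hL true i0 i1 hadm hc fq mp
    (fun l => by simp [mp]) 1 le_rfl 0
  refine ⟨mp.comp lp, E, hE, fun x m hm => ?_⟩
  rw [Polynomial.eval_comp] at hm
  obtain ⟨-, hΛ2, hΛn, hbox, g, K, hK, hEe, hf, hcore, hA, hW⟩ := h x _ m _ rfl hm rfl
  generalize lp.eval x.length = Λ at *
  generalize fq.eval (m * n) = F at *
  have hnm : n * Λ ≤ m := by simp [hm, mp]
  refine ⟨mem_box.2 fun i o => le_trans (Nat.le_add_right _ _) (hbox i o), fun y hy => ?_⟩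
  simp only [hEe, one_mul] at hy
  let p0 : Fin Λ := ⟨0, by omega⟩
  let p1 : Fin Λ := ⟨1, by omega⟩
  have hx := isCentre_entry hnm (by omega) g K (n * F + n * m * F + 1) i0 (emb hnm (i1, p1))
  rw [← cons_true]
  refine ⟨no_of_cons hx hy hK hf hcore, fun hl => ?_⟩
  obtain ⟨W, hW, hW'⟩ := hW hl
  obtain ⟨z0, hz0, hcost, hz1, -⟩ := exists_base hx hW
    (Or.inr ⟨i1, p1, rfl, hW' rfl i1 hne 1 hq1⟩)
  let fl' : Fin n → Fin n × Fin Λ := fun k => if k = i0 then (i1, p1) else (k, p0)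
  have hfl' : Function.Injective fl' := by
    intro k k' h
    simp only [fl'] at h
    split_ifs at h with h1 h2 h2
    · rw [h1, h2]
    · simp [p0, p1] at h
    · simp [p0, p1] at h
    · exact (Prod.ext_iff.1 h).1
  have hval : ∀ (i k : Fin n) (p : Fin Λ), entry g Λ K (n * F + n * m * F + 1) i0
      (emb hnm (i1, p1)) i (emb hnm (k, p)) = K * (if k = i then g i p else 0) +
      if i = i0 ∧ (k, p) = (i1, p1) then n * F + n * m * F + 1 else 0 := by
    intro i k p
    have h1 : (k * Λ + p) / Λ = k := by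
      rw [add_comm, Nat.add_mul_div_right _ _ (by omega), Nat.div_eq_of_lt p.2, zero_add]
    have h2 : (k * Λ + p) % Λ = p := by
      rw [Nat.mul_add_mod_self_right, Nat.mod_eq_of_lt p.2]
    unfold entry
    simp only [Fin.val_inj, EmbeddingLike.apply_eq_iff_eq]
    rw [emb_val, h1, h2]
    simp only [Fin.val_inj]
  obtain ⟨z, hz, hz'⟩ := robust hn2 hz0 hy ((⟨fl', hfl'⟩ : Fin n ↪ _).trans (emb hnm))
    (fun j k => by
      change z0 j (emb hnm (fl' k)) = _
      simp only [fl']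
      split_ifs with hk
      · rw [congrFun (hz1 i1 p1) j]; exact hW' rfl i1 hne 1 hq1 j
      · rw [congrFun (hz1 k p0) j]; exact hW' rfl k hk 0 (hq2 k hk) j)
    (fun i => by
      change ∑ k ∈ univ.erase i, entry _ _ _ _ _ _ _ (emb hnm (fl' k)) + _ + _ <
        entry _ _ _ _ _ _ _ (emb hnm (fl' i))
      by_cases hi : i = i0
      · subst hi
        rw [sum_eq_zero (fun k hk => by
          have hk := (mem_erase.1 hk).1
          simp only [fl', if_neg hk, hval]
          simp [p0, p1])]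
        simp only [fl', if_true, hval, and_self]
        omega
      · have hK' : n * F + n * m * F < K := by
          have := Nat.le_mul_of_pos_left (2 * m * F + (n * F + n * m * F + 1))
            (show 0 < 2 * n by omega)
          omega
        rw [← add_sum_erase _ _ (mem_erase.2 ⟨Ne.symm hi, mem_univ i0⟩),
          sum_eq_zero (fun k hk => by
          have hk1 := (mem_erase.1 hk).1
          have hk2 := (mem_erase.1 (mem_erase.1 hk).2).1
          simp only [fl', if_neg hk1, hval, if_neg hk2]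
          simp [hi])]
        simp only [fl', if_true, if_neg hi, hval, hA rfl i hi, gA, hi, false_and, if_false]
        have := hq2 i hi
        simp only [p0, p1, if_pos (show 0 < q i by omega), one_ne_zero, if_false]
        split_ifs <;> omega)
  exact ⟨z, hz, hz'.trans hcost⟩

end Pool.Agent.Lib.MP_5a17c4_lc
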