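import Pool.Agent.Lib.MP_5a17c4_lc.Count

/-!
Sampling a point of the ball almost uniformly from random bits.
-/

set_option autoImplicit false

namespace Pool.Agent.Lib.MP_5a17c4_lc

open Finset Pool.Agent.Shared.PolyTime

variable {n m : ℕ}

/-- The point of the ball determined by the numbers `v`. -/
def samp (x : Inst n m) (F : ℕ) (v : Inst n m) : Inst n m :=
  fun i o => x i o - F + v i o % (x i o + F + 1 - (x i o - F))

theorem samp_mem (x : Inst n m) (F : ℕ) (v : Inst n m) : samp x F v ∈ om x F :=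
  mem_om.2 fun i o => by
    have := Nat.mod_lt (v i o) (show 0 < x i o + F + 1 - (x i o - F) by omega)
    unfold samp; omega

/-- All matrices with entries below `Q`. -/
def cube (n m Q : ℕ) : Finset (Inst n m) :=
  Fintype.piFinset fun _ => Fintype.piFinset fun _ => range Q

theorem card_cube (Q : ℕ) : (cube n m Q).card = Q ^ (n * m) := by
  simp [cube, ← pow_mul, mul_comm]

theorem card_mod (Q w c : ℕ) (hc : c < w) :
    Q / w ≤ ((range Q).filter fun v => v % w = c).card := by
  conv_lhs => rw [← card_range (Q / w)]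
  refine card_le_card_of_injOn (fun q => q * w + c) (fun q hq => ?_) fun q _ q' _ e => ?_
  · have h1 : (q + 1) * w ≤ Q / w * w := Nat.mul_le_mul_right _ (mem_range.1 hq)
    have h2 := Nat.div_mul_le_self Q w
    refine mem_coe.2 (mem_filter.2 ⟨mem_range.2 (by nlinarith), ?_⟩)
    rw [Nat.mul_add_mod_self_right, Nat.mod_eq_of_lt hc]
  · exact Nat.eq_of_mul_eq_mul_right (by omega) (Nat.add_right_cancel e)

theorem bern (Q d t : ℕ) (h : 2 * t * d ≤ Q) (hd : d ≤ Q) : Q ^ t ≤ 2 * (Q - d) ^ t := by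
  rcases Nat.eq_zero_or_pos Q with rfl | hQ
  · simp; omega
  have hQ' : (0 : ℝ) < Q := by exact_mod_cast hQ
  have hd' : (d : ℝ) ≤ Q := by exact_mod_cast hd
  have h' : 2 * (t : ℝ) * d ≤ Q := by exact_mod_cast h
  have h1 := one_add_mul_le_pow (a := -(d / Q : ℝ)) (by
    have : (d : ℝ) / Q ≤ 1 := (div_le_one hQ').2 hd'
    linarith) t
  have h2 : (t : ℝ) * (d / Q) ≤ 1 / 2 := by
    rw [← mul_div_assoc, div_le_iff₀ hQ']; linarith
  have h3 : ((Q - d : ℕ) : ℝ) = Q * (1 + -(d / Q)) := by
    rw [Nat.cast_sub hd]; field_simp; ring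
  have : (Q : ℝ) ^ t ≤ 2 * ((Q - d : ℕ) : ℝ) ^ t := by
    rw [h3, mul_pow]
    have := pow_pos hQ' t
    nlinarith
  exact_mod_cast this

theorem samp_count {x : Inst n m} {F Q : ℕ} {S : Finset (Inst n m)} (hS : S ⊆ om x F)
    (h : 2 * (n * m) * (2 * F + 1) ≤ Q) (h' : 2 * F + 1 ≤ Q) :
    S.card * Q ^ (n * m) ≤
      2 * (om x F).card * ((cube n m Q).filter fun v => samp x F v ∈ S).card := by
  have h1 : S.card * ∏ i, ∏ o, (Q / (x i o + F + 1 - (x i o - F))) ≤
      ((cube n m Q).filter fun v => samp x F v ∈ S).card := by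
    rw [card_eq_sum_card_fiberwise (f := samp x F) (t := S)
      (s := (cube n m Q).filter fun v => samp x F v ∈ S) (fun v hv => (mem_filter.1 (mem_coe.1 hv)).2)]
    refine card_nsmul_le_sum _ _ _ fun y hy => ?_
    refine le_trans ?_ (card_le_card (s := Fintype.piFinset fun i => Fintype.piFinset fun o =>
      (range Q).filter fun v => v % (x i o + F + 1 - (x i o - F)) = y i o - (x i o - F))
      fun v hv => ?_)
    · simp only [Fintype.card_piFinset]
      refine prod_le_prod' fun i _ => prod_le_prod' fun o _ => card_mod _ _ _ ?_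
      have := mem_om.1 (hS hy) i o
      omega
    · simp only [Fintype.mem_piFinset, mem_filter] at hv
      have : samp x F v = y := by
        funext i o
        have := mem_om.1 (hS hy) i o
        unfold samp
        rw [(hv i o).2]; omega
      refine mem_filter.2 ⟨mem_filter.2 ⟨?_, this ▸ hy⟩, this⟩
      simp only [cube, Fintype.mem_piFinset]
      exact fun i o => (hv i o).1
  have h2 : (Q - (2 * F + 1)) ^ (n * m) ≤
      (om x F).card * ∏ i, ∏ o, (Q / (x i o + F + 1 - (x i o - F))) := by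
    simp only [om, Fintype.card_piFinset, Nat.card_Icc, ← prod_mul_distrib]
    calc _ = ∏ _i : Fin n, ∏ _o : Fin m, (Q - (2 * F + 1)) := by simp [← pow_mul, mul_comm]
      _ ≤ _ := prod_le_prod' fun i _ => prod_le_prod' fun o _ => by
        have h3 := Nat.div_add_mod Q (x i o + F + 1 - (x i o - F))
        have h4 := Nat.mod_lt Q (show 0 < x i o + F + 1 - (x i o - F) by omega)
        omega
  calc S.card * Q ^ (n * m) ≤ S.card * (2 * ((om x F).card *
        ∏ i, ∏ o, (Q / (x i o + F + 1 - (x i o - F))))) :=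
        Nat.mul_le_mul_left _ ((bern Q _ _ h h').trans (Nat.mul_le_mul_left _ h2))
    _ = 2 * (om x F).card * (S.card * ∏ i, ∏ o, (Q / (x i o + F + 1 - (x i o - F)))) := by ring
    _ ≤ _ := Nat.mul_le_mul_left _ h1

theorem rep_bound (P t k : ℕ) (h : P ≤ k * t) (ht : t ≤ P) (hk : 0 < k) :
    2 * (P - t) ^ k ≤ P ^ k := by
  rcases Nat.eq_zero_or_pos P with rfl | hP
  · simp [hk.ne']
  have hP' : (0 : ℝ) < P := by exact_mod_cast hP
  have ht' : (t : ℝ) ≤ P := by exact_mod_cast ht
  have h' : (P : ℝ) ≤ k * t := by exact_mod_cast h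
  have h0 : (0 : ℝ) ≤ t / P := by positivity
  have h5 : (t : ℝ) / P ≤ 1 := (div_le_one hP').2 ht'
  have h1 := one_add_mul_le_pow (a := (t / P : ℝ)) (by linarith) k
  have h2 : 1 ≤ (k : ℝ) * (t / P) := by
    rw [← mul_div_assoc, le_div_iff₀ hP']; linarith
  have h3 : ((P - t : ℕ) : ℝ) = P * (1 - t / P) := by
    rw [Nat.cast_sub ht]; field_simp
  have h4 : (1 - t / P : ℝ) ^ k * (1 + t / P) ^ k ≤ 1 := by
    rw [← mul_pow]
    exact pow_le_one₀ (by nlinarith) (by nlinarith)
  have h6 : (0 : ℝ) ≤ (1 - t / P) ^ k := pow_nonneg (by linarith) _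
  have : 2 * ((P - t : ℕ) : ℝ) ^ k ≤ (P : ℝ) ^ k := by
    rw [h3, mul_pow]
    have := pow_pos hP' k
    have h7 : 2 * (1 - t / P : ℝ) ^ k ≤ 1 := by nlinarith
    nlinarith
  exact_mod_cast this

/-- The number written in block `e` of length `l` of the string `r`. -/
def chunk (r : List Bool) (l e : ℕ) : ℕ := val ((r.drop (e * l)).take l)

theorem val_testBit (l : ℕ) : ∀ u : ℕ, val ((List.range l).map u.testBit) = u % 2 ^ l := by
  induction l with
  | zero => intro u; simp [Shared.PolyTime.val, Nat.mod_one]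
  | succ l ih =>
    intro u
    rw [List.range_succ, List.map_append, val_append, ih, Nat.mod_pow_succ]
    simp [Shared.PolyTime.val, Nat.toNat_testBit]

theorem chunk_surj (A l : ℕ) (u : ℕ → ℕ) (hu : ∀ e < A, u e < 2 ^ l) :
    ∃ r : Fin (A * l) → Bool, ∀ e < A, chunk (List.ofFn r) l e = u e := by
  refine ⟨fun p => (u (p / l)).testBit (p % l), fun e he => ?_⟩
  have h1 : (e + 1) * l ≤ A * l := Nat.mul_le_mul_right _ he
  unfold chunk
  rw [← Nat.mod_eq_of_lt (hu e he), ← val_testBit]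
  congr 1
  apply List.ext_getElem
  · simp only [List.length_take, List.length_drop, List.length_ofFn, List.length_map,
      List.length_range]
    have : e * l + l ≤ A * l := by nlinarith
    omega
  · intro k h2 h3
    have hk : k < l := by simpa using h3
    simp only [List.getElem_take, List.getElem_drop, List.getElem_ofFn, List.getElem_map,
      List.getElem_range]
    rw [Nat.mul_add_mod_self_right, Nat.mod_eq_of_lt hk, add_comm,
      Nat.add_mul_div_right _ _ (by omega), Nat.div_eq_of_lt hk, zero_add]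

theorem prob_half {x : Inst n m} {F l C : ℕ} {S : Finset (Inst n m)} (hS : S ⊆ om x F)
    (hC : (om x F).card ≤ C * S.card) (h : 2 * (n * m) * (2 * F + 1) ≤ 2 ^ l)
    (h' : 2 * F + 1 ≤ 2 ^ l) {N : ℕ} (hN : N = 2 * C * (n * m) * l)
    (Q : (Fin N → Bool) → Prop) [DecidablePred Q]
    (hQ : ∀ r, ∀ ρ < 2 * C, samp x F (fun i o => chunk (List.ofFn r) l (ρ * (n * m) + (i * m + o)))
      ∈ S → Q r) : 2 ^ N ≤ 2 * (univ.filter Q).card := by
  subst hN
  have h0 : 0 < (om x F).card := card_pos.2 ⟨_, samp_mem x F x⟩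
  have hC0 : 0 < C := Nat.pos_of_ne_zero fun e => by simp [e] at hC; simp [hC] at h0
  set T1 := (cube n m (2 ^ l)).filter fun v => samp x F v ∈ S with hT1
  have h1 : (2 ^ l) ^ (n * m) ≤ 2 * C * T1.card := by
    have h2 := samp_count hS h h'
    refine Nat.le_of_mul_le_mul_left ?_ h0
    calc _ ≤ C * S.card * (2 ^ l) ^ (n * m) := Nat.mul_le_mul_right _ hC
      _ = C * (S.card * (2 ^ l) ^ (n * m)) := by ring
      _ ≤ C * (2 * (om x F).card * T1.card) := Nat.mul_le_mul_left _ h2
      _ = _ := by ring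
  have h2 : T1 ⊆ cube n m (2 ^ l) := filter_subset _ _
  have h3 := rep_bound _ _ _ h1 (card_cube (n := n) (m := m) (2 ^ l) ▸ card_le_card h2) (by omega)
  let A := Fintype.piFinset fun _ : Fin (2 * C) => cube n m (2 ^ l)
  let B := Fintype.piFinset fun _ : Fin (2 * C) => cube n m (2 ^ l) \ T1
  have hA : A.card = ((2 ^ l) ^ (n * m)) ^ (2 * C) := by simp [A, card_cube]
  have hB : B.card = ((2 ^ l) ^ (n * m) - T1.card) ^ (2 * C) := by
    simp [B, card_sdiff_of_subset h2, card_cube]
  have h4 : (A \ B).card ≤ (univ.filter Q).card := by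
    refine card_le_card_of_surjOn (fun r (ρ : Fin (2 * C)) (i : Fin n) (o : Fin m) =>
      chunk (List.ofFn r) l (ρ * (n * m) + (i * m + o))) fun u hu => ?_
    obtain ⟨hu1, hu2⟩ := mem_sdiff.1 (mem_coe.1 hu)
    simp only [A, cube, Fintype.mem_piFinset, mem_range] at hu1
    have hidx : ∀ (i : Fin n) (o : Fin m), (i : ℕ) * m + o < n * m := fun i o => by
      have : ((i : ℕ) + 1) * m ≤ n * m := Nat.mul_le_mul_right _ i.2
      have := o.2
      nlinarith
    obtain ⟨r, hr⟩ := chunk_surj (2 * C * (n * m)) l (fun e =>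
      if h : e / (n * m) < 2 * C ∧ e % (n * m) / m < n ∧ e % (n * m) % m < m then
        u ⟨_, h.1⟩ ⟨_, h.2.1⟩ ⟨_, h.2.2⟩ else 0) (fun e _ => by
      split_ifs
      · exact hu1 _ _ _
      · exact Nat.two_pow_pos l)
    have e : (fun (ρ : Fin (2 * C)) (i : Fin n) (o : Fin m) =>
        chunk (List.ofFn r) l (ρ * (n * m) + (i * m + o))) = u := by
      funext ρ i o
      have a1 := hidx i o
      have a2 : ((ρ : ℕ) + 1) * (n * m) ≤ 2 * C * (n * m) := Nat.mul_le_mul_right _ ρ.2
      have a3 : ((ρ : ℕ) * (n * m) + (i * m + o)) / (n * m) = ρ := by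
        rw [add_comm, Nat.add_mul_div_right _ _ (by omega), Nat.div_eq_of_lt a1, zero_add]
      have a4 : ((ρ : ℕ) * (n * m) + (i * m + o)) % (n * m) = i * m + o := by
        rw [Nat.mul_add_mod_self_right, Nat.mod_eq_of_lt a1]
      have a5 : ((i : ℕ) * m + o) / m = i := by
        rw [add_comm, Nat.add_mul_div_right _ _ o.pos, Nat.div_eq_of_lt o.2, zero_add]
      have a6 : ((i : ℕ) * m + o) % m = o := by
        rw [Nat.mul_add_mod_self_right, Nat.mod_eq_of_lt o.2]
      rw [hr _ (by nlinarith), dif_pos (by rw [a3, a4, a5, a6]; exact ⟨ρ.2, i.2, o.2⟩)]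
      simp only [a3, a4, a5, a6]
    refine ⟨r, mem_coe.2 (mem_filter.2 ⟨mem_univ _, ?_⟩), e⟩
    simp only [B, Fintype.mem_piFinset (t := fun _ => _ \ T1), not_forall] at hu2
    obtain ⟨ρ, hρ⟩ := hu2
    have h5 : u ρ ∈ T1 := by
      by_contra hc
      refine hρ (mem_sdiff.2 ⟨?_, hc⟩)
      simp only [cube, Fintype.mem_piFinset, mem_range]
      exact hu1 ρ
    refine hQ r ρ ρ.2 ?_
    rw [congrFun e ρ]
    exact (mem_filter.1 h5).2
  have h5 := le_card_sdiff B A
  have h6 : 2 ^ (2 * C * (n * m) * l) = ((2 ^ l) ^ (n * m)) ^ (2 * C) := by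
    rw [← pow_mul, ← pow_mul]; congr 1; ring
  omega

end Pool.Agent.Lib.MP_5a17c4_lc
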