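import Pool.Agent.Lib.MP_5a17c4_lc.Centre
import Pool.Agent.Lib.MP_8f56c4_lc.H3.Tools

/-!
The polynomial time construction of the centre instance.
-/

set_option autoImplicit false

namespace Pool.Agent.Lib.MP_5a17c4_lc

open Finset Pool.Agent.Shared.PartitionNP Pool.Agent.Shared.PolyTime

variable {n : ℕ}

/-- Admissible budgets of the agents. -/
def Adm (μ : Bool) (i0 : Fin n) (q : Fin n → ℕ) : Prop :=
  (∀ i, q i + 1 ≤ n) ∧ if μ then q i0 + 3 ≤ n ∨ (n = 2 ∧ q i0 = 0) else q i0 + 2 ≤ n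

theorem exists_adm (s : ℕ) (lo hi : Fin n → ℕ) (h : ∀ i, lo i ≤ hi i)
    (h1 : ∑ i, lo i ≤ s) (h2 : s ≤ ∑ i, hi i) :
    ∃ q : Fin n → ℕ, (∀ i, lo i ≤ q i ∧ q i ≤ hi i) ∧ ∑ i, q i = s := by
  induction s, h1 using Nat.le_induction with
  | base => exact ⟨lo, fun i => ⟨le_rfl, h i⟩, rfl⟩
  | succ s hs ih =>
    obtain ⟨q, hq, hs⟩ := ih (by omega)
    obtain ⟨i, -, hi'⟩ := exists_lt_of_sum_lt (s := univ) (f := q) (g := hi) (by omega)
    refine ⟨fun j => q j + if j = i then 1 else 0, fun j => ?_, ?_⟩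
    · have := hq j
      by_cases e : j = i
      · subst e; simp only [if_true]; omega
      · simp only [if_neg e]; omega
    · rw [sum_add_distrib, hs]; simp

theorem exists_setup {L : List Bool → Bool} (hL : L ∈ N68a2faeb.NP) (μ : Bool) (i0 : Fin n)
    {q : Fin n → ℕ} (hq : Adm μ i0 q) (l0 : ℕ) :
    ∃ (lp : Polynomial ℕ) (G : List Bool → ℕ → ℕ → ℕ),
      PT (fun a : List Bool × ℕ × ℕ => G a.1 a.2.1 a.2.2) ∧ ∀ x,
        l0 ≤ lp.eval x.length ∧ (∀ i p, G x i p ≤ 2 ^ lp.eval x.length) ∧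
        (∀ i ≠ i0, Force μ n (lp.eval x.length) (G x i) (q i)) ∧
        Core μ n (lp.eval x.length) (G x i0) (q i0) (L x = true) ∧
        (μ = true → ∀ i ≠ i0, G x i = gA (q i)) ∧
        (L x = true → ∃ W : Fin n → ℕ → Fin n → ℝ,
          (∀ i : Fin n, Base μ (lp.eval x.length) (G x i) (q i) (W i)) ∧
          (μ = true → ∀ i ≠ i0, ∀ p < q i, ∀ j, W i p j = 1 / n)) := by
  obtain ⟨k, b, hk, hk', hb, h⟩ := partition_hard_near hL n i0.pos
  let T : List Bool → ℕ := fun x => ((List.range (2 * (k x + 1))).map (b x)).sum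
  have hT : PT T := PT.sum (PT.map (h := b) (by fun_prop) hb)
  have hTe : ∀ x, T x = ∑ e ∈ range (2 * (k x + 1)), b x e := fun x => list_sum_range _ _
  let U : List Bool → ℕ := fun x => (5 * n + 2 * (n * k x) + 2) * T x + 3 + n
  have hU : PT U := by fun_prop
  obtain ⟨P, hP⟩ : PB (fun x => l0 + sz (U x) + (2 * n + n * k x + 2 * (k x + 1))) := by fun_prop
  let qs : ℕ → ℕ := fun i => (List.ofFn q).getD i 0
  have hqs : ∀ i : Fin n, qs i = q i := fun i => by simp [qs]
  have hqs' : ∀ i, qs i ≤ n := by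
    intro i
    by_cases hi : i < n
    · have := hqs ⟨i, hi⟩
      have := hq.1 ⟨i, hi⟩
      simp only at *
      omega
    · simp only [qs]
      rw [List.getD_eq_default _ _ (by simpa using hi)]
      omega
  let G : List Bool → ℕ → ℕ → ℕ := fun x i p =>
    if i = i0 then (if μ then gD n (q i0) (k x) (T x) (b x) p
      else gC n (q i0) (2 * (k x + 1)) (T x) (b x) p)
    else if μ then gA (qs i) p else gB n (qs i) p
  have hb1 : PT (fun a : List Bool × ℕ × ℕ => b a.1 (a.2.2 - n)) :=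
    hb.comp' (f := fun a : List Bool × ℕ × ℕ => (a.1, a.2.2 - n)) (by fun_prop)
  have hb2 : PT (fun a : List Bool × ℕ × ℕ => b a.1 (a.2.2 - ((n - 2) * k a.1 + q i0))) :=
    hb.comp' (f := fun a : List Bool × ℕ × ℕ => (a.1, a.2.2 - ((n - 2) * k a.1 + q i0)))
      (by fun_prop)
  have hG : PT (fun a : List Bool × ℕ × ℕ => G a.1 a.2.1 a.2.2) := by
    refine PT.ite (by fun_prop) ?_ ?_
    · cases μ
      · simp only [Bool.false_eq_true, if_false, gC]
        refine PT.ite (by fun_prop) (by fun_prop) (PT.ite (by fun_prop) (by fun_prop)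
          (PT.ite (by fun_prop) (by fun_prop)
            (PT.ite (PT.decide_and (by fun_prop) (by fun_prop)) ((PT.const 2).mul hb1)
              (by fun_prop))))
      · simp only [if_true, gD]
        refine PT.ite (by fun_prop) (by fun_prop) (PT.ite (by fun_prop)
          (PT.mul (by fun_prop) hb2) (by fun_prop))
    · cases μ
      · simp only [Bool.false_eq_true, if_false, gB, qs]; fun_prop
      · simp only [if_true, gA, qs]; fun_prop
  refine ⟨P.comp (3 * Polynomial.X), G, hG, fun x => ?_⟩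
  have h0 := hP x
  beta_reduce at h0
  have e0 : (P.comp (3 * Polynomial.X)).eval x.length = P.eval (N487b59b3.bitEncode x).length := by
    have : (N487b59b3.bitEncode x).length = 3 * x.length := sz_listBool x
    simp [this]
  rw [e0]
  generalize P.eval (N487b59b3.bitEncode x).length = Λ at h0
  obtain ⟨hk1, ⟨M, v, hM, hMb⟩, hLx⟩ := h x
  have hq0 := hq.1 i0
  have hnk : (n - 2) * k x ≤ n * k x := Nat.mul_le_mul_right _ (by omega)
  have hne : ∀ i ≠ i0, (i : ℕ) ≠ i0 := fun i hi h => hi (Fin.ext h)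
  have hbT : ∀ e < 2 * (k x + 1), b x e ≤ T x := fun e he => by
    rw [hTe]; exact single_le_sum (f := b x) (fun _ _ => Nat.zero_le _) (mem_range.2 he)
  have hT1 : 1 ≤ ∑ e ∈ range (2 * (k x + 1)), b x e := by
    have := hbT 0 (by omega)
    have := hMb 0 (by omega)
    rw [← hTe]; omega
  refine ⟨by omega, fun i p => ?_, fun i hi => ?_, ?_, fun hμ i hi => ?_, fun hx => ?_⟩
  · have h1 : U x < 2 ^ Λ := Nat.size_le.1 (by rw [← sz_nat]; omega)
    refine le_trans ?_ h1.le
    have h2 := hqs' i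
    simp only [G, U, gA, gB, gC, gD]
    split_ifs with a1 a2 a3 a4 a5 a6 a7 a8
    · have : (n - 2) * T x ≤ (5 * n + 2 * (n * k x) + 2) * T x := Nat.mul_le_mul_right _ (by omega)
      omega
    · have := Nat.mul_le_mul (show 2 * max ((n - 2) * k x + q i0) 1 ≤ 5 * n + 2 * (n * k x) + 2 by
        omega) (hbT (p - ((n - 2) * k x + q i0)) (by omega))
      omega
    · omega
    · have : (3 * q i0 + 2) * T x ≤ (5 * n + 2 * (n * k x) + 2) * T x :=
        Nat.mul_le_mul_right _ (by omega)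
      omega
    · have : 2 * T x ≤ (5 * n + 2 * (n * k x) + 2) * T x := Nat.mul_le_mul_right _ (by omega)
      omega
    · have : 3 * T x ≤ (5 * n + 2 * (n * k x) + 2) * T x := Nat.mul_le_mul_right _ (by omega)
      omega
    · have := Nat.mul_le_mul (show 2 ≤ 5 * n + 2 * (n * k x) + 2 by omega) (hbT (p - n) (by omega))
      omega
    all_goals omega
  · have e : G x i = if μ then gA (q i) else gB n (q i) := by
      funext p; simp only [G, if_neg (hne i hi), hqs]; split_ifs <;> rfl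
    rw [e]
    cases μ
    · exact force_gB (hq.1 i) (by omega)
    · exact force_gA (hq.1 i) (by omega)
  · rw [hLx]
    cases μ
    · have e : G x i0 = gC n (q i0) (2 * (k x + 1)) (T x) (b x) := by funext p; simp [G]
      rw [e, hTe]
      exact core_gC _ (by simpa using hq.2) (by omega) hT1
    · have e : G x i0 = gD n (q i0) (k x) (T x) (b x) := by funext p; simp [G]
      rw [e, hTe]
      exact core_gD _ (by simpa using hq.2) hk1 (by omega) hM hMb
  · funext p; simp only [G, if_neg (hne i hi), hqs, if_pos hμ]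
  · have : ∀ i : Fin n, ∃ w : ℕ → Fin n → ℝ, Base μ Λ (G x i) (q i) w ∧
        (μ = true → i ≠ i0 → ∀ p < q i, ∀ j, w p j = 1 / n) := by
      intro i
      by_cases hi : i = i0
      · subst hi
        cases μ
        · have e : G x i = gC n (q i) (2 * (k x + 1)) (T x) (b x) := by funext p; simp [G]
          rw [e, hTe]
          obtain ⟨w, hw⟩ := base_gC (n := n) (Λ := Λ) (q := q i) (b x) (by simpa using hq.2)
            (by omega) (hLx.1 hx)
          exact ⟨w, hw, fun _ h => absurd rfl h⟩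
        · have e : G x i = gD n (q i) (k x) (T x) (b x) := by funext p; simp [G]
          rw [e, hTe]
          obtain ⟨w, hw⟩ := base_gD (n := n) (Λ := Λ) (q := q i) (b x) (by simpa using hq.2) hk1
            (by omega) (hLx.1 hx)
          exact ⟨w, hw, fun _ h => absurd rfl h⟩
      · have e : G x i = if μ then gA (q i) else gB n (q i) := by
          funext p; simp only [G, if_neg (hne i hi), hqs]; split_ifs <;> rfl
        rw [e]
        cases μ
        · obtain ⟨w, hw⟩ := base_gB (Λ := Λ) (hq.1 i) (by omega)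
          exact ⟨w, hw, fun h => absurd h (by simp)⟩
        · obtain ⟨w, hw, hw'⟩ := base_gA (Λ := Λ) (hq.1 i) (by omega)
          exact ⟨w, hw, fun _ _ => hw'⟩
    choose W hW hW' using this
    exact ⟨W, hW, fun hμ i hi => hW' i hμ hi⟩

/-- the entries of the centre instance -/
def entry (g : ℕ → ℕ → ℕ) (Λ K γ i0 o0 i o : ℕ) : ℕ :=
  K * (if o / Λ = i then g i (o % Λ) else 0) + if i = i0 ∧ o = o0 then γ else 0

/-- the position of object number `p` of agent `i` -/
def emb {m Λ : ℕ} (h : n * Λ ≤ m) : Fin n × Fin Λ ↪ Fin m where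
  toFun a := ⟨a.1 * Λ + a.2, by
    have h1 := a.1.2
    have h2 := a.2.2
    have : (a.1 + 1) * Λ ≤ n * Λ := Nat.mul_le_mul_right _ h1
    nlinarith⟩
  inj' a b hab := by
    have h1 : a.1 * Λ + a.2 = b.1 * Λ + b.2 := congrArg Fin.val hab
    have h2 := congrArg (· % Λ) h1
    simp only [Nat.mul_add_mod_self_right, Nat.mod_eq_of_lt a.2.2, Nat.mod_eq_of_lt b.2.2] at h2
    rw [h2] at h1
    exact Prod.ext (Fin.ext (Nat.eq_of_mul_eq_mul_right a.2.pos (by omega))) (Fin.ext h2)

theorem emb_val {m Λ : ℕ} (h : n * Λ ≤ m) (i : Fin n) (p : Fin Λ) :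
    (emb h (i, p) : ℕ) = i * Λ + p := rfl

theorem mem_emb {m Λ : ℕ} (h : n * Λ ≤ m) (o : Fin m) :
    o ∈ univ.map (emb h) ↔ (o : ℕ) < n * Λ := by
  constructor
  · intro ho
    obtain ⟨⟨i, p⟩, -, rfl⟩ := mem_map.1 ho
    have : (i + 1) * Λ ≤ n * Λ := Nat.mul_le_mul_right _ i.2
    have := p.2
    rw [emb_val]; nlinarith
  · intro ho
    have hΛ : 0 < Λ := Nat.pos_of_ne_zero fun h => by simp [h] at ho
    refine mem_map.2 ⟨(⟨o / Λ, (Nat.div_lt_iff_lt_mul hΛ).2 ho⟩, ⟨o % Λ, Nat.mod_lt _ hΛ⟩),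
      mem_univ _, Fin.ext ?_⟩
    rw [emb_val]
    exact Nat.div_add_mod' _ _

theorem isCentre_entry {m Λ : ℕ} (h : n * Λ ≤ m) (hΛ : 0 < Λ) (g : ℕ → ℕ → ℕ) (K γ : ℕ)
    (i0 : Fin n) (o0 : Fin m) :
    IsCentre (emb h) K γ (fun i => g i) i0 o0 (fun i o => entry g Λ K γ i0 o0 i o) := by
  intro i w
  simp only [entry, Nat.cast_add, add_mul, sum_add_distrib]
  congr 1
  · rw [mul_sum]
    symm
    refine sum_bij_ne_zero (fun p _ _ => emb h (i, p)) (fun _ _ _ => mem_univ _)
      (fun _ _ _ _ _ _ h => (Prod.ext_iff.1 ((emb _).injective h)).2) (fun o _ ho => ?_)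
      (fun p _ _ => ?_)
    · have h1 : (o : ℕ) / Λ = i := by
        by_contra hc
        simp [hc] at ho
      have h2 : emb h (i, ⟨o % Λ, Nat.mod_lt _ hΛ⟩) = o := Fin.ext (by
        rw [emb_val, ← h1]; exact Nat.div_add_mod' _ _)
      refine ⟨⟨o % Λ, Nat.mod_lt _ hΛ⟩, mem_univ _, ?_, h2⟩
      rw [h2]
      simpa [h1, mul_assoc] using ho
    · have h1 : (i * Λ + p) / Λ = i := by
        rw [add_comm, Nat.add_mul_div_right _ _ hΛ, Nat.div_eq_of_lt p.2, zero_add]
      have h2 : (i * Λ + p) % Λ = p := by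
        rw [Nat.mul_add_mod_self_right, Nat.mod_eq_of_lt p.2]
      rw [emb_val, h1, h2, if_pos rfl]
      push_cast; ring
  · rw [sum_eq_single o0 (fun o _ ho => by
      rw [if_neg (fun h => ho (Fin.ext h.2))]; simp) (by simp)]
    by_cases hi : i = i0
    · simp [hi]
    · rw [if_neg (fun h => hi (Fin.ext h.1)), if_neg hi]; simp

theorem ofFn_val {α : Type} (k : ℕ) (F : ℕ → α) :
    List.ofFn (fun i : Fin k => F i) = (List.range k).map F := by
  apply List.ext_getElem <;> simp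

theorem enc_val (m : ℕ) (E : ℕ → ℕ → ℕ) : enc (fun (i : Fin n) (o : Fin m) => E i o) =
    N487b59b3.bitEncode ((List.range m).flatMap fun o => (List.range n).map fun i => E i o) := by
  unfold enc
  rw [ofFn_val m (fun o => List.ofFn fun i : Fin n => E i o), List.flatMap_def]
  congr 3
  funext o
  exact ofFn_val n fun i => E i o

theorem mem_box {c : ℝ} {m : ℕ} {x : Inst n m} :
    x ∈ box c n m ↔ ∀ i o, x i o ≤ ⌊(2 : ℝ) ^ (c * (m * n : ℕ))⌋₊ := by
  simp [box, Fintype.mem_piFinset]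

theorem le_floor {c : ℝ} {a t : ℕ} (h : (a : ℝ) ≤ c * t) : 2 ^ a ≤ ⌊(2 : ℝ) ^ (c * t)⌋₊ := by
  refine Nat.le_floor ?_
  rw [Nat.cast_pow, Nat.cast_ofNat, ← Real.rpow_natCast]
  exact Real.rpow_le_rpow_of_exponent_le (by norm_num) h

theorem poly_le (P : Polynomial ℕ) : ∃ C, ∀ l, C ≤ l → P.eval l ≤ 2 ^ l := by
  obtain ⟨C, hC⟩ := MP_8f56c4_lc.H3.exists_poly_le P 1
  exact ⟨C, fun l hl => (eval_mono P (by omega)).trans (hC l hl)⟩

end Pool.Agent.Lib.MP_5a17c4_lc
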